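import Pool.Agent.Lib.MP_5d4057_al.NU.CuspA
import Pool.Agent.Lib.MP_5d4057_al.HM.LapKer
import Pool.Agent.Lib.MP_5d4057_al.HM.Flow
import Pool.Agent.Lib.MP_5d4057_al.HM.CutB
import Pool.Agent.Lib.MP_5d4057_al.HM.AppHol

/-! The maximum principle for the invariant Laplacian. -/

namespace Pool.Agent.Lib.MP_5d4057_al.RC

open Matrix MeasureTheory Filter Topology Pool.Agent.Lib.MP_5d4057_al
  Pool.Agent.Lib.MP_5d4057_al.Hyb Pool.Agent.Lib.MP_5d4057_al.HM
  Pool.Agent.Lib.MP_5d4057_al.NU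

open scoped ComplexOrder MatrixOrder Matrix.Norms.L2Operator

variable {n m : ℕ}

/-- The second derivative test on a line. -/
theorem deriv_two_nonpos {f : ℝ → ℝ} (h : IsLocalMax f 0) (hc : ContinuousAt f 0) :
    deriv (deriv f) 0 ≤ 0 := by
  by_contra hpos
  rw [not_le] at hpos
  have h1 := isLocalMin_of_deriv_deriv_pos hpos h.deriv_eq_zero hc
  have h2 : f =ᶠ[𝓝 0] fun _ => f 0 := by
    filter_upwards [h, h1] with t ht1 ht2
    exact le_antisymm ht1 ht2
  have h3 : deriv f =ᶠ[𝓝 0] fun _ => 0 := by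
    have h4 := h2.deriv
    filter_upwards [h4] with t ht
    rw [ht]
    simp
  rw [h3.deriv_eq] at hpos
  simp at hpos

theorem fderiv_two_nonpos {f : Vec n → ℝ} {v : Vec n} (hd : ContDiffAt ℝ 2 f v)
    (h : IsLocalMax f v) (ξ : Vec n) : fderiv ℝ (fderiv ℝ f) v ξ ξ ≤ 0 := by
  rw [fderiv_fderiv_line hd]
  have hc : Continuous fun t : ℝ => v + t • ξ := by fun_prop
  have h0 : Tendsto (fun t : ℝ => v + t • ξ) (𝓝 0) (𝓝 v) := by
    have := hc.tendsto 0
    simpa using this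
  refine deriv_two_nonpos ?_ ?_
  · filter_upwards [h0.eventually h] with t ht
    simpa using ht
  · have h1 : ContinuousAt f (v + (0 : ℝ) • ξ) := by
      rw [zero_smul, add_zero]
      exact hd.continuousAt
    exact ContinuousAt.comp (f := fun t : ℝ => v + t • ξ) (x := 0) h1 hc.continuousAt

/-- At a local maximum the Laplacian is nonpositive. -/
theorem lap_nonpos_of_isLocalMax {f : Vec n → ℝ} (hf : Homog f) (g : SUGroup n)
    (hd : ContDiffAt ℝ 2 f (act g (base n))) (h : IsLocalMax f (act g (base n))) :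
    Lap f (act g (base n)) ≤ 0 := by
  rw [lap_frame hf g hd, smul_eq_mul]
  refine mul_nonpos_of_nonneg_of_nonpos (by norm_num) (Finset.sum_nonpos fun j _ => ?_)
  exact add_nonpos (fderiv_two_nonpos hd h _) (fderiv_two_nonpos hd h _)

theorem herm_isot_ne {v p : Vec n} (hv : v ∈ Cone n) (hp : p ≠ 0) (hq : q p = 0) :
    herm v p ≠ 0 := by
  intro h
  have h3 := q_pos_of_orth hv h hp
  rw [hq] at h3
  exact lt_irrefl _ h3

theorem contDiffOn_yp {p : Vec n} (hp : p ≠ 0) (hq : q p = 0) :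
    ContDiffOn ℝ (⊤ : ℕ∞) (yp p) (Cone n) := by
  refine ContDiffOn.div lk_contDiff_q.neg.contDiffOn
    ((lk_contDiff_herm p).norm_sq ℝ).contDiffOn ?_
  intro v hv
  have := herm_isot_ne hv hp hq
  positivity

theorem contDiffOn_yp_two {p : Vec n} (hp : p ≠ 0) (hq : q p = 0) :
    ContDiffOn ℝ 2 (yp p) (Cone n) :=
  (contDiffOn_yp hp hq).of_le (WithTop.coe_le_coe.2 (le_top : (2 : ℕ∞) ≤ ⊤))

/-- The second derivatives of a height. -/
theorem yp_line {v p : Vec n} (hv : v ∈ Cone n) (hp : p ≠ 0) (hq : q p = 0) (ξ : Vec n) :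
    fderiv ℝ (fderiv ℝ (yp p)) v ξ ξ = yp p v *
      (((1 : ℕ) : ℝ) ^ 2 * (4 * (herm v ξ).re ^ 2 / q v ^ 2 -
          8 * ((herm v ξ).re * ((starRingEnd ℂ) (herm v p) * herm ξ p).re) / (q v * ‖herm v p‖ ^ 2) +
          4 * ((starRingEnd ℂ) (herm v p) * herm ξ p).re ^ 2 / (‖herm v p‖ ^ 2) ^ 2) +
        ((1 : ℕ) : ℝ) * (2 * q ξ / q v - 2 * ‖herm ξ p‖ ^ 2 / ‖herm v p‖ ^ 2 -
          4 * (herm v ξ).re ^ 2 / q v ^ 2 +
          4 * ((starRingEnd ℂ) (herm v p) * herm ξ p).re ^ 2 / (‖herm v p‖ ^ 2) ^ 2)) := by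
  have hcd : ContDiffAt ℝ 2 (yp p) v :=
    (contDiffOn_yp_two hp hq).contDiffAt ((isOpen_cone n).mem_nhds hv)
  rw [fderiv_fderiv_line hcd]
  have hqv : q v < 0 := hv
  have hh := herm_isot_ne hv hp hq
  have h1 : (fun t : ℝ => yp p (v + t • ξ)) = fun t : ℝ => ((q v + 2 * t * (herm v ξ).re + t ^ 2 * q ξ) *
      (-1) / (‖herm v p‖ ^ 2 + 2 * t * ((starRingEnd ℂ) (herm v p) * herm ξ p).re +
        t ^ 2 * ‖herm ξ p‖ ^ 2)) ^ 1 := by
    funext t
    rw [yp, lk_q_line, lk_herm_line, lk_norm_line, pow_one, mul_neg_one]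
  rw [h1, lk_second 1 (-1) _ _ _ _ _ _ (by norm_num) hqv.ne (by positivity), yp, pow_one, mul_neg_one]

/-- The height is an eigenfunction. -/
theorem lap_yp {v p : Vec n} (hv : v ∈ Cone n) (hp : p ≠ 0) (hq : q p = 0) :
    Lap (yp p) v = (1 - n) * yp p v := by
  have hqv : q v < 0 := hv
  have hh := herm_isot_ne hv hp hq
  have hN : 0 < ‖herm v p‖ ^ 2 := by positivity
  have hre : ∑ i, ((starRingEnd ℂ) (herm v p) * ((starRingEnd ℂ) (v i) *
      (((lkEps n i : ℝ) : ℂ) * p i))).re = ‖herm v p‖ ^ 2 := by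
    rw [← Complex.re_sum, ← Finset.mul_sum, ← lk_herm, mul_comm, Complex.mul_conj,
      Complex.normSq_eq_norm_sq, Complex.ofReal_re]
  rw [Lap]
  simp only [yp_line hv hp hq, lk_J_re, smul_eq_mul]
  rw [Finset.sum_congr rfl fun i _ => lk_term 1 (yp p v) (q v) v p (herm v p) hN.ne' i]
  rw [← Finset.mul_sum, Finset.sum_add_distrib, ← Finset.mul_sum, ← Finset.mul_sum,
    Finset.sum_add_distrib, Finset.sum_sub_distrib, Finset.sum_sub_distrib, ← Finset.sum_div,
    ← Finset.sum_div, ← Finset.sum_div, ← Finset.mul_sum, ← Finset.mul_sum, ← Finset.mul_sum,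
    hre, ← lk_q, ← lk_q, Finset.sum_const, Finset.card_univ, Fintype.card_fin, nsmul_eq_mul, hq]
  generalize yp p v = K
  generalize hNd : ‖herm v p‖ ^ 2 = N at *
  generalize q v = Q at *
  have hQ0 : Q ≠ 0 := hqv.ne
  have hN0 : N ≠ 0 := hN.ne'
  push_cast
  field_simp
  ring

theorem fderiv_fderiv_add_mul {f k : Vec n → ℝ} {v : Vec n} (hf : ContDiffAt ℝ 2 f v)
    (hk : ContDiffAt ℝ 2 k v) (c : ℝ) (ξ η : Vec n) :
    fderiv ℝ (fderiv ℝ fun w => f w + c * k w) v ξ η =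
      fderiv ℝ (fderiv ℝ f) v ξ η + c * fderiv ℝ (fderiv ℝ k) v ξ η := by
  have h1 : ∀ᶠ w in 𝓝 v, DifferentiableAt ℝ f w := by
    filter_upwards [hf.eventually (by norm_num)] with w hw
    exact hw.differentiableAt (by norm_num)
  have h2 : ∀ᶠ w in 𝓝 v, DifferentiableAt ℝ k w := by
    filter_upwards [hk.eventually (by norm_num)] with w hw
    exact hw.differentiableAt (by norm_num)
  have h3 : (fderiv ℝ fun w => f w + c * k w) =ᶠ[𝓝 v] fun w => fderiv ℝ f w + c • fderiv ℝ k w := by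
    filter_upwards [h1, h2] with w hw1 hw2
    exact (hw1.hasFDerivAt.add (hw2.hasFDerivAt.const_mul c)).fderiv
  have h4 : DifferentiableAt ℝ (fderiv ℝ f) v :=
    (hf.fderiv_right (m := 1) (by norm_num)).differentiableAt (by norm_num)
  have h5 : DifferentiableAt ℝ (fderiv ℝ k) v :=
    (hk.fderiv_right (m := 1) (by norm_num)).differentiableAt (by norm_num)
  have h6 : HasFDerivAt (fun w => fderiv ℝ f w + c • fderiv ℝ k w)
      (fderiv ℝ (fderiv ℝ f) v + c • fderiv ℝ (fderiv ℝ k) v) v :=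
    h4.hasFDerivAt.add (h5.hasFDerivAt.const_smul c)
  rw [h3.fderiv_eq, h6.fderiv]
  simp

theorem lap_add_mul {f k : Vec n → ℝ} {v : Vec n} (hf : ContDiffAt ℝ 2 f v)
    (hk : ContDiffAt ℝ 2 k v) (c : ℝ) :
    Lap (fun w => f w + c * k w) v = Lap f v + c * Lap k v := by
  simp only [Lap, fderiv_fderiv_add_mul hf hk c, smul_eq_mul]
  simp only [Finset.mul_sum]
  rw [← Finset.sum_add_distrib]
  refine Finset.sum_congr rfl fun i _ => ?_
  ring

theorem strong_max_base {u : Vec n → ℝ} (hu : Homog u) (hu2 : ContDiffOn ℝ 2 u (Cone n))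
    (hL : ∀ v ∈ Cone n, 0 ≤ Lap u v) {M : ℝ} (hM : ∀ v ∈ Cone n, u v ≤ M) {g₁ : SUGroup n}
    (hg₁ : u (act g₁ (base n)) = M) : u (base n) = M := by
  by_contra hne
  have hlt : u (base n) < M := lt_of_le_of_ne (hM _ (base_mem n)) hne
  have hc : Continuous fun g : SUGroup n => u (act g (base n)) :=
    hu2.continuousOn.comp_continuous continuous_orbit orbit_mem
  -- the nearest point
  have hcl : IsClosed {g : SUGroup n | u (act g (base n)) = M} := isClosed_eq hc continuous_const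
  have hS : IsCompact ({g : SUGroup n | ch g ≤ ch g₁} ∩ {g : SUGroup n | u (act g (base n)) = M}) :=
    (isCompact_ball (ch g₁)).inter_right hcl
  obtain ⟨g₀, ⟨-, hg₀M⟩, hg₀min⟩ := hS.exists_isMinOn ⟨g₁, le_refl (ch g₁), hg₁⟩
    (continuous_ch.continuousOn)
  have hg₀ : u (act g₀ (base n)) = M := hg₀M
  have hmin : ∀ g : SUGroup n, u (act g (base n)) = M → ch g₀ ≤ ch g := by
    intro g hg
    by_cases h : ch g ≤ ch g₁
    · exact hg₀min ⟨h, hg⟩
    · exact (hg₀min ⟨le_refl (ch g₁), hg₁⟩).trans (not_le.1 h).le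
  have hr₀ : 1 < ch g₀ := by
    refine lt_of_le_of_ne (one_le_ch g₀) fun h => ?_
    obtain ⟨c, hc1, hc2⟩ := (ch_eq_one_iff g₀).1 h.symm
    have hc0 : c ≠ 0 := by
      rintro rfl
      simp at hc1
    rw [hc2, hu c hc0 _ (base_mem n)] at hg₀
    exact hne hg₀
  set r₀ := ch g₀ with hr₀d
  set r₁ := (1 + r₀) / 2 with hr₁d
  have h1r : 1 < r₁ := by rw [hr₁d]; linarith
  have hr10 : r₁ < r₀ := by rw [hr₁d]; linarith
  have hδ : 0 < 1 - (r₁ ^ 2)⁻¹ := by
    have : (r₁ ^ 2)⁻¹ < 1 := inv_lt_one_of_one_lt₀ (by nlinarith)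
    linarith
  obtain ⟨s, hs⟩ := exists_nat_gt ((n : ℝ) / (1 - (r₁ ^ 2)⁻¹))
  rw [div_lt_iff₀ hδ] at hs
  -- the gap
  obtain ⟨g₂, hg₂, hg₂max⟩ := (isCompact_ball (n := n) r₁).exists_isMaxOn
    ⟨1, by show ch 1 ≤ r₁; rw [ch_one]; exact h1r.le⟩ hc.continuousOn
  have hη : u (act g₂ (base n)) < M := by
    refine lt_of_le_of_ne (hM _ (orbit_mem g₂)) fun h => ?_
    have h1 := hmin g₂ h
    have h2 : ch g₂ ≤ r₁ := hg₂
    linarith
  set η := M - u (act g₂ (base n)) with hηd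
  have hη0 : 0 < η := by rw [hηd]; linarith
  set ε := η / 2 with hεd
  have hε : 0 < ε := by rw [hεd]; linarith
  set k : Vec n → ℝ := fun v => ker s v (base n) with hk
  set w : Vec n → ℝ := fun v => u v + ε * k v with hw
  have hk2 : ContDiffOn ℝ 2 k (Cone n) :=
    (contDiffOn_ker s (base_mem n)).of_le (WithTop.coe_le_coe.2 (le_top : (2 : ℕ∞) ≤ ⊤))
  have hkh : Homog k := fun c hc v _ => ker_smul_left s hc v _
  have hwh : Homog w := fun c hc v hv => by
    show u (c • v) + ε * k (c • v) = u v + ε * k v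
    rw [hu c hc v hv, hkh c hc v hv]
  have hk1 : ∀ g : SUGroup n, k (act g (base n)) = (ch g ^ (2 * s))⁻¹ := by
    intro g
    have h := ker_orbit s g 1
    rw [act_one, mul_one, ch_inv] at h
    exact h
  have hkle : ∀ g : SUGroup n, k (act g (base n)) ≤ 1 := fun g =>
    ker_le_one s (orbit_mem g) (base_mem n)
  have hwc : Continuous fun g : SUGroup n => w (act g (base n)) :=
    (hu2.continuousOn.add (continuousOn_const.mul hk2.continuousOn)).comp_continuous
      continuous_orbit orbit_mem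
  obtain ⟨g', hg', hg'max⟩ := (isCompact_ball (n := n) r₀).exists_isMaxOn
    ⟨g₀, show ch g₀ ≤ r₀ from le_refl _⟩ hwc.continuousOn
  have hw₀ : w (act g₀ (base n)) ≤ w (act g' (base n)) := hg'max (show g₀ ∈ _ from le_refl r₀)
  have hw₀' : w (act g₀ (base n)) = M + ε * (r₀ ^ (2 * s))⁻¹ := by
    rw [hw]
    simp only []
    rw [hk1 g₀, hg₀]
  have hr₀pos : 0 < (r₀ ^ (2 * s))⁻¹ := by positivity
  have hin : ∀ g : SUGroup n, ch g ≤ r₁ → w (act g (base n)) < M := by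
    intro g hg
    have h1 : u (act g (base n)) ≤ u (act g₂ (base n)) := hg₂max hg
    have h2 := hkle g
    have h3 : ε * k (act g (base n)) ≤ ε * 1 := mul_le_mul_of_nonneg_left h2 hε.le
    show u (act g (base n)) + ε * k (act g (base n)) < M
    rw [hεd, hηd] at h3 ⊢
    rw [hηd] at hη0
    linarith
  have hout : ∀ g : SUGroup n, r₀ < ch g → w (act g (base n)) ≤ w (act g₀ (base n)) := by
    intro g hg
    rw [hw₀']
    show u (act g (base n)) + ε * k (act g (base n)) ≤ _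
    have h1 := hM _ (orbit_mem g)
    have h2 : k (act g (base n)) ≤ (r₀ ^ (2 * s))⁻¹ := by
      rw [hk1]
      exact inv_anti₀ (by positivity) (pow_le_pow_left₀ (by positivity) hg.le _)
    have h3 := mul_le_mul_of_nonneg_left h2 hε.le
    linarith
  have hg'1 : r₁ < ch g' := by
    by_contra h
    have h1 := hin g' (not_lt.1 h)
    rw [hw₀'] at hw₀
    have := mul_pos hε hr₀pos
    linarith
  have hglob : ∀ v ∈ Cone n, w v ≤ w (act g' (base n)) := by
    intro v hv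
    obtain ⟨g, c, hc0, rfl⟩ := exists_act_eq hv
    rw [hwh c hc0 _ (orbit_mem g)]
    by_cases h : ch g ≤ r₀
    · exact hg'max h
    · exact (hout g (not_le.1 h)).trans hw₀
  have hd1 : ContDiffAt ℝ 2 u (act g' (base n)) :=
    hu2.contDiffAt ((isOpen_cone n).mem_nhds (orbit_mem g'))
  have hd2 : ContDiffAt ℝ 2 k (act g' (base n)) :=
    hk2.contDiffAt ((isOpen_cone n).mem_nhds (orbit_mem g'))
  have hlap := lap_nonpos_of_isLocalMax hwh g' (hd1.add (contDiffAt_const.mul hd2))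
    (Filter.eventually_of_mem ((isOpen_cone n).mem_nhds (orbit_mem g')) hglob)
  rw [hw, lap_add_mul hd1 hd2, hk, lap_ker s (orbit_mem g') (base_mem n)] at hlap
  have h0 := hL _ (orbit_mem g')
  have e1 : ker s (act g' (base n)) (base n) = (ch g' ^ (2 * s))⁻¹ := hk1 g'
  have e2 : ker (s + 1) (act g' (base n)) (base n) = (ch g' ^ (2 * s))⁻¹ * (ch g' ^ 2)⁻¹ := by
    have h := ker_orbit (s + 1) g' 1
    rw [act_one, mul_one, ch_inv] at h
    rw [h, mul_add, pow_add, mul_inv]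
  rw [e1, e2, lam] at hlap
  have hch : 1 < ch g' := h1r.trans hg'1
  have h2 : (ch g' ^ 2)⁻¹ ≤ (r₁ ^ 2)⁻¹ :=
    inv_anti₀ (by positivity) (pow_le_pow_left₀ (by positivity) hg'1.le _)
  have hs0 : 0 < (s : ℝ) := by
    rcases Nat.eq_zero_or_pos s with h | h
    · rw [h] at hs
      simp at hs
      have : (0 : ℝ) ≤ n := Nat.cast_nonneg n
      linarith
    · exact_mod_cast h
  have hK : 0 < (ch g' ^ (2 * s))⁻¹ := by positivity
  have h4 : 0 < (s : ℝ) * (s - n) - (s : ℝ) ^ 2 * (ch g' ^ 2)⁻¹ := by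
    have h5 : (n : ℝ) < s * (1 - (ch g' ^ 2)⁻¹) := by
      refine lt_of_lt_of_le hs ?_
      exact mul_le_mul_of_nonneg_left (by linarith) hs0.le
    have h6 : (s : ℝ) * (s - n) - (s : ℝ) ^ 2 * (ch g' ^ 2)⁻¹ =
        s * (s * (1 - (ch g' ^ 2)⁻¹) - n) := by ring
    rw [h6]
    exact mul_pos hs0 (by linarith)
  have h5 := mul_pos hε (mul_pos h4 hK)
  nlinarith

/-- The strong maximum principle. -/
theorem strong_max {u : Vec n → ℝ} (hu : Homog u) (hu2 : ContDiffOn ℝ 2 u (Cone n))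
    (hL : ∀ v ∈ Cone n, 0 ≤ Lap u v) {v₀ : Vec n} (hv₀ : v₀ ∈ Cone n)
    (hmax : ∀ v ∈ Cone n, u v ≤ u v₀) : ∀ v ∈ Cone n, u v = u v₀ := by
  intro v hv
  obtain ⟨a, c, hc0, rfl⟩ := exists_act_eq hv
  rw [hu c hc0 _ (orbit_mem a)]
  obtain ⟨b, d, hd0, rfl⟩ := exists_act_eq hv₀
  have hud : u (d • act b (base n)) = u (act b (base n)) := hu d hd0 _ (orbit_mem b)
  rw [hud] at hmax ⊢
  have hmaps : Set.MapsTo (fun v : Vec n => act a v) (Cone n) (Cone n) := fun v hv => act_mem a hv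
  have h1 := strong_max_base (u := fun v => u (act a v)) (M := u (act b (base n)))
    (g₁ := a⁻¹ * b) ?_ ?_ ?_ ?_ ?_
  · exact h1
  · intro e he v hv
    show u (act a (e • v)) = u (act a v)
    rw [act_smul, hu e he _ (act_mem a hv)]
  · exact hu2.comp (actL a).contDiff.contDiffOn hmaps
  · intro v hv
    rw [lap_act u a hv (hu2.contDiffAt ((isOpen_cone n).mem_nhds (act_mem a hv)))]
    exact hL _ (act_mem a hv)
  · intro v hv
    exact hmax _ (act_mem a hv)
  · show u (act a (act (a⁻¹ * b) (base n))) = _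
    rw [← act_mul, mul_inv_cancel_left]

end Pool.Agent.Lib.MP_5d4057_al.RC
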