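import Pool.Agent.Lib.MP_5d4057_al.RC.Defs
import Pool.Agent.Lib.MP_5d4057_al.RC.Max
import Pool.Agent.Lib.MP_5d4057_al.NU.CuspB

/-! The Liouville property for groups with a height function, and for cocompact groups. -/

namespace Pool.Agent.Lib.MP_5d4057_al.RC

open Matrix MeasureTheory Filter Topology Pool.Agent.Lib.MP_5d4057_al
  Pool.Agent.Lib.MP_5d4057_al.Hyb Pool.Agent.Lib.MP_5d4057_al.HM
  Pool.Agent.Lib.MP_5d4057_al.NU

open scoped ComplexOrder MatrixOrder Matrix.Norms.L2Operator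

variable {n m : ℕ} {Γ : Subgroup (SUGroup n)}

/-- Continuity from the Harnack inequality. -/
theorem ht_cont {T : ℝ} {y : Vec n → ℝ} (h : Ht Γ T y) :
    Continuous fun g : SUGroup n => y (act g (base n)) := by
  rw [continuous_iff_continuousAt]
  intro g
  have h1 : ∀ a : SUGroup n, y (act a (base n)) ≤ wt (g⁻¹ * a) ^ 2 * y (act g (base n)) := by
    intro a
    have := h.harn g (g⁻¹ * a)
    rwa [mul_inv_cancel_left] at this
  have h2 : ∀ a : SUGroup n, (wt (g⁻¹ * a) ^ 2)⁻¹ * y (act g (base n)) ≤ y (act a (base n)) := by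
    intro a
    have h3 := h.harn a (a⁻¹ * g)
    rw [mul_inv_cancel_left] at h3
    have h4 : wt (a⁻¹ * g) = wt (g⁻¹ * a) := by
      rw [← wt_inv (g⁻¹ * a), _root_.mul_inv_rev, inv_inv]
    rw [h4] at h3
    have h5 : 0 < wt (g⁻¹ * a) ^ 2 := by
      have := one_le_wt (g⁻¹ * a)
      positivity
    rw [inv_mul_le_iff₀ h5]
    exact h3
  have h3 : Tendsto (fun a : SUGroup n => wt (g⁻¹ * a)) (𝓝 g) (𝓝 1) := by
    have h4 : Continuous fun a : SUGroup n => wt (g⁻¹ * a) :=
      continuous_wt.comp (continuous_const.mul continuous_id)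
    have h5 := h4.tendsto g
    rwa [inv_mul_cancel, wt_one] at h5
  refine tendsto_of_tendsto_of_tendsto_of_le_of_le ?_ ?_ h2 h1
  · have h6 := ((h3.pow 2).inv₀ (by norm_num)).mul_const (y (act g (base n)))
    simpa using h6
  · have h6 := (h3.pow 2).mul_const (y (act g (base n)))
    simpa using h6

/-- The depth bound. -/
theorem ht_depth {T : ℝ} {y : Vec n → ℝ} (h : Ht Γ T y) : ∃ C : ℝ, 0 < C ∧
    ∀ g : SUGroup n, ∃ γ ∈ Γ, ch (γ * g) ^ 2 ≤ C * y (act g (base n)) := by
  set T₁ := max T 1 with hT₁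
  have hT1 : 1 ≤ T₁ := le_max_right _ _
  obtain ⟨F, hF, hcov⟩ := h.cpt T₁
  obtain ⟨R, hR⟩ : ∃ R : ℝ, ∀ g ∈ F, ch g ≤ R := by
    obtain ⟨R, hR⟩ := hF.bddAbove_image (f := ch) continuous_ch.continuousOn
    exact ⟨R, fun g hg => hR ⟨g, hg, rfl⟩⟩
  have hR1 : ∀ g ∈ F, ch g ≤ max R 1 := fun g hg => (hR g hg).trans (le_max_left _ _)
  set R' := max R 1 with hR'
  have hR'1 : 1 ≤ R' := le_max_right _ _
  refine ⟨4 * R' ^ 2, by positivity, fun g => ?_⟩
  have hy1 := h.one_le _ (orbit_mem g)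
  by_cases hyT : y (act g (base n)) ≤ T₁
  · obtain ⟨γ, hγ, hγF⟩ := hcov g hyT
    refine ⟨γ, hγ, ?_⟩
    have h1 := hR1 _ hγF
    have h0 := one_le_ch (γ * g)
    have h2 : ch (γ * g) ^ 2 ≤ R' ^ 2 := pow_le_pow_left₀ (by linarith) h1 2
    nlinarith [sq_nonneg R']
  · rw [not_le] at hyT
    have hTy : T ≤ y (act g (base n)) := (le_max_left T 1).trans hyT.le
    obtain ⟨p, hp, hq, hyp, -, hloc⟩ := h.nul g hTy
    obtain ⟨h0, ξ, hξ, hpξ⟩ := exists_pe hp hq
    have hc : 0 < ‖p (Fin.last n)‖ := norm_pos_iff.2 h0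
    have hy0 : 0 < y (act g (base n)) := by linarith
    set t := - (Real.log (y (act g (base n)) / T₁) / 2) with ht
    set x := fl (mv g⁻¹ ξ) t with hx
    have hlog : 0 ≤ Real.log (y (act g (base n)) / T₁) :=
      Real.log_nonneg (by rw [le_div_iff₀ (by linarith)]; linarith)
    have h1 : yp p (act (g * x) (base n)) = T₁ := by
      rw [hpξ, yp_smul, yp_ray hξ]
      have h2 : yp (pe ξ) (act g (base n)) = ‖p (Fin.last n)‖ ^ 2 * y (act g (base n)) := by
        rw [hyp]
        conv_rhs => rw [hpξ, yp_smul]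
        have h5 : (p (Fin.last n) • pe ξ) (Fin.last n) = p (Fin.last n) := by
          rw [← hpξ]
        rw [h5]
        field_simp
      have h3 : Real.exp (2 * t) = T₁ / y (act g (base n)) := by
        rw [ht, show 2 * -(Real.log (y (act g (base n)) / T₁) / 2) =
          -Real.log (y (act g (base n)) / T₁) by ring, Real.exp_neg,
          Real.exp_log (by positivity), inv_div]
      rw [h2, h3]
      field_simp
    have h2 : y (act (g * x) (base n)) = T₁ := by
      rw [hloc (g * x) (by rw [h1]; linarith [le_max_left T 1]), h1]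
    obtain ⟨γ, hγ, hγF⟩ := hcov (g * x) h2.le
    refine ⟨γ, hγ, ?_⟩
    have h3 := hR1 _ hγF
    have h4 : ch (γ * g) ≤ 2 * R' * ch x := by
      have h5 := ch_mul_le' (γ * (g * x)) x⁻¹
      rw [ch_inv, mul_assoc, mul_assoc, mul_inv_cancel, mul_one] at h5
      have h6 := one_le_ch x
      calc ch (γ * g) ≤ 2 * ch (γ * (g * x)) * ch x := h5
        _ ≤ 2 * R' * ch x := by gcongr
    have h5 : ch x ^ 2 ≤ y (act g (base n)) / T₁ := by
      have h6 : ch x = Real.cosh t := ch_fl (nq_mv hξ g⁻¹) t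
      have h7 : Real.cosh t ≤ Real.exp |t| := by
        rw [← Real.cosh_abs, Real.cosh_eq]
        have := Real.exp_le_exp.2 (show -|t| ≤ |t| by linarith [abs_nonneg t])
        linarith
      have h8 : |t| = Real.log (y (act g (base n)) / T₁) / 2 := by
        rw [ht, abs_neg, abs_of_nonneg (by linarith)]
      rw [h6]
      calc Real.cosh t ^ 2 ≤ Real.exp |t| ^ 2 :=
            pow_le_pow_left₀ (Real.cosh_pos t).le h7 2
        _ = Real.exp (Real.log (y (act g (base n)) / T₁)) := by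
            rw [← Real.exp_nat_mul, h8]
            congr 1
            push_cast
            ring
        _ = y (act g (base n)) / T₁ := Real.exp_log (by positivity)
    have h6 : y (act g (base n)) / T₁ ≤ y (act g (base n)) := div_le_self hy0.le hT1
    have h7 := one_le_ch (γ * g)
    calc ch (γ * g) ^ 2 ≤ (2 * R' * ch x) ^ 2 := pow_le_pow_left₀ (by linarith) h4 2
      _ = 4 * R' ^ 2 * ch x ^ 2 := by ring
      _ ≤ 4 * R' ^ 2 * y (act g (base n)) := by
          exact mul_le_mul_of_nonneg_left (h5.trans h6) (by positivity)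

/-- The maximum is attained in the presence of a height function. -/
theorem max_of_ht {T : ℝ} {y : Vec n → ℝ} (h : Ht Γ T y) {u : Vec n → ℝ}
    (hu : Homog u) (hu2 : ContinuousOn u (Cone n)) (hi : Inv Γ u) (hg : LogGr u)
    (hL : ∀ (p : Vec n) (a : SUGroup n) (ε : ℝ), p ≠ 0 → q p = 0 → 0 < ε →
      ¬ IsLocalMax (fun v => u v + (-ε) * yp p v) (act a (base n))) :
    ∃ v₀ ∈ Cone n, ∀ v ∈ Cone n, u v ≤ u v₀ := by
  have hyc := ht_cont h
  have huc : Continuous fun g : SUGroup n => u (act g (base n)) :=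
    hu2.comp_continuous continuous_orbit orbit_mem
  have hyi : ∀ γ ∈ Γ, ∀ g : SUGroup n, y (act (γ * g) (base n)) = y (act g (base n)) :=
    fun γ hγ g => by rw [act_mul, h.inv γ hγ _ (orbit_mem g)]
  have hui : ∀ γ ∈ Γ, ∀ g : SUGroup n, u (act (γ * g) (base n)) = u (act g (base n)) :=
    fun γ hγ g => by rw [act_mul, hi γ hγ _ (orbit_mem g)]
  obtain ⟨C₁, hC₁, hdep⟩ := ht_depth h
  obtain ⟨N, C, hN, hgr⟩ := hg
  -- the growth in terms of `y`
  have hgr' : ∀ g : SUGroup n, u (act g (base n)) ≤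
      C + N / 2 * (Real.log C₁ + Real.log (y (act g (base n)))) := by
    intro g
    obtain ⟨γ, hγ, hle⟩ := hdep g
    have h1 := hgr (γ * g)
    rw [hui γ hγ g] at h1
    have h0 := one_le_ch (γ * g)
    have hy1 := h.one_le _ (orbit_mem g)
    have h2 : 2 * Real.log (ch (γ * g)) ≤ Real.log C₁ + Real.log (y (act g (base n))) := by
      rw [← Real.log_mul hC₁.ne' (by positivity)]
      have h3 := Real.log_le_log (by positivity) hle
      rwa [Real.log_pow, Nat.cast_ofNat] at h3
    nlinarith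
  -- the maximum over the compact part
  set R₀ := max T (max 1 (y (base n))) with hR₀
  obtain ⟨F, hF, hcov⟩ := h.cpt R₀
  have hF₀ : IsCompact (F ∩ {g : SUGroup n | y (act g (base n)) ≤ R₀}) :=
    hF.inter_right (isClosed_le hyc continuous_const)
  have hne : (F ∩ {g : SUGroup n | y (act g (base n)) ≤ R₀}).Nonempty := by
    have h1 : y (act (1 : SUGroup n) (base n)) ≤ R₀ := by
      rw [act_one]
      exact (le_max_right _ _).trans (le_max_right _ _)
    obtain ⟨γ, hγ, hγF⟩ := hcov 1 h1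
    exact ⟨γ * 1, hγF, by show y (act (γ * 1) (base n)) ≤ R₀; rw [hyi γ hγ]; exact h1⟩
  obtain ⟨g₀, -, hg₀⟩ := hF₀.exists_isMaxOn hne huc.continuousOn
  set M := u (act g₀ (base n)) with hM
  have hle : ∀ g : SUGroup n, y (act g (base n)) ≤ R₀ → u (act g (base n)) ≤ M := by
    intro g hg
    obtain ⟨γ, hγ, hγF⟩ := hcov g hg
    have h1 : γ * g ∈ F ∩ {g : SUGroup n | y (act g (base n)) ≤ R₀} :=
      ⟨hγF, by show y (act (γ * g) (base n)) ≤ R₀; rw [hyi γ hγ]; exact hg⟩
    have h2 := hg₀ h1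
    rw [← hui γ hγ g]
    exact h2
  have hall : ∀ g : SUGroup n, u (act g (base n)) ≤ M := by
    by_contra hcon
    push Not at hcon
    obtain ⟨g₁, hg₁⟩ := hcon
    have hy₁ : R₀ < y (act g₁ (base n)) := by
      by_contra h1
      exact absurd (hle g₁ (not_lt.1 h1)) (not_le.2 hg₁)
    have hypos : ∀ g : SUGroup n, 0 < y (act g (base n)) := fun g =>
      lt_of_lt_of_le one_pos (h.one_le _ (orbit_mem g))
    set ε := (u (act g₁ (base n)) - M) / (2 * y (act g₁ (base n))) with hε
    have hε0 : 0 < ε := div_pos (by linarith) (by have := hypos g₁; positivity)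
    set w : SUGroup n → ℝ := fun g => u (act g (base n)) - ε * y (act g (base n)) with hw
    have hwc : Continuous w := huc.sub (continuous_const.mul hyc)
    have hw₁ : M < w g₁ := by
      show M < u (act g₁ (base n)) - ε * y (act g₁ (base n))
      have h1 : ε * y (act g₁ (base n)) = (u (act g₁ (base n)) - M) / 2 := by
        rw [hε]
        have := (hypos g₁).ne'
        field_simp
      rw [h1]
      linarith
    -- large heights
    obtain ⟨R₁, hR₁⟩ : ∃ R₁ : ℝ, ∀ g : SUGroup n, R₁ < y (act g (base n)) → w g ≤ M := by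
      set δ := ε / (N + 1) with hδ
      have hδ0 : 0 < δ := div_pos hε0 (by linarith)
      set C' := C + N / 2 * (Real.log C₁ - 1 - Real.log δ) with hC'
      refine ⟨2 * (C' - M) / ε, fun g hg => ?_⟩
      have h1 := hgr' g
      have hy := hypos g
      have h2 : Real.log (y (act g (base n))) ≤ δ * y (act g (base n)) - 1 - Real.log δ := by
        have h3 := Real.log_le_sub_one_of_pos (mul_pos hδ0 hy)
        rw [Real.log_mul hδ0.ne' hy.ne'] at h3
        linarith
      have h3 : N / 2 * (δ * y (act g (base n))) ≤ ε / 2 * y (act g (base n)) := by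
        have h4 : N * δ ≤ ε := by
          rw [hδ, ← mul_div_assoc, div_le_iff₀ (by linarith)]
          nlinarith
        have h5 : N / 2 * (δ * y (act g (base n))) = (N * δ) / 2 * y (act g (base n)) := by ring
        rw [h5]
        exact mul_le_mul_of_nonneg_right (by linarith) hy.le
      have h4 : N / 2 * Real.log (y (act g (base n))) ≤
          N / 2 * (δ * y (act g (base n)) - 1 - Real.log δ) :=
        mul_le_mul_of_nonneg_left h2 (by linarith)
      rw [div_lt_iff₀ hε0] at hg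
      show u (act g (base n)) - ε * y (act g (base n)) ≤ M
      have h5 : u (act g (base n)) ≤ C' + ε / 2 * y (act g (base n)) := by
        calc u (act g (base n)) ≤ C + N / 2 * (Real.log C₁ + Real.log (y (act g (base n)))) := h1
          _ = C + N / 2 * Real.log C₁ + N / 2 * Real.log (y (act g (base n))) := by ring
          _ ≤ C + N / 2 * Real.log C₁ + N / 2 * (δ * y (act g (base n)) - 1 - Real.log δ) := by
              linarith
          _ = C' + N / 2 * (δ * y (act g (base n))) := by rw [hC']; ring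
          _ ≤ _ := by linarith
      linarith
    obtain ⟨F₁, hF₁, hcov₁⟩ := h.cpt R₁
    have hF₁' : IsCompact (F₁ ∩ {g : SUGroup n | y (act g (base n)) ≤ R₁}) :=
      hF₁.inter_right (isClosed_le hyc continuous_const)
    have hwi : ∀ γ ∈ Γ, ∀ g : SUGroup n, w (γ * g) = w g := fun γ hγ g => by
      show u (act (γ * g) (base n)) - ε * y (act (γ * g) (base n)) = _
      rw [hui γ hγ, hyi γ hγ]
    have hy₁' : y (act g₁ (base n)) ≤ R₁ := by
      by_contra h1
      exact absurd (hR₁ g₁ (not_le.1 h1)) (not_le.2 hw₁)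
    have hmem : ∀ g : SUGroup n, y (act g (base n)) ≤ R₁ →
        ∃ γ ∈ Γ, γ * g ∈ F₁ ∩ {g : SUGroup n | y (act g (base n)) ≤ R₁} := by
      intro g hg
      obtain ⟨γ, hγ, hγF⟩ := hcov₁ g hg
      exact ⟨γ, hγ, hγF, by show y (act (γ * g) (base n)) ≤ R₁; rw [hyi γ hγ]; exact hg⟩
    obtain ⟨γ₁, hγ₁, hm₁⟩ := hmem g₁ hy₁'
    obtain ⟨a, -, ha⟩ := hF₁'.exists_isMaxOn ⟨_, hm₁⟩ hwc.continuousOn
    have hwa : M < w a := by
      have h1 := ha hm₁
      have h2 : w (γ₁ * g₁) ≤ w a := h1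
      rw [hwi γ₁ hγ₁] at h2
      linarith
    have hglob : ∀ g, w g ≤ w a := by
      intro g
      by_cases h1 : y (act g (base n)) ≤ R₁
      · obtain ⟨γ, hγ, hm⟩ := hmem g h1
        have h2 : w (γ * g) ≤ w a := ha hm
        rwa [hwi γ hγ] at h2
      · exact (hR₁ g (not_le.1 h1)).trans hwa.le
    have hya : R₀ < y (act a (base n)) := by
      by_contra h1
      have h2 := hle a (not_lt.1 h1)
      have h3 := mul_pos hε0 (hypos a)
      have h4 : w a = u (act a (base n)) - ε * y (act a (base n)) := rfl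
      linarith
    have hTa : T ≤ y (act a (base n)) := (le_max_left _ _).trans hya.le
    obtain ⟨p, hp, hq, hyp, -, hloc⟩ := h.nul a hTa
    -- the local comparison function
    have hopen : ∀ᶠ v in 𝓝 (act a (base n)), T < 4 * yp p v := by
      have h1 : ContinuousAt (fun v => 4 * yp p v) (act a (base n)) :=
        continuousAt_const.mul ((continuousOn_yp hp hq).continuousAt
          ((isOpen_cone n).mem_nhds (orbit_mem a)))
      refine h1.eventually (lt_mem_nhds ?_)
      show T < 4 * yp p (act a (base n))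
      rw [← hyp]
      have := hypos a
      linarith
    have hev : ∀ᶠ v in 𝓝 (act a (base n)), u v + (-ε) * yp p v ≤
        u (act a (base n)) + (-ε) * yp p (act a (base n)) := by
      filter_upwards [hopen, (isOpen_cone n).mem_nhds (orbit_mem a)] with v hv hvc
      obtain ⟨b, c, hc0, rfl⟩ := exists_act_eq hvc
      rw [yp_homog p c hc0 _ (orbit_mem b)] at hv ⊢
      rw [hu c hc0 _ (orbit_mem b), ← hyp, ← hloc b hv.le]
      have h1 : u (act b (base n)) - ε * y (act b (base n)) ≤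
        u (act a (base n)) - ε * y (act a (base n)) := hglob b
      linarith
    exact hL p a ε hp hq hε0 hev
  refine ⟨act g₀ (base n), orbit_mem g₀, fun v hv => ?_⟩
  obtain ⟨b, c, hc0, rfl⟩ := exists_act_eq hv
  rw [hu c hc0 _ (orbit_mem b)]
  exact hall b

/-- The Liouville property in the presence of a height function. -/
theorem liou_of_ht (hn : 2 ≤ n) {T : ℝ} {y : Vec n → ℝ} (h : Ht Γ T y) {u : Vec n → ℝ}
    (hu : Homog u) (hu2 : ContDiffOn ℝ 2 u (Cone n)) (hi : Inv Γ u) (hg : LogGr u)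
    (hL : ∀ v ∈ Cone n, 0 ≤ Lap u v) : ∀ v ∈ Cone n, u v = u (base n) := by
  obtain ⟨v₀, hv₀, hmax⟩ := max_of_ht h hu hu2.continuousOn hi hg (by
    intro p a ε hp hq hε0 hev
    have hd1 : ContDiffAt ℝ 2 u (act a (base n)) :=
      hu2.contDiffAt ((isOpen_cone n).mem_nhds (orbit_mem a))
    have hd2 : ContDiffAt ℝ 2 (yp p) (act a (base n)) :=
      (contDiffOn_yp_two hp hq).contDiffAt ((isOpen_cone n).mem_nhds (orbit_mem a))
    have hhom : Homog fun v => u v + (-ε) * yp p v := fun c hc v hv => by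
      show u (c • v) + (-ε) * yp p (c • v) = u v + (-ε) * yp p v
      rw [hu c hc v hv, yp_homog p c hc v hv]
    have h1 := lap_nonpos_of_isLocalMax hhom a (hd1.add (contDiffAt_const.mul hd2)) hev
    rw [lap_add_mul hd1 hd2, lap_yp (orbit_mem a) hp hq] at h1
    have h2 := hL _ (orbit_mem a)
    have h3 : (2 : ℝ) ≤ n := by exact_mod_cast hn
    have h4 := mul_pos hε0 (yp_pos hp hq (orbit_mem a))
    nlinarith)
  have h1 := strong_max hu hu2 hL hv₀ hmax
  intro v hv
  rw [h1 v hv, h1 _ (base_mem n)]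

/-- A vector orthogonal to an isotropic one, of positive norm. -/
theorem exists_orth_pos (hn : 2 ≤ n) (p : Vec n) : ∃ ξ : Vec n, herm ξ p = 0 ∧ 0 < q ξ := by
  let f : Vec n →ₗ[ℂ] (ℂ × ℂ) :=
    { toFun := fun ξ => (herm p ξ, herm (base n) ξ)
      map_add' := fun a b => by simp [herm_add_right]
      map_smul' := fun c a => by simp [herm_smul_right] }
  have h1 : LinearMap.ker f ≠ ⊥ := LinearMap.ker_ne_bot_of_finrank_lt (by simp; omega)
  obtain ⟨ξ, hξ, hξ0⟩ := Submodule.exists_mem_ne_zero_of_ne_bot h1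
  have h2 : (herm p ξ, herm (base n) ξ) = 0 := hξ
  obtain ⟨h3, h4⟩ := Prod.mk_eq_zero.1 h2
  exact ⟨ξ, by rw [herm_comm, h3, star_zero], q_pos_of_orth (base_mem n) h4 hξ0⟩

theorem q_add_smul (v ξ : Vec n) (z : ℂ) :
    q (v + z • ξ) = q v + 2 * (z * herm v ξ).re + ‖z‖ ^ 2 * q ξ := by
  have h1 : (q (v + z • ξ) : ℂ) = ((q v + 2 * (z * herm v ξ).re + ‖z‖ ^ 2 * q ξ : ℝ) : ℂ) := by
    rw [← herm_self, herm_add_right, herm_add_left, herm_add_left, herm_smul_right,
      herm_smul_right, herm_smul_left, herm_smul_left, herm_self, herm_self]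
    have e1 : herm ξ v = star (herm v ξ) := herm_comm v ξ
    have e2 : z * star z = ((‖z‖ ^ 2 : ℝ) : ℂ) := by
      rw [RCLike.star_def, Complex.mul_conj, Complex.normSq_eq_norm_sq]
    have e3 : z * herm v ξ + star (z * herm v ξ) = ((2 * (z * herm v ξ).re : ℝ) : ℂ) := by
      rw [RCLike.star_def, Complex.add_conj]
    rw [e1]
    rw [star_mul'] at e3
    push_cast at e2 e3 ⊢
    linear_combination (q ξ : ℂ) * e2 + e3
  exact_mod_cast h1

/-- The height on a complex line orthogonal to `p`. -/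
theorem yp_cline {v p ξ : Vec n} (hξ : herm ξ p = 0) (z : ℂ) :
    yp p (v + z • ξ) = yp p v - (2 * herm v ξ / ‖herm v p‖ ^ 2 * z).re -
      q ξ / ‖herm v p‖ ^ 2 * ‖z‖ ^ 2 := by
  have h1 : herm (v + z • ξ) p = herm v p := by
    rw [herm_add_left, herm_smul_left, hξ, mul_zero, add_zero]
  have h2 : (2 * herm v ξ / ‖herm v p‖ ^ 2 * z).re = 2 * (z * herm v ξ).re / ‖herm v p‖ ^ 2 := by
    have h3 : 2 * herm v ξ / (‖herm v p‖ : ℂ) ^ 2 * z =
        ((2 / ‖herm v p‖ ^ 2 : ℝ) : ℂ) * (z * herm v ξ) := by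
      push_cast
      ring
    rw [h3, Complex.re_ofReal_mul]
    ring
  rw [yp, yp, h1, q_add_smul, h2]
  ring

theorem mx_of_ht (hn : 2 ≤ n) {T : ℝ} {y : Vec n → ℝ} (h : Ht Γ T y) {u : Vec n → ℝ}
    (hu : Homog u) (hu2 : ContinuousOn u (Cone n)) (hi : Inv Γ u) (hg : LogGr u)
    (hL : LSub u) : ∃ v₀ ∈ Cone n, ∀ v ∈ Cone n, u v ≤ u v₀ := by
  refine max_of_ht h hu hu2 hi hg ?_
  intro p a ε hp hq hε0 hev
  obtain ⟨ξ, hξ, hξq⟩ := exists_orth_pos hn p
  have hN : 0 < ‖herm (act a (base n)) p‖ ^ 2 := by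
    have := herm_isot_ne (orbit_mem a) hp hq
    positivity
  refine hL _ (orbit_mem a) ξ (ε * (2 * herm (act a (base n)) ξ / ‖herm (act a (base n)) p‖ ^ 2))
    (ε * (q ξ / ‖herm (act a (base n)) p‖ ^ 2)) (by positivity) ?_
  have hc : Continuous fun z : ℂ => act a (base n) + z • ξ := by fun_prop
  have h0 : Tendsto (fun z : ℂ => act a (base n) + z • ξ) (𝓝 0) (𝓝 (act a (base n))) := by
    have := hc.tendsto 0
    simpa using this
  filter_upwards [h0.eventually hev] with z hz
  rw [yp_cline hξ] at hz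
  have e1 : (ε * (2 * herm (act a (base n)) ξ / ‖herm (act a (base n)) p‖ ^ 2) * z).re =
      ε * (2 * herm (act a (base n)) ξ / ‖herm (act a (base n)) p‖ ^ 2 * z).re := by
    rw [mul_assoc, Complex.re_ofReal_mul]
  rw [e1]
  simp only [zero_smul, add_zero, mul_zero, Complex.zero_re, norm_zero, ne_eq, OfNat.ofNat_ne_zero,
    not_false_eq_true, zero_pow]
  linarith

theorem rec_of_ht (hn : 2 ≤ n) (hd : DiscreteTopology Γ) {T : ℝ} {y : Vec n → ℝ}
    (h : Ht Γ T y) : Rec Γ where
  disc := hd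
  liou _ hu hu2 hi hg hL := liou_of_ht hn h hu hu2 hi hg hL
  mx _ hu hu2 hi hg hL := mx_of_ht hn h hu hu2 hi hg hL

theorem rec_of_coc (h : Coc Γ) : Rec Γ where
  disc := h.disc
  liou u hu hu2 hi _ hL := by
    obtain ⟨v₀, hv₀, hmax⟩ := exists_max h hu2.continuousOn hu hi
    have h1 := strong_max hu hu2 hL hv₀ hmax
    intro v hv
    rw [h1 v hv, h1 _ (base_mem n)]
  mx u hu hu2 hi _ _ := exists_max h hu2 hu hi

/-- The Liouville property passes to larger discrete groups. -/
theorem Rec.mono {Γ' : Subgroup (SUGroup n)} (h : Rec Γ') (hle : Γ' ≤ Γ)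
    (hd : DiscreteTopology Γ) : Rec Γ where
  disc := hd
  liou u hu hu2 hi hg hL := h.liou u hu hu2 (fun γ hγ => hi γ (hle hγ)) hg hL
  mx u hu hu2 hi hg hL := h.mx u hu hu2 (fun γ hγ => hi γ (hle hγ)) hg hL

end Pool.Agent.Lib.MP_5d4057_al.RC
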