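import Pool.Agent.Lib.MP_5d4057_al.RC.WideC
import Pool.Agent.Lib.MP_5d4057_al.NU.LatB
import Pool.Agent.Lib.MP_5d4057_al.NU.LatC
import Pool.Agent.Lib.MP_5d4057_al.HM.WideD
import Pool.Agent.Lib.MP_5d4057_al.Hyb.ArithG

/-! Pieces of a hybrid lattice commensurable with `SU(H, O_K)`, over the same field `K`. -/

set_option autoImplicit false

namespace Pool.Agent.Lib.MP_5d4057_al.RC

open Matrix Pool.Agent.Lib.MP_5d4057_al Pool.Agent.Lib.MP_5d4057_al.Hyb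
  Pool.Agent.Lib.MP_5d4057_al.HM Pool.Agent.Lib.MP_5d4057_al.NU

variable {m k : ℕ}

/-- A subgroup of finite index of a lattice is a lattice. -/
theorem isLattice_of_relIndex {Γ Γ' : Subgroup (SUGroup m)} (h : IsLattice Γ) (hle : Γ' ≤ Γ)
    (hfi : Γ'.relIndex Γ ≠ 0) : IsLattice Γ' := by
  obtain ⟨χ, hχ⟩ := exists_lat h
  obtain ⟨χ', hχ'⟩ := hχ.finite_index hle hfi
  exact hχ'.isLattice

/-- The elements of `Γ` are rational up to a scalar. -/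
theorem exists_rat_scalar_lat (hm : 1 ≤ m) {Γ : Subgroup (SUGroup m)} (hΓ : IsLattice Γ)
    {K : Subfield ℂ}
    {H : Matrix (Fin (m + 1)) (Fin (m + 1)) K} {B : Matrix (Fin (m + 1)) (Fin (m + 1)) ℂ}
    (hf : IsForm m K H B) (hc : Subgroup.Commensurable Γ (integralPoints m K B))
    {γ : SUGroup m} (hγ : γ ∈ Γ) :
    ∃ l : ℂ, l ≠ 0 ∧ l ^ (m + 1) ∈ K ∧ EntriesIn K B (l⁻¹ • γ.toMatrix) := by
  obtain ⟨Γ', hΓ'⟩ : ∃ Γ', Γ' = ratPart Γ K B := ⟨_, rfl⟩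
  have hfin : Γ'.relIndex Γ ≠ 0 := by rw [hΓ']; exact ratPart_relIndex hc
  obtain ⟨φ, hφ⟩ : ∃ φ : SUGroup m →* SUGroup m, φ = (MulAut.conj γ).toMonoidHom := ⟨_, rfl⟩
  have hφi : Function.Injective φ := by rw [hφ]; exact (MulAut.conj γ).injective
  have hmap : Γ.map φ = Γ := by
    ext x
    rw [Subgroup.mem_map]
    constructor
    · rintro ⟨y, hy, rfl⟩
      rw [hφ]
      exact Γ.mul_mem (Γ.mul_mem hγ hy) (Γ.inv_mem hγ)
    · intro hx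
      refine ⟨γ⁻¹ * x * γ, Γ.mul_mem (Γ.mul_mem (Γ.inv_mem hγ) hx) hγ, ?_⟩
      rw [hφ]
      show γ * (γ⁻¹ * x * γ) * γ⁻¹ = x
      group
  have hfin2 : (Γ'.map φ).relIndex Γ ≠ 0 := by
    have h1 := Subgroup.relIndex_map_map_of_injective Γ' Γ hφi
    rw [hmap] at h1
    rw [h1]
    exact hfin
  obtain ⟨Δ, hΔ⟩ : ∃ Δ, Δ = Γ' ⊓ Γ'.map φ := ⟨_, rfl⟩
  have hΔfin : Δ.relIndex Γ ≠ 0 := by rw [hΔ]; exact Subgroup.relIndex_inf_ne_zero hfin hfin2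
  have hspan := span_top_fin hm Γ Δ hΓ hΔfin
  have hgd : (γ.toMatrix * B).det ≠ 0 := by
    rw [det_mul, det_toMatrix, one_mul]
    exact hf.det
  obtain ⟨ν, Y, hν, hY, hYB⟩ := exists_similar (K := K)
    (SUGroup.toMatrix '' (Δ : Set (SUGroup m))) hspan B (γ.toMatrix * B) hf.det hgd
    (by
      rintro _ ⟨x, hx, rfl⟩
      rw [SetLike.mem_coe, hΔ, hΓ'] at hx
      exact hx.1.2.1)
    (by
      rintro _ ⟨x, hx, rfl⟩
      rw [SetLike.mem_coe, hΔ, hΓ'] at hx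
      obtain ⟨y, hy, hyx⟩ := hx.2
      have h1 : x.toMatrix = γ.toMatrix * y.toMatrix * (γ⁻¹).toMatrix := by
        rw [← hyx, hφ]
        rfl
      rw [h1]
      exact (entriesIn_conj γ B y.toMatrix).2 hy.2.1)
  have hBu := isUnit_iff_ne_zero.2 hf.det
  have hYm : (Y.map (fun x : K => (x : ℂ))).det ≠ 0 := by
    have h1 : (Y.map (fun x : K => (x : ℂ))).det = ((Y.det : K) : ℂ) :=
      (RingHom.map_det K.subtype Y).symm
    rw [h1]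
    exact fun h => hY (Subtype.ext h)
  have hYu := isUnit_iff_ne_zero.2 hYm
  have hYinv : (Y.map (fun x : K => (x : ℂ)))⁻¹ = (Y⁻¹).map (fun x : K => (x : ℂ)) := by
    apply inv_eq_right_inv
    have h1 : (Y * Y⁻¹).map (fun x : K => (x : ℂ)) =
        Y.map (fun x : K => (x : ℂ)) * (Y⁻¹).map (fun x : K => (x : ℂ)) :=
      Matrix.map_mul (f := K.subtype)
    rw [← h1, Matrix.mul_nonsing_inv _ (isUnit_iff_ne_zero.2 hY)]
    exact Matrix.map_one _ rfl rfl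
  -- `B⁻¹ γ B = ν Y⁻¹`
  have h1 : B⁻¹ * γ.toMatrix * B = ν • (Y⁻¹).map (fun x : K => (x : ℂ)) := by
    rw [← hYinv]
    calc B⁻¹ * γ.toMatrix * B = B⁻¹ * (γ.toMatrix * B * Y.map (fun x : K => (x : ℂ))) *
          (Y.map (fun x : K => (x : ℂ)))⁻¹ := by
          simp only [Matrix.mul_assoc]
          rw [Matrix.mul_nonsing_inv _ hYu, Matrix.mul_one]
      _ = _ := by
          rw [hYB, Matrix.mul_smul, Matrix.nonsing_inv_mul _ hBu, Matrix.smul_mul, Matrix.one_mul]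
  have h2 : B⁻¹ * (ν⁻¹ • γ.toMatrix) * B = (Y⁻¹).map (fun x : K => (x : ℂ)) := by
    rw [Matrix.mul_smul, Matrix.smul_mul, h1, smul_smul, inv_mul_cancel₀ hν, one_smul]
  refine ⟨ν, hν, ?_, fun i j => ?_⟩
  · have h3 := congrArg det h2
    rw [det_mul, det_mul, det_smul, det_toMatrix, Fintype.card_fin, det_nonsing_inv,
      Ring.inverse_eq_inv', mul_one] at h3
    have h4 : ((Y⁻¹).map (fun x : K => (x : ℂ))).det = ((Y⁻¹.det : K) : ℂ) :=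
      (RingHom.map_det K.subtype Y⁻¹).symm
    rw [h4] at h3
    have h5 : B.det⁻¹ * ν⁻¹ ^ (m + 1) * B.det = (ν ^ (m + 1))⁻¹ := by
      have := hf.det
      rw [inv_pow]
      field_simp
    rw [h5] at h3
    have h6 : ν ^ (m + 1) = (((Y⁻¹.det : K) : ℂ))⁻¹ := by rw [← h3, inv_inv]
    rw [h6]
    exact K.inv_mem (Y⁻¹.det).2
  · rw [h2]
    exact (Y⁻¹ i j).2

/-- The pieces of a hybrid lattice which are commensurable with `SU(H b, O_K)`, are contained in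
`SU(H b, K)` (the case of one field `K`). -/
theorem wide_narrow_rec (hk : 1 ≤ k) (Γ₃ : Subgroup (SUGroup k))
    (Γ : Fin 2 → Subgroup (SUGroup (k + 1))) (g : Fin 2 → SUGroup (k + 2))
    (h₃ : IsLattice Γ₃) (hL : ∀ b, IsLattice (Γ b)) {K : Subfield ℂ}
    {HH : Fin 2 → Matrix (Fin (k + 1 + 1)) (Fin (k + 1 + 1)) K}
    {B : Fin 2 → Matrix (Fin (k + 1 + 1)) (Fin (k + 1 + 1)) ℂ}
    (hf : ∀ b, IsForm (k + 1) K (HH b) (B b))
    (hc : ∀ b, Subgroup.Commensurable (Γ b) (integralPoints (k + 1) K (B b)))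
    (hsub : ∀ b, ∀ γ ∈ Γ₃, extend k γ ∈ Γ b)
    (hagree : ∀ γ ∈ Γ₃, g 0 * extend (k + 1) (extend k γ) * (g 0)⁻¹ =
      g 1 * extend (k + 1) (extend k γ) * (g 1)⁻¹)
    (hlat : IsLattice (hybrid Γ g)) (hR : Rec (hybrid Γ g)) (HL : HLat (hybrid Γ g))
    (hRb : ∀ b, Rec (ratPart (Γ b) K (B b))) :
    ∀ b, ∀ γ ∈ Γ b, EntriesIn K (B b) γ.toMatrix := by
  obtain ⟨Γ', hΓ'⟩ : ∃ Γ' : Fin 2 → Subgroup (SUGroup (k + 1)),
    Γ' = fun b => ratPart (Γ b) K (B b) := ⟨_, rfl⟩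
  have hle : ∀ b, Γ' b ≤ Γ b := by
    intro b
    rw [hΓ']
    exact ratPart_le _ _ _
  have hfin : ∀ b, (Γ' b).relIndex (Γ b) ≠ 0 := by
    intro b
    rw [hΓ']
    exact ratPart_relIndex (hc b)
  have hr' : ∀ b, ∀ γ ∈ Γ' b, EntriesIn K (B b) γ.toMatrix := by
    intro b γ hγ
    rw [hΓ'] at hγ
    exact hγ.2.1
  have hRb' : ∀ b, Rec (Γ' b) := by
    intro b
    rw [hΓ']
    exact hRb b
  have hspanb : ∀ b, Submodule.span ℂ
      (SUGroup.toMatrix '' (Γ' b : Set (SUGroup (k + 1)))) = ⊤ :=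
    fun b => span_top_fin (by omega : 1 ≤ k + 1) (Γ b) (Γ' b) (hL b) (hfin b)
  have h3' : IsLattice (commonPart Γ₃ Γ') :=
    isLattice_of_relIndex h₃ (commonPart_le Γ₃ Γ') (commonPart_relIndex hsub hfin)
  obtain ⟨D, HD, μ, q, hn, -, hch⟩ := exists_normal_form hk (commonPart Γ₃ Γ') h3' K
    HH B hf (fun b γ hγ => hr' b _ (commonPart_sub Γ₃ Γ' b γ hγ))
  choose σ Q hσ hQ hBQ using hch
  obtain ⟨X, ζ, hζ, hX, hg⟩ := frame hk Γ₃ h₃ g hagree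
  have h01 := X01_ne Γ g hlat X ζ hζ hX hg
  have : NumberField K := (hf 0).cm.1
  have hrat' : ∀ b, ∀ γ ∈ Γ' b, EntriesIn K (dsum (μ b) D) γ.toMatrix := fun b γ hγ =>
    EntriesIn.change (hf b).det (hσ b) (hQ b) (hBQ b) (hr' b γ hγ)
  have hsc : ∀ b, ∀ γ ∈ Γ b, ∃ s : ℂ, s ≠ 0 ∧ s ^ (k + 2) ∈ K ∧
      EntriesIn K (dsum (μ b) D) (s⁻¹ • γ.toMatrix) := by
    intro b γ hγ
    obtain ⟨s, hs, hsK, hγs⟩ := exists_rat_scalar_lat (by omega : 1 ≤ k + 1) (hL b) (hf b) (hc b) hγ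
    exact ⟨s, hs, hsK, EntriesIn.change (hf b).det (hσ b) (hQ b) (hBQ b) hγs⟩
  have hrat := rat_rec Γ Γ' hle g hR HL hRb' hspanb hn hrat' hsc hζ hX hg h01
  intro b γ hγ
  have hQu := isUnit_iff_ne_zero.2 (hQ b)
  have hQi : ((Q b)⁻¹).det ≠ 0 := by
    rw [det_nonsing_inv, Ring.inverse_eq_inv']
    exact inv_ne_zero (hQ b)
  have hdet : (dsum (μ b) D).det ≠ 0 := by
    rw [det_dsum]
    exact mul_ne_zero (hn.μ_ne b) hn.det
  refine EntriesIn.change (B := dsum (μ b) D) (B' := B b) (Q := (Q b)⁻¹) (σ := (σ b)⁻¹) hdet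
    (inv_ne_zero (hσ b)) hQi ?_ (hrat b γ hγ)
  have h1 : (Q b).map (fun x : K => (x : ℂ)) * ((Q b)⁻¹).map (fun x : K => (x : ℂ)) = 1 := by
    have h0 : (Q b * (Q b)⁻¹).map (fun x : K => (x : ℂ)) =
        (Q b).map (fun x : K => (x : ℂ)) * ((Q b)⁻¹).map (fun x : K => (x : ℂ)) :=
      Matrix.map_mul (f := K.subtype)
    rw [← h0, Matrix.mul_nonsing_inv _ hQu]
    exact Matrix.map_one _ rfl rfl
  have h2 : dsum (μ b) D = (σ b)⁻¹ • (B b * (Q b).map (fun x : K => (x : ℂ))) := by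
    rw [hBQ, smul_smul, inv_mul_cancel₀ (hσ b), one_smul]
  rw [h2, Matrix.smul_mul, Matrix.mul_assoc, h1, Matrix.mul_one]

end Pool.Agent.Lib.MP_5d4057_al.RC
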