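import Pool.Agent.Lib.MP_5d4057_al.RC.Defs
import Pool.Agent.Lib.MP_5d4057_al.HM.Grad
import Pool.Agent.Lib.MP_5d4057_al.HM.LipA
import Pool.Agent.Lib.MP_5d4057_al.HM.RegA
import Pool.Agent.Lib.MP_5d4057_al.HM.AppHarm

/-! The growth of the first derivative from the Lipschitz bound. -/

namespace Pool.Agent.Lib.MP_5d4057_al.RC

open Matrix MeasureTheory Filter Topology Pool.Agent.Lib.MP_5d4057_al
  Pool.Agent.Lib.MP_5d4057_al.Hyb Pool.Agent.Lib.MP_5d4057_al.HM
  Pool.Agent.Lib.MP_5d4057_al.HM.Kak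

open scoped ComplexOrder MatrixOrder Matrix.Norms.L2Operator

variable {n m : ℕ}

theorem vec_add (ξ η : Fin n → ℂ) : vec (ξ + η) = vec ξ + vec η := by
  funext i
  refine Fin.lastCases ?_ (fun j => ?_) i
  · rw [Pi.add_apply, gr_vec_last, gr_vec_last, gr_vec_last, add_zero]
  · rw [Pi.add_apply, gr_vec_castSucc, gr_vec_castSucc, gr_vec_castSucc, Pi.add_apply]

theorem vec_rsmul (r : ℝ) (ξ : Fin n → ℂ) : vec (r • ξ) = r • vec ξ := by
  funext i
  refine Fin.lastCases ?_ (fun j => ?_) i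
  · rw [Pi.smul_apply, gr_vec_last, gr_vec_last, smul_zero]
  · rw [Pi.smul_apply, gr_vec_castSucc, gr_vec_castSucc, Pi.smul_apply]

/-- `xmat` as a real linear map. -/
noncomputable def xL (n : ℕ) : (Fin n → ℂ) →ₗ[ℝ] Mat (n + 1) where
  toFun ξ := xmat ξ
  map_add' ξ η := by
    rw [xmat, xmat, xmat, vec_add, star_add, add_vecMulVec, vecMulVec_add]
    abel
  map_smul' r ξ := by
    rw [xmat, xmat, vec_rsmul, star_smul, smul_vecMulVec, vecMulVec_smul, smul_add,
      RingHom.id_apply]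
    rfl

theorem exists_xmat_bound (n : ℕ) : ∃ K : ℝ, 0 ≤ K ∧ ∀ ξ : Fin n → ℂ, nq ξ = 1 → ‖xmat ξ‖ ≤ K := by
  refine ⟨‖(xL n).toContinuousLinearMap‖, norm_nonneg _, fun ξ hξ => ?_⟩
  have h1 := (xL n).toContinuousLinearMap.le_opNorm ξ
  have h2 : ‖ξ‖ ≤ 1 := by
    refine (pi_norm_le_iff_of_nonneg zero_le_one).2 fun i => ?_
    have h3 : ‖ξ i‖ ^ 2 ≤ nq ξ :=
      Finset.single_le_sum (f := fun i => ‖ξ i‖ ^ 2) (fun i _ => sq_nonneg _) (Finset.mem_univ i)
    rw [hξ] at h3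
    nlinarith [norm_nonneg (ξ i)]
  calc ‖xmat ξ‖ = ‖(xL n).toContinuousLinearMap ξ‖ := rfl
    _ ≤ ‖(xL n).toContinuousLinearMap‖ * ‖ξ‖ := h1
    _ ≤ ‖(xL n).toContinuousLinearMap‖ * 1 := mul_le_mul_of_nonneg_left h2 (norm_nonneg _)
    _ = _ := mul_one _

/-- The derivative bound in a horizontal direction of unit length. -/
theorem fderiv_unit_le {E : Type} [NormedAddCommGroup E] [NormedSpace ℝ E] {F : Vec n → E}
    {N : ℕ} {C : ℝ} (hC : 0 ≤ C)
    (hlip : ∀ a g : SUGroup n, ‖a.toMatrix - 1‖ ≤ 1 →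
      ‖F (act (a * g) (base n)) - F (act g (base n))‖ ≤ C * ‖a.toMatrix - 1‖ * ch g ^ (2 * N))
    {K : ℝ} (hK : 0 ≤ K) {ξ : Fin n → ℂ} (hξ : nq ξ = 1) (hKξ : ‖xmat ξ‖ ≤ K) (g : SUGroup n)
    (hd : DifferentiableAt ℝ F (act g (base n))) :
    ‖fderiv ℝ F (act g (base n)) (act g (vec ξ))‖ ≤
      C * ((2 * (n + 1)) ^ 2 * ch g ^ 2 * (K + 1)) * ch g ^ (2 * N) := by
  set b : ℝ → SUGroup n := fun t => flow ξ hξ t with hb
  have hbd : ∀ t, HasDerivAt (fun t => (b t).toMatrix) ((b t).toMatrix * xmat ξ) t :=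
    fun t => Kak.hasDerivAt_flow hξ t
  have hb0 : b 0 = 1 := flow_zero hξ
  have h1 := HM.hasDerivAt_flow hbd g 0 (by rw [hb0, mul_one]; exact hd)
  rw [hb0, mul_one] at h1
  -- the flow near `0`
  have h2 := hbd 0
  rw [hb0, toMatrix_one, one_mul] at h2
  have h3 : ∀ᶠ t in 𝓝 (0 : ℝ), ‖(b t).toMatrix - 1‖ ≤ (K + 1) * ‖t - 0‖ := by
    have h4 := h2.isLittleO.def (c := 1) one_pos
    filter_upwards [h4] with t ht
    rw [hb0, toMatrix_one, sub_zero, one_mul] at ht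
    rw [sub_zero]
    calc ‖(b t).toMatrix - 1‖ = ‖((b t).toMatrix - 1 - t • xmat ξ) + t • xmat ξ‖ := by
          rw [sub_add_cancel]
      _ ≤ ‖(b t).toMatrix - 1 - t • xmat ξ‖ + ‖t • xmat ξ‖ := norm_add_le _ _
      _ ≤ ‖t‖ + ‖t‖ * K := by
          refine add_le_add ht ?_
          rw [norm_smul]
          exact mul_le_mul_of_nonneg_left hKξ (norm_nonneg _)
      _ = (K + 1) * ‖t‖ := by ring
  set A : ℝ := (2 * (n + 1)) ^ 2 * ch g ^ 2 with hA
  have hg := one_le_ch g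
  have hA0 : 0 ≤ A := by positivity
  have hconj : ∀ t, ‖(g * b t * g⁻¹).toMatrix - 1‖ ≤ A * ‖(b t).toMatrix - 1‖ := by
    intro t
    have h4 := lp_conj g⁻¹ (b t)
    rw [inv_inv, ch_inv] at h4
    exact h4
  have h5 : ∀ᶠ t in 𝓝 (0 : ℝ), ‖(g * b t * g⁻¹).toMatrix - 1‖ ≤ 1 := by
    have h6 : Tendsto (fun t => A * ‖(b t).toMatrix - 1‖) (𝓝 0) (𝓝 0) := by
      have h7 : ContinuousAt (fun t => (b t).toMatrix) 0 := (hbd 0).continuousAt
      have h8 := ((h7.tendsto.sub_const 1).norm).const_mul A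
      rw [hb0, toMatrix_one, sub_self, norm_zero, mul_zero] at h8
      exact h8
    have h7 := h6.eventually (gt_mem_nhds one_pos)
    filter_upwards [h7] with t ht
    exact (hconj t).trans ht.le
  have h6 : ∀ᶠ t in 𝓝 (0 : ℝ), ‖F (act (g * b t) (base n)) - F (act (g * b 0) (base n))‖ ≤
      C * (A * (K + 1)) * ch g ^ (2 * N) * ‖t - 0‖ := by
    filter_upwards [h3, h5] with t ht3 ht5
    have h7 := hlip (g * b t * g⁻¹) g ht5
    rw [inv_mul_cancel_right] at h7
    rw [hb0, mul_one]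
    have h8 : ‖(g * b t * g⁻¹).toMatrix - 1‖ ≤ A * ((K + 1) * ‖t - 0‖) :=
      (hconj t).trans (mul_le_mul_of_nonneg_left ht3 hA0)
    calc ‖F (act (g * b t) (base n)) - F (act g (base n))‖
        ≤ C * ‖(g * b t * g⁻¹).toMatrix - 1‖ * ch g ^ (2 * N) := h7
      _ ≤ C * (A * ((K + 1) * ‖t - 0‖)) * ch g ^ (2 * N) := by
          refine mul_le_mul_of_nonneg_right (mul_le_mul_of_nonneg_left h8 hC) (by positivity)
      _ = _ := by ring
  have h7 := h1.hasFDerivAt.le_of_lip' (by positivity) h6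
  have h8 : ‖fderiv ℝ F (act g (base n)) (act g (vec ξ))‖ ≤ C * (A * (K + 1)) * ch g ^ (2 * N) := by
    refine le_trans (le_of_eq ?_) h7
    simp
  calc _ ≤ _ := h8
    _ = _ := by rw [hA]

theorem grD_of_lip {E : Type} [NormedAddCommGroup E] [NormedSpace ℝ E] {F : Vec n → E}
    (hF : Homog F) {N : ℕ} {C : ℝ} (hC : 0 ≤ C)
    (hlip : ∀ a g : SUGroup n, ‖a.toMatrix - 1‖ ≤ 1 →
      ‖F (act (a * g) (base n)) - F (act g (base n))‖ ≤ C * ‖a.toMatrix - 1‖ * ch g ^ (2 * N))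
    (hd : ∀ v ∈ Cone n, DifferentiableAt ℝ F v) : ∃ (N' : ℕ) (C' : ℝ), 0 ≤ C' ∧
      ∀ g : SUGroup n, ‖fderiv ℝ F (act g (base n))‖ ≤ C' * ch g ^ N' := by
  obtain ⟨K, hK, hKξ⟩ := exists_xmat_bound n
  refine ⟨2 * N + 3, 4 * (n + 1) ^ 2 * (C * ((2 * (n + 1)) ^ 2 * (K + 1))), by positivity,
    fun g => ?_⟩
  have hg := one_le_ch g
  have h1 := norm_fderiv_le hF (hd _ (orbit_mem g))
    (D := C * ((2 * (n + 1)) ^ 2 * ch g ^ 2 * (K + 1)) * ch g ^ (2 * N)) (by
      intro ξ hξ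
      by_cases h0 : nq ξ = 0
      · have hz : ξ = 0 := by
          funext i
          have h3 : ‖ξ i‖ ^ 2 ≤ nq ξ :=
            Finset.single_le_sum (f := fun i => ‖ξ i‖ ^ 2) (fun i _ => sq_nonneg _)
              (Finset.mem_univ i)
          rw [h0] at h3
          have h4 : ‖ξ i‖ ^ 2 = 0 := le_antisymm h3 (sq_nonneg _)
          exact norm_eq_zero.1 (pow_eq_zero_iff two_ne_zero |>.1 h4)
        have hv : vec (0 : Fin n → ℂ) = 0 := by
          have := vec_rsmul (0 : ℝ) (0 : Fin n → ℂ)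
          rwa [zero_smul, zero_smul] at this
        rw [hz, hv]
        have ha : act g (0 : Vec n) = 0 := by rw [act, mulVec_zero]
        rw [ha, map_zero, norm_zero]
        positivity
      · have hpos : 0 < nq ξ := lt_of_le_of_ne
          (Finset.sum_nonneg fun i _ => sq_nonneg _) (Ne.symm h0)
        have hle : nq ξ ≤ 1 := hξ
        set r := Real.sqrt (nq ξ) with hr
        have hr0 : 0 < r := Real.sqrt_pos.2 hpos
        have hr1 : r ≤ 1 := by
          rw [hr]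
          exact Real.sqrt_le_one.2 hle
        have hr2 : r ^ 2 = nq ξ := Real.sq_sqrt hpos.le
        set η : Fin n → ℂ := r⁻¹ • ξ with hη
        have hη1 : nq η = 1 := by
          rw [nq, hη]
          have e1 : ∀ i, ‖(r⁻¹ • ξ) i‖ ^ 2 = (r ^ 2)⁻¹ * ‖ξ i‖ ^ 2 := by
            intro i
            rw [Pi.smul_apply, norm_smul, Real.norm_of_nonneg (by positivity), mul_pow, inv_pow]
          simp only [e1]
          rw [← Finset.mul_sum]
          show (r ^ 2)⁻¹ * nq ξ = 1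
          rw [hr2, inv_mul_cancel₀ hpos.ne']
        have hξη : ξ = r • η := by
          rw [hη, smul_smul, mul_inv_cancel₀ hr0.ne', one_smul]
        have h3 := fderiv_unit_le hC hlip hK hη1 (hKξ η hη1) g (hd _ (orbit_mem g))
        have h4 : act g (vec ξ) = r • act g (vec η) := by
          rw [hξη, vec_rsmul, act, act, mulVec_smul]
        rw [h4, map_smul, norm_smul, Real.norm_of_nonneg hr0.le]
        calc r * ‖fderiv ℝ F (act g (base n)) (act g (vec η))‖
            ≤ 1 * ‖fderiv ℝ F (act g (base n)) (act g (vec η))‖ :=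
              mul_le_mul_of_nonneg_right hr1 (norm_nonneg _)
          _ ≤ _ := by rw [one_mul]; exact h3)
  calc _ ≤ _ := h1
    _ = _ := by ring

/-- Polynomial growth of all three quantities from the regularity theory. -/
theorem harmG_of_lip {F : Vec n → Mat m} (h : Harm F) {N : ℕ} {C : ℝ}
    (hF : LipMet n m N C F) : HarmG F where
  toHarm := h
  gr := by
    refine ⟨2 * N, |C|, abs_nonneg _, fun g => (hF.adm.bound g).trans ?_⟩
    exact mul_le_mul_of_nonneg_right (le_abs_self C) (pow_nonneg (ch_pos g).le _)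
  grInv := by
    refine ⟨2 * N, |C|, abs_nonneg _, fun g => (hF.admInv.bound g).trans ?_⟩
    exact mul_le_mul_of_nonneg_right (le_abs_self C) (pow_nonneg (ch_pos g).le _)
  grD := by
    refine grD_of_lip h.hom (C := |C|) (N := N) (abs_nonneg _) (fun a g ha => ?_) fun v hv =>
      h.diff hv
    refine (hF.lip a g ha).trans ?_
    refine mul_le_mul_of_nonneg_right ?_ (pow_nonneg (ch_pos g).le _)
    exact mul_le_mul_of_nonneg_right (le_abs_self C) (norm_nonneg _)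

end Pool.Agent.Lib.MP_5d4057_al.RC
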