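import Pool.Agent.Lib.MP_5d4057_al.NU.ThmL
import Pool.Agent.Lib.MP_5d4057_al.RC.Liou
import Pool.Agent.Lib.MP_5d4057_al.RC.Lip

/-! The Liouville property and pluriharmonic metrics for lattices. -/

namespace Pool.Agent.Lib.MP_5d4057_al.RC

open Matrix MeasureTheory Filter Topology Pool.Agent.Lib.MP_5d4057_al
  Pool.Agent.Lib.MP_5d4057_al.Hyb Pool.Agent.Lib.MP_5d4057_al.HM
  Pool.Agent.Lib.MP_5d4057_al.NU

open scoped ComplexOrder MatrixOrder Matrix.Norms.L2Operator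

variable {n m : ℕ} {Γ : Subgroup (SUGroup n)}

/-- Lattices with entries in a finitely generated ring have the Liouville property. -/
theorem rec_of_lattice (hn : 2 ≤ n) (hL : IsLattice Γ) (hf : FGG Γ) : Rec Γ := by
  obtain ⟨χ, y, N, C, h1, h2, -⟩ := exists_data hn hL hf (RingEquiv.refl ℂ)
  exact rec_of_ht hn h1.disc h2

/-- Theorem H for lattices, with growth. -/
theorem harm_lat (hn : 2 ≤ n) (hL : IsLattice Γ) (hf : FGG Γ) (t : ℂ ≃+* ℂ) :
    ∃ F : Vec n → Mat (n + 1), HarmG F ∧ Equi (rhoT t Γ) F := by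
  obtain ⟨F, h1, h2, N, C, h3⟩ := exists_harm_lat hn hL hf t
  exact ⟨F, harmG_of_lip h1 h3, h2⟩

end Pool.Agent.Lib.MP_5d4057_al.RC
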