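import Pool.Agent.Lib.MP_5d4057_al.NU.SelB
import Pool.Agent.Lib.MP_5d4057_al.Hyb.Arith

/-! Arithmetic lattices have entries in finitely generated rings. -/

namespace Pool.Agent.Lib.MP_5d4057_al.RC

open Matrix Pool.Agent.Lib.MP_5d4057_al Pool.Agent.Lib.MP_5d4057_al.Hyb
  Pool.Agent.Lib.MP_5d4057_al.HM Pool.Agent.Lib.MP_5d4057_al.NU

variable {m : ℕ}

theorem fgg_unitPoints {O : Subring (Matrix (Fin (m + 1)) (Fin (m + 1)) ℂ)}
    (h : O.toAddSubgroup.FG) : FGG (unitPoints m O) := by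
  obtain ⟨S, hS⟩ := h
  obtain ⟨E, hE⟩ := FGE.of_finite (S := (S : Set (Matrix (Fin (m + 1)) (Fin (m + 1)) ℂ)))
    S.finite_toSet
  refine ⟨E, ?_⟩
  have h1 : ∀ A ∈ O.toAddSubgroup, ∀ i j, A i j ∈ Algebra.adjoin ℤ (E : Set ℂ) := by
    rw [← hS]
    intro A hA
    induction hA using AddSubgroup.closure_induction with
    | mem x hx => exact hE x hx
    | zero => exact fun i j => Subalgebra.zero_mem _
    | add x y _ _ hx hy => exact fun i j => Subalgebra.add_mem _ (hx i j) (hy i j)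
    | neg x _ hx => exact fun i j => Subalgebra.neg_mem _ (hx i j)
  rintro _ ⟨γ, hγ, rfl⟩ i j
  exact h1 _ hγ.1 i j

theorem fgg_of_isArith {Γ : Subgroup (SUGroup m)} (h : IsArith m Γ) : FGG Γ := by
  obtain ⟨K, A, O, -, hO, hc⟩ := h
  exact (fgg_unitPoints hO.fg).of_relIndex hc.2

end Pool.Agent.Lib.MP_5d4057_al.RC
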