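import Pool.Agent.Lib.MP_5d4057_al.NU.Defs
import Pool.Agent.Lib.MP_5d4057_al.HM.CutB
import Pool.Agent.Lib.MP_5d4057_al.HM.AppDefs

/-! Recurrence: the Liouville property which replaces compactness in the applications. -/

namespace Pool.Agent.Lib.MP_5d4057_al.RC

open Matrix MeasureTheory Filter Topology Pool.Agent.Lib.MP_5d4057_al
  Pool.Agent.Lib.MP_5d4057_al.Hyb Pool.Agent.Lib.MP_5d4057_al.HM

open scoped ComplexOrder MatrixOrder Matrix.Norms.L2Operator

variable {n m : ℕ}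

/-- Growth at most logarithmic in `ch`, from above. -/
def LogGr (u : Vec n → ℝ) : Prop :=
  ∃ N C : ℝ, 0 ≤ N ∧ ∀ g : SUGroup n, u (act g (base n)) ≤ C + N * Real.log (ch g)

/-- Polynomial growth. -/
def Pol {E : Type} [Norm E] (f : Vec n → E) : Prop :=
  ∃ (N : ℕ) (C : ℝ), 0 ≤ C ∧ ∀ g : SUGroup n, ‖f (act g (base n))‖ ≤ C * ch g ^ N

/-- Subharmonicity along complex lines, in the form used in the maximum principle. -/
def LSub (u : Vec n → ℝ) : Prop := ∀ v ∈ Cone n, ∀ (ξ : Vec n) (a : ℂ) (c : ℝ), 0 < c →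
  ¬ IsLocalMax (fun z : ℂ => u (v + z • ξ) + (a * z).re + c * ‖z‖ ^ 2) 0

/-- Discrete groups for which invariant subharmonic functions of logarithmic growth are constant
(two forms). -/
structure Rec (Γ : Subgroup (SUGroup n)) : Prop where
  disc : DiscreteTopology Γ
  liou : ∀ u : Vec n → ℝ, Homog u → ContDiffOn ℝ 2 u (Cone n) → Inv Γ u → LogGr u →
    (∀ v ∈ Cone n, 0 ≤ Lap u v) → ∀ v ∈ Cone n, u v = u (base n)
  mx : ∀ u : Vec n → ℝ, Homog u → ContinuousOn u (Cone n) → Inv Γ u → LogGr u → LSub u →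
    ∃ v₀ ∈ Cone n, ∀ v ∈ Cone n, u v ≤ u v₀

/-- Pluriharmonic metrics of polynomial growth. -/
structure HarmG (F : Vec n → Mat m) : Prop extends Harm F where
  gr : Pol F
  grInv : Pol fun v => (F v)⁻¹
  grD : ∃ (N : ℕ) (C : ℝ), 0 ≤ C ∧ ∀ g : SUGroup n,
    ‖fderiv ℝ F (act g (base n))‖ ≤ C * ch g ^ N

end Pool.Agent.Lib.MP_5d4057_al.RC
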