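import Pool.Agent.Lib.MP_5d4057_al.RC.LogLap

/-! Holomorphic functions and sections of polynomial growth. -/

set_option autoImplicit false

namespace Pool.Agent.Lib.MP_5d4057_al.RC

open Matrix MeasureTheory Filter Topology Pool.Agent.Lib.MP_5d4057_al
  Pool.Agent.Lib.MP_5d4057_al.Hyb Pool.Agent.Lib.MP_5d4057_al.HM

open scoped ComplexOrder MatrixOrder Matrix.Norms.L2Operator

variable {n : ℕ} {Γ : Subgroup (SUGroup n)}

/-- Invariant holomorphic functions of polynomial growth are constant. -/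
theorem hol_const_rec (hΓ : Rec Γ) {f : Vec n → ℂ} (hc : ContDiffOn ℝ 1 f (Cone n))
    (hpb : ∀ v ∈ Cone n, ∀ ξ, pb f v ξ = 0) (hh : Homog f)
    (hinv : ∀ γ ∈ Γ, ∀ v ∈ Cone n, f (act γ v) = f v) (hg : Pol f) :
    ∀ v ∈ Cone n, f v = f (base n) := by
  have hc2 : ContDiffOn ℝ 2 f (Cone n) := contDiffOn_two_of_pb (isOpen_cone n) hc hpb
  have hd : ∀ v ∈ Cone n, DifferentiableAt ℝ f v := fun v hv =>
    (hc.contDiffAt (mem_nhds_cone hv)).differentiableAt one_ne_zero
  set ψ : Vec n → ℝ := fun v => ‖f v‖ ^ 2 with hψ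
  have hψc : ContDiffOn ℝ 2 ψ (Cone n) := hc2.norm_sq ℝ
  have hψ0 : ∀ v ∈ Cone n, 0 ≤ ψ v := fun v _ => by positivity
  have hψh : Homog ψ := fun c hc0 v hv => by
    show ‖f (c • v)‖ ^ 2 = ‖f v‖ ^ 2
    rw [hh c hc0 v hv]
  have hψp : Pol ψ := by
    obtain ⟨N, C, hC, h⟩ := hg
    refine ⟨2 * N, C ^ 2, by positivity, fun g => ?_⟩
    rw [Real.norm_of_nonneg (hψ0 _ (orbit_mem g))]
    calc ‖f (act g (base n))‖ ^ 2 ≤ (C * ch g ^ N) ^ 2 :=
          pow_le_pow_left₀ (norm_nonneg _) (h g) 2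
      _ = C ^ 2 * ch g ^ (2 * N) := by ring
  have hcx : ∀ v, cx ψ v = star (f v) * f v := by
    intro v
    rw [cx, hψ, RCLike.star_def, mul_comm, Complex.mul_conj, Complex.normSq_eq_norm_sq]
  have hpz : ∀ v ∈ Cone n, ∀ ξ, pz (cx ψ) v ξ = star (f v) * pz f v ξ := by
    intro v hv ξ
    have h1 := hasZ (hd v hv) ξ
    have h2 := (hasZ_conj h1).mul' h1
    have h3 : cx ψ = fun w => star (f w) * f w := funext hcx
    rw [h3, h2.pz, hpb v hv, star_zero, zero_mul, add_zero]
  have hL : ∀ g : SUGroup n, 0 ≤ Lap (fun v => Real.log (1 + ψ v)) (act g (base n)) := by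
    intro g
    have hv := orbit_mem g
    set v := act g (base n) with hvd
    have h1 := lap_log_ge hψh hψc hψ0 g (fun j => ‖pz f v (fr g j)‖ ^ 2) (fun _ => 0)
      (fun j => by positivity) (fun j => ?_) (fun j => ?_)
    · rw [Finset.sum_const_zero, zero_div] at h1
      exact h1
    · rw [hpz _ hv, norm_mul, norm_star, mul_pow]
    · set ξ := fr g j with hξ
      have e1 : (fun w => pz (cx ψ) w ξ) =ᶠ[𝓝 v] fun w => star (f w) * pz f w ξ := by
        filter_upwards [mem_nhds_cone hv] with w hw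
        exact hpz w hw ξ
      have hcv : ContDiffAt ℝ 2 f v := hc2.contDiffAt (mem_nhds_cone hv)
      have z1 := hasZ_conj (hasZ (hd v hv) ξ)
      have z2 : HasZ (fun w => pz f w ξ) v ξ _ _ :=
        hasZ (hasFDerivAt_pz hcv ξ).differentiableAt ξ
      have z3 : pb (fun w => pz f w ξ) v ξ = 0 := by
        rw [← pz_pb_comm hcv ξ ξ]
        have h3 : (fun w => pb f w ξ) =ᶠ[𝓝 v] fun _ => 0 := by
          filter_upwards [mem_nhds_cone hv] with w hw
          exact hpb w hw ξ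
        rw [pz_congr h3, (hasZ_const (0 : ℂ) v ξ).pz]
      rw [← hvd, pb_congr e1, (z1.mul' z2).pb, z3, mul_zero, zero_add, add_zero]
      have e2 : star (pz f v ξ) * pz f v ξ = ((‖pz f v ξ‖ ^ 2 : ℝ) : ℂ) := by
        rw [RCLike.star_def, mul_comm, Complex.mul_conj, Complex.normSq_eq_norm_sq]
      rw [e2, Complex.ofReal_re]
  have hcu : ContDiffOn ℝ 2 (fun v => Real.log (1 + ψ v)) (Cone n) :=
    (contDiffOn_const.add hψc).log fun v hv => by
      have := hψ0 v hv
      positivity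
  have hLall : ∀ v ∈ Cone n, 0 ≤ Lap (fun v => Real.log (1 + ψ v)) v := by
    intro v hv
    obtain ⟨g, c, hc0, rfl⟩ := exists_act_eq hv
    have hhu : Homog fun v => Real.log (1 + ψ v) := fun c hc0 w hw => by
      show Real.log (1 + ψ (c • w)) = _
      rw [hψh c hc0 w hw]
    rw [homog_lap hhu hcu c hc0 _ (orbit_mem g)]
    exact hL g
  have h1 := hΓ.liou (fun v => Real.log (1 + ψ v)) (fun c hc0 w hw => by
      show Real.log (1 + ψ (c • w)) = _
      rw [hψh c hc0 w hw]) hcu (fun γ hγ v hv => by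
      show Real.log (1 + ψ (act γ v)) = Real.log (1 + ψ v)
      rw [hψ]
      simp only [hinv γ hγ v hv]) (logGr_log hψ0 hψp) hLall
  have h2 : ∀ v ∈ Cone n, ‖f v‖ = ‖f (base n)‖ := by
    intro v hv
    have h3 : Real.log (1 + ψ v) = Real.log (1 + ψ (base n)) := h1 v hv
    have h4 : 0 < 1 + ψ v := by have := hψ0 v hv; positivity
    have h5 : 0 < 1 + ψ (base n) := by have := hψ0 _ (base_mem n); positivity
    have h6 := Real.log_injOn_pos (Set.mem_Ioi.2 h4) (Set.mem_Ioi.2 h5) h3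
    have h7 : ‖f v‖ ^ 2 = ‖f (base n)‖ ^ 2 := by
      have : ψ v = ψ (base n) := by linarith
      exact this
    exact (sq_eq_sq₀ (norm_nonneg _) (norm_nonneg _)).1 h7
  have hdC : DifferentiableOn ℂ f (Cone n) := fun v hv =>
    (differentiableAt_of_pb (hd v hv) (hpb v hv)).differentiableWithinAt
  have h3 := Complex.eqOn_of_isPreconnected_of_isMaxOn_norm (isPreconnected_cone n)
    (isOpen_cone n) hdC (base_mem n) (fun v hv => by
      show ‖f v‖ ≤ ‖f (base n)‖
      rw [h2 v hv])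
  intro v hv
  exact h3 hv

/-- The orthonormal frame. -/
theorem sum_fr (g : SUGroup n) {x : Vec n} (hx : herm (act g (base n)) x = 0) :
    ∑ j, ‖herm (fr g j) x‖ ^ 2 = q x := by
  have h1 : ∀ j : Fin n, herm (fr g j) x = act g⁻¹ x j.castSucc := by
    intro j
    have h2 : herm (fr g j) x = herm (Pi.single j.castSucc 1) (act g⁻¹ x) := by
      rw [← herm_act g (Pi.single j.castSucc 1) (act g⁻¹ x), ← act_mul, mul_inv_cancel, act_one]
      rfl
    rw [h2, herm_single_left, J, diagonal_apply_eq, if_neg (Fin.castSucc_lt_last j).ne, one_mul]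
  have h2 : act g⁻¹ x (Fin.last n) = 0 := by
    have h3 : herm (base n) (act g⁻¹ x) = 0 := by
      rw [← herm_act g (base n) (act g⁻¹ x), ← act_mul, mul_inv_cancel, act_one]
      exact hx
    rw [base, herm_single_left, J, diagonal_apply_eq, if_pos rfl] at h3
    simpa using h3
  rw [← q_act g⁻¹ x, q_eq, h2]
  simp [h1]

theorem hasZ_starV {y : Vec n → Vec n} {v ξ a b : Vec n} (h : HasZ y v ξ a b) :
    HasZ (fun w => star (y w)) v ξ (star b) (star a) := by
  refine h.comp_anti ((starL' ℝ : Vec n ≃L[ℝ] Vec n) : Vec n →L[ℝ] Vec n) ?_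
  intro x
  show star (Complex.I • x) = -(Complex.I • star x)
  rw [star_smul, RCLike.star_def, Complex.conj_I, neg_smul]

theorem hasZ_herm {y z : Vec n → Vec n} {v ξ a b c d : Vec n} (hy : HasZ y v ξ a b)
    (hz : HasZ z v ξ c d) :
    HasZ (fun w => herm (y w) (z w)) v ξ (herm (y v) c + herm b (z v))
      (herm (y v) d + herm a (z v)) :=
  (hasZ_starV hy).bilin hz (hmL n)

/-- A section of degree zero is of class `C²`. -/
theorem sec_cd2 {y : Vec n → Vec n} (hc : ContDiffOn ℝ 1 y (Cone n))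
    (horth : ∀ v ∈ Cone n, herm v (y v) = 0)
    (hpb : ∀ v ∈ Cone n, ∀ η, pb y v η = -((herm η (y v) / (q v : ℂ)) • v)) :
    ContDiffOn ℝ 2 y (Cone n) := by
  have hd : ∀ v ∈ Cone n, DifferentiableAt ℝ y v := fun v hv =>
    (hc.contDiffAt (mem_nhds_cone hv)).differentiableAt one_ne_zero
  have hp : ∀ i j : Fin (n + 1), ContDiffOn ℝ 2 (fun v => v i * y v j - y v i * v j) (Cone n) := by
    intro i j
    have hβ : ∀ i, ContDiffOn ℝ 1 (fun v => y v i) (Cone n) := fun i => contDiffOn_pi.1 hc i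
    refine contDiffOn_two_of_pb (isOpen_cone n) ?_ ?_
    · exact ((contDiff_apply ℝ ℂ i).contDiffOn.mul (hβ j)).sub
        ((hβ i).mul (contDiff_apply ℝ ℂ j).contDiffOn)
    · intro v hv ξ
      have e : ∀ i, HasZ (fun w : Vec n => w i) v ξ _ _ :=
        fun i => hasZ_clm (ContinuousLinearMap.proj i) v ξ
      have f : ∀ i, HasZ (fun w : Vec n => y w i) v ξ _ _ :=
        fun i => (hasZ (hd v hv) ξ).clm (ContinuousLinearMap.proj i)
      have g := ((e i).mul' (f j)).sub ((f i).mul' (e j))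
      rw [g.pb, hpb v hv]
      simp only [ContinuousLinearMap.proj_apply, Pi.neg_apply, Pi.smul_apply, smul_eq_mul]
      ring
  rw [contDiffOn_pi]
  intro i
  have h1 : ContDiffOn ℝ 2 (fun v : Vec n => -(q v : ℂ)⁻¹ * ∑ j, (v i * y v j - y v i * v j) *
      (J n j j * star (v j))) (Cone n) := by
    have hq : ContDiffOn ℝ 2 (fun v : Vec n => (q v : ℂ)⁻¹) (Cone n) :=
      contDiff_qc.contDiffOn.inv fun v hv => q_ne hv
    refine hq.neg.mul (ContDiffOn.sum fun j _ => (hp i j).mul ?_)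
    refine contDiffOn_const.mul (ContDiff.contDiffOn ?_)
    exact (Complex.conjCLE.contDiff).comp (contDiff_apply ℝ ℂ j)
  refine h1.congr fun v hv => ?_
  have h2 : ∑ j, (v i * y v j - y v i * v j) * (J n j j * star (v j)) =
      v i * herm v (y v) - y v i * herm v v := by
    rw [herm_sum, herm_sum, Finset.mul_sum, Finset.mul_sum, ← Finset.sum_sub_distrib]
    exact Finset.sum_congr rfl fun j _ => by ring
  rw [h2, horth v hv, herm_self]
  have := q_ne hv
  field_simp
  ring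

theorem norm_q_le (x : Vec n) : |q x| ≤ (n + 1) * ‖x‖ ^ 2 := by
  have h1 : ∀ i, ‖x i‖ ^ 2 ≤ ‖x‖ ^ 2 := fun i =>
    pow_le_pow_left₀ (norm_nonneg _) (norm_le_pi_norm x i) 2
  have h2 : ∑ i : Fin n, ‖x i.castSucc‖ ^ 2 ≤ n * ‖x‖ ^ 2 := by
    calc ∑ i : Fin n, ‖x i.castSucc‖ ^ 2 ≤ ∑ _i : Fin n, ‖x‖ ^ 2 :=
          Finset.sum_le_sum fun i _ => h1 _
      _ = n * ‖x‖ ^ 2 := by rw [Finset.sum_const, Finset.card_univ, Fintype.card_fin, nsmul_eq_mul]
  have h3 : 0 ≤ ∑ i : Fin n, ‖x i.castSucc‖ ^ 2 := Finset.sum_nonneg fun i _ => by positivity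
  have h4 := h1 (Fin.last n)
  have h5 : 0 ≤ ‖x (Fin.last n)‖ ^ 2 := by positivity
  have h6 : 0 ≤ (n : ℝ) * ‖x‖ ^ 2 := by positivity
  rw [q_eq, abs_le]
  constructor <;> nlinarith

/-- Equivariant sections of degree zero and of polynomial growth vanish. -/
theorem sec_zero_rec (hΓ : Rec Γ) {y : Vec n → Vec n} (hc : ContDiffOn ℝ 1 y (Cone n))
    (hh : Homog y) (hinv : ∀ γ ∈ Γ, ∀ v ∈ Cone n, y (act γ v) = act γ (y v))
    (horth : ∀ v ∈ Cone n, herm v (y v) = 0)
    (hpb : ∀ v ∈ Cone n, ∀ η, pb y v η = -((herm η (y v) / (q v : ℂ)) • v)) (hg : Pol y) :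
    ∀ v ∈ Cone n, y v = 0 := by
  have hc2 := sec_cd2 hc horth hpb
  have hd : ∀ v ∈ Cone n, DifferentiableAt ℝ y v := fun v hv =>
    (hc.contDiffAt (mem_nhds_cone hv)).differentiableAt one_ne_zero
  set ψ : Vec n → ℝ := fun v => q (y v) with hψ
  have hcx : ∀ v, cx ψ v = herm (y v) (y v) := fun v => (herm_self _).symm
  have hψc : ContDiffOn ℝ 2 ψ (Cone n) := by
    have h1 : ψ = fun v => ∑ i : Fin n, ‖y v i.castSucc‖ ^ 2 - ‖y v (Fin.last n)‖ ^ 2 := by
      funext v
      exact q_eq _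
    rw [h1]
    have h2 : ∀ i, ContDiffOn ℝ 2 (fun v => ‖y v i‖ ^ 2) (Cone n) := fun i =>
      (contDiffOn_pi.1 hc2 i).norm_sq ℝ
    exact (ContDiffOn.sum fun i _ => h2 _).sub (h2 _)
  have hψ0 : ∀ v ∈ Cone n, 0 ≤ ψ v := fun v hv => q_nonneg_of_orth hv (horth v hv)
  have hψh : Homog ψ := fun c hc0 v hv => by
    show q (y (c • v)) = q (y v)
    rw [hh c hc0 v hv]
  have hψp : Pol ψ := by
    obtain ⟨N, C, hC, h⟩ := hg
    refine ⟨2 * N, (n + 1) * C ^ 2, by positivity, fun g => ?_⟩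
    calc ‖ψ (act g (base n))‖ = |q (y (act g (base n)))| := rfl
      _ ≤ (n + 1) * ‖y (act g (base n))‖ ^ 2 := norm_q_le _
      _ ≤ (n + 1) * (C * ch g ^ N) ^ 2 := by
          have := pow_le_pow_left₀ (norm_nonneg _) (h g) 2
          exact mul_le_mul_of_nonneg_left this (by positivity)
      _ = (n + 1) * C ^ 2 * ch g ^ (2 * N) := by ring
  -- the derivatives
  have hz : ∀ v ∈ Cone n, ∀ ξ, herm v (pz y v ξ) = 0 := by
    intro v hv ξ
    have h1 := hasZ_herm (hasZ_id v ξ) (hasZ (hd v hv) ξ)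
    have h2 : (fun w => herm w (y w)) =ᶠ[𝓝 v] fun _ => 0 := by
      filter_upwards [mem_nhds_cone hv] with w hw
      exact horth w hw
    have h3 := h1.pz
    rw [pz_congr h2, (hasZ_const (0 : ℂ) v ξ).pz] at h3
    have h4 : herm 0 (y v) = 0 := by rw [herm, star_zero, zero_dotProduct]
    rw [h4, add_zero] at h3
    exact h3.symm
  have hpz : ∀ v ∈ Cone n, ∀ ξ, pz (cx ψ) v ξ = herm (y v) (pz y v ξ) := by
    intro v hv ξ
    have h1 := hasZ (hd v hv) ξ
    have h2 := hasZ_herm h1 h1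
    have h3 : cx ψ = fun w => herm (y w) (y w) := funext hcx
    rw [h3, h2.pz, hpb v hv, ← neg_smul, herm_smul_left, horth v hv, mul_zero, add_zero]
  have key : ∀ g : SUGroup n, ψ (act g (base n)) / (1 + ψ (act g (base n))) ≤
      Lap (fun v => Real.log (1 + ψ v)) (act g (base n)) := by
    intro g
    have hv := orbit_mem g
    have hq := q_orbit g
    set v := act g (base n) with hvd
    have h1 := lap_log_ge hψh hψc hψ0 g (fun j => q (pz y v (fr g j)))
      (fun j => ‖herm (fr g j) (y v)‖ ^ 2)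
      (fun j => q_nonneg_of_orth hv (hz v hv _)) (fun j => ?_) (fun j => ?_)
    · rw [sum_fr g (horth v hv)] at h1
      exact h1
    · rw [hpz _ hv]
      exact cauchy_orth hv (horth v hv) (hz v hv _)
    · set ξ := fr g j with hξ
      have e1 : (fun w => pz (cx ψ) w ξ) =ᶠ[𝓝 v] fun w => herm (y w) (pz y w ξ) := by
        filter_upwards [mem_nhds_cone hv] with w hw
        exact hpz w hw ξ
      have hcv : ContDiffAt ℝ 2 y v := hc2.contDiffAt (mem_nhds_cone hv)
      have z1 := hasZ (hd v hv) ξ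
      have z2 : HasZ (fun w => pz y w ξ) v ξ _ _ :=
        hasZ (hasFDerivAt_pz hcv ξ).differentiableAt ξ
      have z3 : herm (y v) (pb (fun w => pz y w ξ) v ξ) = ((‖herm ξ (y v)‖ ^ 2 : ℝ) : ℂ) := by
        have h3 : (fun w => pb y w ξ) =ᶠ[𝓝 v] fun w => -((herm ξ (y w) * (q w : ℂ)⁻¹) • w) := by
          filter_upwards [mem_nhds_cone hv] with w hw
          rw [hpb w hw, div_eq_mul_inv]
        have h4 : HasZ (fun w => herm ξ (y w)) v ξ _ _ := (hasZ (hd v hv) ξ).clm (hmL n (star ξ))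
        have h5 := ((h4.mul' ((hasZ_q v ξ).inv (q_ne hv))).smul (hasZ_id v ξ)).neg
        have e3 : herm (y v) v = 0 := by rw [herm_comm, horth v hv, star_zero]
        have e4 : herm ξ (y v) * herm (y v) ξ = ((‖herm ξ (y v)‖ ^ 2 : ℝ) : ℂ) := by
          rw [herm_comm ξ (y v), RCLike.star_def, Complex.mul_conj, Complex.normSq_eq_norm_sq]
        rw [← pz_pb_comm hcv ξ ξ, pz_congr h3, h5.pz, herm_neg_right, herm_add_right,
          herm_smul_right, herm_smul_right, e3, mul_zero, add_zero, hq, ← e4]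
        push_cast
        ring
      rw [← hvd, pb_congr e1, (hasZ_herm z1 z2).pb, z3, herm_self, ← Complex.ofReal_add,
        Complex.ofReal_re, add_comm]
  have hcu : ContDiffOn ℝ 2 (fun v => Real.log (1 + ψ v)) (Cone n) :=
    (contDiffOn_const.add hψc).log fun v hv => by
      have := hψ0 v hv
      positivity
  have hhu : Homog fun v => Real.log (1 + ψ v) := fun c hc0 w hw => by
    show Real.log (1 + ψ (c • w)) = _
    rw [hψh c hc0 w hw]
  have hLall : ∀ v ∈ Cone n, 0 ≤ Lap (fun v => Real.log (1 + ψ v)) v := by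
    intro v hv
    obtain ⟨g, c, hc0, rfl⟩ := exists_act_eq hv
    rw [homog_lap hhu hcu c hc0 _ (orbit_mem g)]
    refine le_trans ?_ (key g)
    have := hψ0 _ (orbit_mem g)
    positivity
  have h1 := hΓ.liou (fun v => Real.log (1 + ψ v)) hhu hcu (fun γ hγ v hv => by
      show Real.log (1 + ψ (act γ v)) = Real.log (1 + ψ v)
      rw [hψ]
      simp only [hinv γ hγ v hv, q_act]) (logGr_log hψ0 hψp) hLall
  have h2 : ∀ g : SUGroup n, ψ (act g (base n)) = 0 := by
    intro g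
    have h3 : (fun v => Real.log (1 + ψ v)) =ᶠ[𝓝 (act g (base n))]
        fun _ => Real.log (1 + ψ (base n)) := by
      filter_upwards [mem_nhds_cone (orbit_mem g)] with w hw
      exact h1 w hw
    have h4 := key g
    have h5 : Lap (fun _ : Vec n => Real.log (1 + ψ (base n))) (act g (base n)) = 0 := by
      simp [Lap]
    rw [lap_congr h3, h5] at h4
    have h6 := hψ0 _ (orbit_mem g)
    have h7 : 0 < 1 + ψ (act g (base n)) := by linarith
    rw [div_le_iff₀ h7, zero_mul] at h4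
    exact le_antisymm h4 h6
  intro v hv
  obtain ⟨g, c, hc0, rfl⟩ := exists_act_eq hv
  rw [hh c hc0 _ (orbit_mem g)]
  by_contra hne
  have h3 := q_pos_of_orth (orbit_mem g) (horth _ (orbit_mem g)) hne
  have h4 : q (y (act g (base n))) = 0 := h2 g
  linarith

end Pool.Agent.Lib.MP_5d4057_al.RC
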