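import Pool.Agent.Lib.MP_5d4057_al.RC.Uniq
import Pool.Agent.Lib.MP_5d4057_al.RC.Hol
import Pool.Agent.Lib.MP_5d4057_al.HM.AppTwo
import Pool.Agent.Lib.MP_5d4057_al.HM.LavA

/-! Growth of metrics, and the consequences of uniqueness for groups with the Liouville property. -/

set_option autoImplicit false

namespace Pool.Agent.Lib.MP_5d4057_al.RC

open Matrix Filter Topology Pool.Agent.Lib.MP_5d4057_al
  Pool.Agent.Lib.MP_5d4057_al.Hyb Pool.Agent.Lib.MP_5d4057_al.HM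

open scoped ComplexOrder MatrixOrder Matrix.Norms.L2Operator

variable {n m j : ℕ}

theorem Pol.const {E : Type} [NormedAddCommGroup E] (c : E) : Pol fun _ : Vec n => c :=
  ⟨0, ‖c‖, norm_nonneg _, fun g => by simp⟩

section
variable {E : Type} [Norm E]

theorem Pol.congr {f f' : Vec n → E} (hf : Pol f) (h : ∀ v ∈ Cone n, f' v = f v) : Pol f' := by
  obtain ⟨N, C, hC, h1⟩ := hf
  exact ⟨N, C, hC, fun g => by rw [h _ (orbit_mem g)]; exact h1 g⟩

theorem Pol.of_le {E' : Type} [Norm E'] {f : Vec n → E} {f' : Vec n → E'}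
    (hf : Pol f) {A : ℝ} (hA : 0 ≤ A)
    (h : ∀ g : SUGroup n, ‖f' (act g (base n))‖ ≤ A * ‖f (act g (base n))‖) : Pol f' := by
  obtain ⟨N, C, hC, h1⟩ := hf
  refine ⟨N, A * C, by positivity, fun g => (h g).trans ?_⟩
  rw [mul_assoc]
  exact mul_le_mul_of_nonneg_left (h1 g) hA

theorem Pol.comp_act {f : Vec n → E} (hf : Pol f) (a : SUGroup n) :
    Pol fun v => f (act a v) := by
  obtain ⟨N, C, hC, h1⟩ := hf
  have ha := one_le_ch a
  refine ⟨N, C * (2 * ch a) ^ N, by positivity, fun g => ?_⟩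
  have h2 := h1 (a * g)
  rw [act_mul] at h2
  refine h2.trans ?_
  rw [mul_assoc, ← mul_pow]
  have h3 := ch_mul_le' a g
  have h4 := one_le_ch (a * g)
  exact mul_le_mul_of_nonneg_left (pow_le_pow_left₀ (by linarith) h3 N) hC

theorem ch_extend (g : SUGroup j) : ch (extend j g) = ch g := by
  rw [ch, ch, extend_toMatrix, ← Fin.succ_last, dsum_succ_succ]

theorem Pol.comp_inc {f : Vec (j + 1) → E} (hf : Pol f) : Pol fun w => f (inc j w) := by
  obtain ⟨N, C, hC, h1⟩ := hf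
  refine ⟨N, C, hC, fun g => ?_⟩
  have h2 := h1 (extend j g)
  rwa [ch_extend, ← inc_base, act_extend] at h2

theorem Pol.comp_hyp {f : Vec (j + 1) → E} (hf : Pol f) (g : SUGroup (j + 1)) :
    Pol fun w => f (HM.hyp g w) := (hf.comp_act g).comp_inc

end

theorem Pol.conj {F : Vec n → Mat m} (hF : Pol F) (A B : Mat m) : Pol fun v => A * F v * B :=
  ((Pol.const A).mul hF).mul (Pol.const B)

theorem Pol.dsum {M : Vec n → Mat m} (hM : Pol M) (l : ℂ) : Pol fun v => Hyb.dsum l (M v) := by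
  have h1 : Pol fun v => dsL m (M v) := hM.clm ((dsL m).restrictScalars ℝ)
  have h2 := (Pol.const (n := n) (Hyb.dsum l (0 : Mat m))).add h1
  exact h2.congr fun v _ => dsum_split l (M v)

theorem Pol.smul {M : Vec n → Mat m} (hM : Pol M) (c : ℂ) : Pol fun v => c • M v :=
  hM.of_le (norm_nonneg c) fun _ => (norm_smul _ _).le

/-- The inverse of a metric of this shape. -/
theorem conj_inv {Q : Mat m} (A : Mat m) : (Q * A * Qᴴ)⁻¹ = Qᴴ⁻¹ * A⁻¹ * Q⁻¹ := by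
  rw [Matrix.mul_inv_rev, Matrix.mul_inv_rev, ← Matrix.mul_assoc]

theorem Pol.conjInv {F : Vec n → Mat m} (hF : Pol fun v => (F v)⁻¹) (Q : Mat m) :
    Pol fun v => (Q * F v * Qᴴ)⁻¹ :=
  (hF.conj Qᴴ⁻¹ Q⁻¹).congr fun _ _ => conj_inv _

theorem pol_toMatrix {f : Vec n → Mat (n + 1)}
    (h : ∀ g : SUGroup n, f (act g (base n)) = g.toMatrix * (g.toMatrix)ᴴ) : Pol f := by
  refine ⟨2, (2 * (n + 1)) ^ 2, by positivity, fun g => ?_⟩
  rw [h g]
  have h1 := Lv.norm_toMatrix_le g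
  calc ‖g.toMatrix * (g.toMatrix)ᴴ‖ ≤ ‖g.toMatrix‖ * ‖(g.toMatrix)ᴴ‖ := norm_mul_le _ _
    _ = ‖g.toMatrix‖ * ‖g.toMatrix‖ := by
        rw [← star_eq_conjTranspose, norm_star]
    _ ≤ (2 * (n + 1) * ch g) * (2 * (n + 1) * ch g) := by
        have h2 := one_le_ch g
        have h3 : (0 : ℝ) ≤ 2 * (n + 1) * ch g := by positivity
        exact mul_le_mul h1 h1 (norm_nonneg _) h3
    _ = _ := by ring

theorem pol_std : Pol (std (n := n)) := by
  refine pol_toMatrix fun g => ?_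
  rw [std_act, std_base, Matrix.mul_one]

theorem pol_std_inv : Pol fun v : Vec n => (std v)⁻¹ := by
  have h1 : Pol fun v : Vec n => J n * std v * J n := pol_std.conj _ _
  exact h1.congr fun v hv => std_inv hv

/-- Uniqueness, with growth conditions. -/
theorem thmU_pol (hn : 1 ≤ n) {Γ : Subgroup (SUGroup n)} (hΓ : Rec Γ) {ρ : Γ →* Mat m}
    {F₁ F₂ : Vec n → Mat m} (h₁ : Harm F₁) (h₂ : Harm F₂) (e₁ : Equi ρ F₁) (e₂ : Equi ρ F₂)
    (g₁ : Pol fun v => (F₁ v)⁻¹) (g₂ : Pol F₂) : ∃ S : Mat m, ∀ v ∈ Cone n, F₂ v = F₁ v * S := by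
  have h := unique_rec hn hΓ (h₁.met e₁) (h₂.met e₂) h₁.cd h₂.cd (fun v hv => h₁.lap hv)
    (fun v hv => h₂.lap hv) g₁ g₂
  refine ⟨(F₁ (base n))⁻¹ * F₂ (base n), fun v hv => ?_⟩
  rw [← h v hv, ← Matrix.mul_assoc, mul_nonsing_inv _ ((isUnit_iff_isUnit_det _).1 (h₁.unit hv)),
    Matrix.one_mul]

theorem eq_of_unique_rec (hn : 1 ≤ n) {Γ : Subgroup (SUGroup n)} (hΓ : Rec Γ)
    {ρ : Γ →* Mat m} {F F' : Vec n → Mat m}
    (hF : Harm F) (hF' : Harm F') (hFe : Equi ρ F) (hFe' : Equi ρ F')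
    (g₁ : Pol fun v => (F v)⁻¹) (g₂ : Pol F') {v₀ : Vec n}
    (hv₀ : v₀ ∈ Cone n) (h0 : F' v₀ = F v₀) : ∀ v ∈ Cone n, F' v = F v := by
  obtain ⟨S, hS⟩ := thmU_pol hn hΓ hF hF' hFe hFe' g₁ g₂
  have hS1 : S = 1 := by
    have h1 := hS v₀ hv₀
    rw [h0] at h1
    have h2 : F v₀ * 1 = F v₀ * S := by rw [Matrix.mul_one]; exact h1
    exact ((hF.unit hv₀).mul_left_cancel h2).symm
  intro v hv
  rw [hS v hv, hS1, Matrix.mul_one]

/-- The metric on the hyperplane, from uniqueness. -/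
theorem slice_form_rec (hj : 1 ≤ j) {Γ : Subgroup (SUGroup j)} (hΓ : Rec Γ)
    (σ : Γ →* Mat (j + 1)) (hσ : Submodule.span ℂ (Set.range σ) = ⊤)
    {M : Vec j → Mat (j + 1)} (hM : Harm M) (hMp : Pol fun w => (M w)⁻¹) (hMe : Equi σ M)
    {Q : Mat (j + 2)} (hQ : IsUnit Q)
    {F : Vec j → Mat (j + 2)} (hF : Harm F) (hFp : Pol F) (ρ : Γ →* Mat (j + 2))
    (hρ : ∀ γ, ρ γ = Q * dsum 1 (σ γ) * Q⁻¹) (hFe : Equi ρ F) :
    ∃ l a : ℂ, 0 < l ∧ 0 < a ∧ ∀ w ∈ Cone j, F w = Q * dsum l (a • M w) * Qᴴ := by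
  have hd := (isUnit_iff_isUnit_det Q).1 hQ
  have hQ' : IsUnit Qᴴ := (isUnit_conjTranspose Q).2 hQ
  have hd' := (isUnit_iff_isUnit_det Qᴴ).1 hQ'
  have e1 : Q⁻¹ * Q = 1 := nonsing_inv_mul _ hd
  have e2 : Qᴴ * Qᴴ⁻¹ = 1 := mul_nonsing_inv _ hd'
  have e2' : Qᴴ⁻¹ * Qᴴ = 1 := nonsing_inv_mul _ hd'
  have hρ1 : ∀ γ, ρ γ * Q = Q * dsum 1 (σ γ) := by
    intro γ
    rw [hρ, Matrix.mul_assoc, e1, Matrix.mul_one]
  have hρ2 : ∀ γ, Qᴴ * (ρ γ)ᴴ = (dsum 1 (σ γ))ᴴ * Qᴴ := by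
    intro γ
    rw [← conjTranspose_mul, hρ1, conjTranspose_mul]
  have hM' : Harm fun w => Q * dsum 1 (M w) * Qᴴ := (hM.dsum one_pos).congr hQ
  have hMe' : ∀ γ : Γ, ∀ w ∈ Cone j, dsum 1 (M (act (γ : SUGroup j) w)) =
      dsum 1 (σ γ) * dsum 1 (M w) * (dsum 1 (σ γ))ᴴ := by
    intro γ w hw
    rw [dsum_conjTranspose, dsum_mul, dsum_mul, star_one, one_mul, one_mul, hMe γ w hw]
  have hMe2 : Equi ρ fun w => Q * dsum 1 (M w) * Qᴴ := by
    intro γ w hw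
    show Q * dsum 1 (M (act (γ : SUGroup j) w)) * Qᴴ = ρ γ * (Q * dsum 1 (M w) * Qᴴ) * (ρ γ)ᴴ
    rw [hMe' γ w hw]
    calc Q * (dsum 1 (σ γ) * dsum 1 (M w) * (dsum 1 (σ γ))ᴴ) * Qᴴ
        = Q * dsum 1 (σ γ) * dsum 1 (M w) * ((dsum 1 (σ γ))ᴴ * Qᴴ) := by
          simp only [Matrix.mul_assoc]
      _ = _ := by rw [← hρ2, ← hρ1]; simp only [Matrix.mul_assoc]
  have hMp' : Pol fun w => (Q * dsum 1 (M w) * Qᴴ)⁻¹ := by
    refine Pol.conjInv (F := fun w => dsum 1 (M w)) ?_ Q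
    refine (hMp.dsum 1).congr fun w hw => ?_
    rw [dsum_inv' one_ne_zero (hM.unit hw), inv_one]
  obtain ⟨S, hS⟩ := thmU_pol hj hΓ hM' hF hMe2 hFe hMp' hFp
  set T : Mat (j + 2) := Qᴴ * S * Qᴴ⁻¹ with hT
  have hFT : ∀ w ∈ Cone j, F w = Q * dsum 1 (M w) * T * Qᴴ := by
    intro w hw
    rw [hS w hw, hT]
    simp only [Matrix.mul_assoc]
    rw [e2', Matrix.mul_one]
  have hcomm : ∀ γ, T * (dsum 1 (σ γ))ᴴ = (dsum 1 (σ γ))ᴴ * T := by
    intro γ
    have hb : base j ∈ Cone j := base_mem j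
    have h1 := hFe γ (base j) hb
    rw [hFT _ (act_mem _ hb), hFT _ hb, hMe' γ _ hb] at h1
    have hu1 : IsUnit (dsum 1 (M (base j))) := (posDef_dsum one_pos (hM.pos _ hb)).isUnit
    have hu2 : IsUnit (dsum 1 (σ γ)) := by
      have h3 : dsum 1 (σ γ) * dsum 1 (σ γ⁻¹) = 1 := by
        rw [dsum_mul, one_mul, ← map_mul, mul_inv_cancel, map_one, dsum_one]
      exact IsUnit.of_mul_eq_one _ h3
    have h2 : Q * (dsum 1 (σ γ) * (dsum 1 (M (base j)) * ((dsum 1 (σ γ))ᴴ * T))) * Qᴴ =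
        Q * (dsum 1 (σ γ) * (dsum 1 (M (base j)) * (T * (dsum 1 (σ γ))ᴴ))) * Qᴴ := by
      calc _ = Q * (dsum 1 (σ γ) * dsum 1 (M (base j)) * (dsum 1 (σ γ))ᴴ) * T * Qᴴ := by
            simp only [Matrix.mul_assoc]
        _ = ρ γ * (Q * dsum 1 (M (base j)) * T * Qᴴ) * (ρ γ)ᴴ := h1
        _ = (ρ γ * Q) * dsum 1 (M (base j)) * T * (Qᴴ * (ρ γ)ᴴ) := by
            simp only [Matrix.mul_assoc]
        _ = _ := by rw [hρ1, hρ2]; simp only [Matrix.mul_assoc]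
    exact (hu1.mul_left_cancel (hu2.mul_left_cancel (hQ.mul_left_cancel
      (hQ'.mul_right_cancel h2)))).symm
  obtain ⟨l, a, hla⟩ := schur_dsum (by omega) σ hσ hcomm
  have hF2 : ∀ w ∈ Cone j, F w = Q * dsum l (a • M w) * Qᴴ := by
    intro w hw
    rw [hFT w hw, hla, Matrix.mul_assoc Q, dsum_mul, one_mul, Matrix.mul_smul, Matrix.mul_one]
  have hb : base j ∈ Cone j := base_mem j
  have hpos : (dsum l (a • M (base j))).PosDef := by
    have h1 := hF.pos _ hb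
    have h2 : dsum l (a • M (base j)) = Q⁻¹ * F (base j) * (Q⁻¹)ᴴ := by
      rw [hF2 _ hb, conjTranspose_nonsing_inv]
      calc dsum l (a • M (base j)) = 1 * dsum l (a • M (base j)) * 1 := by
            rw [Matrix.one_mul, Matrix.mul_one]
        _ = (Q⁻¹ * Q) * dsum l (a • M (base j)) * (Qᴴ * Qᴴ⁻¹) := by rw [e1, e2]
        _ = _ := by simp only [Matrix.mul_assoc]
    rw [h2]
    exact h1.mul_mul_conjTranspose_same (Matrix.vecMul_injective_of_isUnit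
      (isUnit_nonsing_inv_iff.2 hQ))
  obtain ⟨h1, h2⟩ := posDef_of_dsum' hpos
  exact ⟨l, a, h1, pos_of_smul_posDef (hM.pos _ hb) h2, hF2⟩

/-! ### growth of the derivative -/

theorem HarmG.pre {F : Vec n → Mat m} (h : HarmG F) (a : SUGroup n) {B : Mat m} (hB : IsUnit B) :
    HarmG fun v => B * F (act a v) * Bᴴ where
  toHarm := (h.toHarm.comp (actC a) fun v hv => act_mem a hv).congr hB
  gr := (h.gr.comp_act a).conj B Bᴴ
  grInv := (h.grInv.comp_act a).conjInv B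
  grD := by
    have h1 : Pol fun v => fderiv ℝ F (act a v) := Pol.comp_act (f := fderiv ℝ F) h.grD a
    obtain ⟨A, hA⟩ : ∃ A : ℝ, A = ‖(ContinuousLinearMap.mulLeftRight ℂ (Mat m) B Bᴴ)‖ *
      ‖actC a‖ := ⟨_, rfl⟩
    have hA0 : 0 ≤ A := by rw [hA]; positivity
    refine Pol.of_le h1 hA0 fun g => ?_
    have hv := orbit_mem g
    have h2 : HasFDerivAt (fun v => F (actC a v))
        ((fderiv ℝ F (act a (act g (base n)))).comp ((actC a).restrictScalars ℝ))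
        (act g (base n)) := by
      have h3 : HasFDerivAt (fun v => actC a v) ((actC a).restrictScalars ℝ) (act g (base n)) :=
        (actC a).hasFDerivAt.restrictScalars ℝ
      have h4 : HasFDerivAt F (fderiv ℝ F (actC a (act g (base n)))) (actC a (act g (base n))) :=
        (h.toHarm.diff (act_mem a hv)).hasFDerivAt
      exact h4.comp _ h3
    have h3 : HasFDerivAt (fun v => B * F (act a v) * Bᴴ)
        (((ContinuousLinearMap.mulLeftRight ℂ (Mat m) B Bᴴ).restrictScalars ℝ).comp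
          ((fderiv ℝ F (act a (act g (base n)))).comp ((actC a).restrictScalars ℝ)))
        (act g (base n)) :=
      ((ContinuousLinearMap.mulLeftRight ℂ (Mat m) B Bᴴ).restrictScalars ℝ).hasFDerivAt.comp _ h2
    rw [h3.fderiv]
    refine (ContinuousLinearMap.opNorm_comp_le _ _).trans ?_
    have h4 : ‖((ContinuousLinearMap.mulLeftRight ℂ (Mat m) B Bᴴ).restrictScalars ℝ)‖ =
        ‖(ContinuousLinearMap.mulLeftRight ℂ (Mat m) B Bᴴ)‖ :=
      ContinuousLinearMap.norm_restrictScalars _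
    have h5 : ‖((actC a).restrictScalars ℝ)‖ = ‖actC a‖ :=
      ContinuousLinearMap.norm_restrictScalars _
    have h6 := ContinuousLinearMap.opNorm_comp_le (fderiv ℝ F (act a (act g (base n))))
      ((actC a).restrictScalars ℝ)
    rw [h5] at h6
    rw [h4, hA]
    calc _ ≤ ‖(ContinuousLinearMap.mulLeftRight ℂ (Mat m) B Bᴴ)‖ *
          (‖fderiv ℝ F (act a (act g (base n)))‖ * ‖actC a‖) :=
          mul_le_mul_of_nonneg_left h6 (norm_nonneg _)
      _ = _ := by ring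

end Pool.Agent.Lib.MP_5d4057_al.RC
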