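import Pool.Agent.Lib.MP_5d4057_al.HM.AppMix
import Pool.Agent.Lib.MP_5d4057_al.RC.Slice

/-! The metric on the two hyperplanes in the mixed case, for groups with the Liouville property. -/

set_option autoImplicit false

namespace Pool.Agent.Lib.MP_5d4057_al.RC

open Matrix Filter Topology Pool.Agent.Lib.MP_5d4057_al
  Pool.Agent.Lib.MP_5d4057_al.Hyb Pool.Agent.Lib.MP_5d4057_al.HM

open scoped ComplexOrder MatrixOrder Matrix.Norms.L2Operator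

variable {n m j k : ℕ}

theorem pol_std_cj_inv : Pol fun w : Vec n => ((std w).map cj)⁻¹ := by
  have h1 : Pol fun w : Vec n => cjL (n + 1) ((std w)⁻¹) := pol_std_inv.clm (cjL (n + 1))
  refine h1.congr fun w hw => ?_
  have hd : (std w).det ≠ 0 := ((isUnit_iff_isUnit_det _).1 (std_unit hw)).ne_zero
  rw [cjL_apply, tm_inv cj hd]

/-- The metric on a hyperplane, for an automorphism `t` which agrees with `s` on `K`. -/
theorem slice_data_rec (Γ Γ' : Fin 2 → Subgroup (SUGroup (k + 1)))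
    (g : Fin 2 → SUGroup (k + 2)) (b : Fin 2) (hle : Γ' b ≤ Γ b) (hL' : IsLattice (Γ' b))
    (hfin : (Γ' b).relIndex (Γ b) ≠ 0) (hcocb : Rec (Γ' b))
    {K : Subfield ℂ} {μ : ℂ} {D : Mat (k + 1)} (hμ : μ ≠ 0) (hD : D.det ≠ 0)
    (hrat : ∀ γ ∈ Γ' b, EntriesIn K (dsum μ D) γ.toMatrix)
    (t s t' : ℂ ≃+* ℂ) (hts : ∀ x, t x = s (t' x)) (ht' : ∀ x : K, t' (x : ℂ) = x)
    {S : Vec (k + 1) → Mat (k + 2)} (hS : Harm S) (hSp : Pol fun w => (S w)⁻¹) (hSe : Equi (rhoT s (Γ b)) S)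
    {F : Vec (k + 2) → Mat (k + 3)} (hF : Harm F) (hFp : Pol F)
    (hFe : Equi (rhoT t (hybrid Γ g)) F) :
    ∃ (ν : ℂ) (E : Mat (k + 1)) (l a : ℂ), ν ≠ 0 ∧ IsUnit E ∧ 0 < l ∧ 0 < a ∧
      (∀ w ∈ Cone (k + 1), F (HM.hyp (g b) w) =
        ((g b).toMatrix.map t * dsum 1 (dsum ν E)) * dsum l (a • S w) *
          ((g b).toMatrix.map t * dsum 1 (dsum ν E))ᴴ) ∧
      (∀ γ ∈ Γ' b, (g b * extend (k + 1) γ * (g b)⁻¹).toMatrix.map t =
        ((g b).toMatrix.map t * dsum 1 (dsum ν E)) * dsum 1 (γ.toMatrix.map s) *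
          ((g b).toMatrix.map t * dsum 1 (dsum ν E))⁻¹) ∧
      ∀ γ ∈ Γ b, ∃ χ : ℂ, χ * star χ = 1 ∧
        (g b * extend (k + 1) γ * (g b)⁻¹).toMatrix.map t =
        ((g b).toMatrix.map t * dsum 1 (dsum ν E)) * dsum 1 (χ • γ.toMatrix.map s) *
          ((g b).toMatrix.map t * dsum 1 (dsum ν E))⁻¹ := by
  have hBd : (dsum μ D).det ≠ 0 := by
    rw [det_dsum]
    exact mul_ne_zero hμ hD
  have hmts : ∀ {l : ℕ} (A : Mat l), A.map t = (A.map t').map s := by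
    intro l A
    ext i j
    exact hts _
  set E₀ : Mat (k + 1) := D.map t' * D⁻¹ with hE₀
  set ν₀ : ℂ := t' μ * μ⁻¹ with hν₀
  have hEb : (dsum μ D).map t' * (dsum μ D)⁻¹ = dsum ν₀ E₀ := by
    rw [tm_dsum, dsum_inv _ _ hμ hD, dsum_mul]
  have hν₀0 : ν₀ ≠ 0 := mul_ne_zero ((map_ne_zero t').2 hμ) (inv_ne_zero hμ)
  have hE₀u : IsUnit E₀ := (tm_unit t' hD).mul
    (isUnit_nonsing_inv_iff.2 ((isUnit_iff_isUnit_det D).2 (isUnit_iff_ne_zero.2 hD)))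
  have hE₀d : E₀.det ≠ 0 := ((isUnit_iff_isUnit_det E₀).1 hE₀u).ne_zero
  set E : Mat (k + 1) := E₀.map s with hE
  set ν : ℂ := s ν₀ with hν
  have hν0 : ν ≠ 0 := (map_ne_zero s).2 hν₀0
  have hEu : IsUnit E := tm_unit s hE₀d
  have hEd : E.det ≠ 0 := ((isUnit_iff_isUnit_det E).1 hEu).ne_zero
  have hR₀d : (dsum ν₀ E₀).det ≠ 0 := by
    rw [det_dsum]
    exact mul_ne_zero hν₀0 hE₀d
  have hRd : (dsum ν E).det ≠ 0 := by
    rw [det_dsum]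
    exact mul_ne_zero hν0 hEd
  have hRs : (dsum ν₀ E₀).map s = dsum ν E := tm_dsum s _ _
  set Q : Mat (k + 3) := (g b).toMatrix.map t * dsum 1 (dsum ν E) with hQ
  have hRu : IsUnit (dsum ν E) := (isUnit_iff_isUnit_det _).2 (isUnit_iff_ne_zero.2 hRd)
  have hQu : IsUnit Q := by
    refine (tm_gp_unit t (g b)).mul ?_
    rw [isUnit_iff_isUnit_det, det_dsum, one_mul]
    exact (isUnit_iff_isUnit_det _).1 hRu
  have hsmall : ∀ γ ∈ Γ' b, γ.toMatrix.map t = dsum ν E * γ.toMatrix.map s * (dsum ν E)⁻¹ := by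
    intro γ hγ
    rw [hmts, tm_fix t' ht' hBd (hrat γ hγ), hEb, tm_mul, tm_mul, ← tm_inv s hR₀d, hRs]
  have htr : ∀ γ ∈ Γ b, ∀ B : Mat (k + 2), γ.toMatrix.map t = dsum ν E * B * (dsum ν E)⁻¹ →
      (g b * extend (k + 1) γ * (g b)⁻¹).toMatrix.map t = Q * dsum 1 B * Q⁻¹ := by
    intro γ hγ B hB
    have h2 : (g b * extend (k + 1) γ * (g b)⁻¹).toMatrix.map t =
        ((rhoT t (hybrid Γ g)).comp (embHyb Γ g b)) ⟨γ, hγ⟩ := rfl
    have h4 : ((⟨γ, hγ⟩ : Γ b) : SUGroup (k + 1)).toMatrix.map t =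
        dsum ν E * B * (dsum ν E)⁻¹ := hB
    rw [h2, rhoT_emb t Γ g b ⟨γ, hγ⟩, rhoT_apply, h4, hQ, Matrix.mul_inv_rev,
      dsum_inv' one_ne_zero hRu, inv_one]
    have h3 : dsum (1 : ℂ) (dsum ν E * B * (dsum ν E)⁻¹) =
        dsum 1 (dsum ν E) * dsum 1 B * dsum 1 (dsum ν E)⁻¹ := by
      rw [dsum_mul, dsum_mul, one_mul, one_mul]
    rw [h3]
    simp only [Matrix.mul_assoc]
  have hc : ∀ γ ∈ Γ' b, (g b * extend (k + 1) γ * (g b)⁻¹).toMatrix.map t =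
      Q * dsum 1 (γ.toMatrix.map s) * Q⁻¹ := fun γ hγ => htr γ (hle hγ) _ (hsmall γ hγ)
  obtain ⟨l, a, hl, ha, hFb⟩ := slice_form_rec (by omega) hcocb (rhoT s (Γ' b))
    (span_rhoT _ _ (span_top (by omega) _ hL')) hS hSp
    (fun γ w hw => hSe (Subgroup.inclusion hle γ) w hw) hQu (hF.hyp (g b)) (hFp.comp_hyp (g b))
    (((rhoT t (hybrid Γ g)).comp (embHyb Γ g b)).comp (Subgroup.inclusion hle))
    (fun γ => hc γ γ.2) (fun γ w hw => hFe.hyp b (Subgroup.inclusion hle γ) w hw)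
  refine ⟨ν, E, l, a, hν0, hEu, hl, ha, hFb, hc, ?_⟩
  intro γ hγ
  obtain ⟨χ, hχ⟩ := wide_scalar (by omega) hL' hle hfin t s hRu hsmall γ hγ
  have h1 := htr γ hγ _ hχ
  refine ⟨χ, ?_, h1⟩
  clear_value Q
  have hb := base_mem (k + 1)
  have h2 : F (HM.hyp (g b) (act γ (base (k + 1)))) =
      (g b * extend (k + 1) γ * (g b)⁻¹).toMatrix.map t * F (HM.hyp (g b) (base (k + 1))) *
      ((g b * extend (k + 1) γ * (g b)⁻¹).toMatrix.map t)ᴴ :=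
    hFe.hyp b ⟨γ, hγ⟩ (base (k + 1)) hb
  have h3 : S (act γ (base (k + 1))) =
      γ.toMatrix.map s * S (base (k + 1)) * (γ.toMatrix.map s)ᴴ := hSe ⟨γ, hγ⟩ _ hb
  rw [hFb _ (act_mem γ hb), hFb _ hb, h1] at h2
  have e1 : Q⁻¹ * Q = 1 := nonsing_inv_mul _ ((isUnit_iff_isUnit_det _).1 hQu)
  have e2 : Qᴴ * (Q⁻¹)ᴴ = 1 := by rw [← conjTranspose_mul, e1, conjTranspose_one]
  have h4 : Q * dsum l (a • S (act γ (base (k + 1)))) * Qᴴ =
      Q * dsum l ((χ * star χ * a) • S (act γ (base (k + 1)))) * Qᴴ := by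
    rw [h2]
    calc Q * dsum 1 (χ • γ.toMatrix.map s) * Q⁻¹ * (Q * dsum l (a • S (base (k + 1))) * Qᴴ) *
          (Q * dsum 1 (χ • γ.toMatrix.map s) * Q⁻¹)ᴴ
        = Q * (dsum 1 (χ • γ.toMatrix.map s) * (Q⁻¹ * Q) * dsum l (a • S (base (k + 1))) *
          (Qᴴ * (Q⁻¹)ᴴ) * (dsum 1 (χ • γ.toMatrix.map s))ᴴ) * Qᴴ := by
          rw [conjTranspose_mul, conjTranspose_mul]
          simp only [Matrix.mul_assoc]
      _ = _ := by
          rw [e1, e2, Matrix.mul_one, Matrix.mul_one, dsum_conjTranspose, dsum_mul, dsum_mul,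
            star_one, one_mul, mul_one, h3, conjTranspose_smul]
          simp only [Matrix.mul_smul, Matrix.smul_mul, smul_smul]
          congr 4
          ring
  have h5 := hQu.mul_left_cancel (((isUnit_conjTranspose _).2 hQu).mul_right_cancel h4)
  have h6 := (dsum_inj h5).2
  have hpd := hS.pos _ (act_mem γ hb)
  have h7 : (a - χ * star χ * a) • S (act γ (base (k + 1))) = 0 := by
    rw [sub_smul, h6, sub_self]
  rcases smul_eq_zero.1 h7 with h8 | h8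
  · have h9 : a * (1 - χ * star χ) = 0 := by linear_combination h8
    have h10 := (mul_eq_zero.1 h9).resolve_left ha.ne'
    linear_combination -h10
  · have h9 := hpd.isUnit
    rw [h8] at h9
    exact absurd h9 not_isUnit_zero

/-- The metric on the two hyperplanes, for an automorphism of the complex numbers which fixes the
first trace field but not the second. -/
theorem mix_data_rec (hk : 1 ≤ k) (Γ₃ : Subgroup (SUGroup k))
    (Γ Γ' : Fin 2 → Subgroup (SUGroup (k + 1))) (hle : ∀ b, Γ' b ≤ Γ b)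
    (hfin : ∀ b, (Γ' b).relIndex (Γ b) ≠ 0) (g : Fin 2 → SUGroup (k + 2))
    (h₃ : IsLattice Γ₃) (hL : ∀ b, IsLattice (Γ' b)) (hA : ∀ b, IsArithmetic (k + 1) (Γ' b))
    (hsub : ∀ b, ∀ γ ∈ Γ₃, extend k γ ∈ Γ' b)
    (hagree : ∀ γ ∈ Γ₃, g 0 * extend (k + 1) (extend k γ) * (g 0)⁻¹ =
      g 1 * extend (k + 1) (extend k γ) * (g 1)⁻¹)
    (hcocb : ∀ b, Rec (Γ' b)) (t : ℂ ≃+* ℂ) {F : Vec (k + 2) → Mat (k + 3)} (hF : HarmG F)
    (hFe : Equi (rhoT t (hybrid Γ g)) F) (ht0 : ∀ x ∈ traceField (Γ' 0), t x = x)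
    (ht1 : ¬ ∀ x ∈ traceField (Γ' 1), t x = x) :
    ∃ (X Y : Mat 2) (N : Mat (k + 1)) (Q : Mat (k + 3)) (ζ ν0 ν1 l0 a0 l1 a1 : ℂ), star ζ * ζ = 1 ∧ Xᴴ * X = 1 ∧
      (g 1).toMatrix = (g 0).toMatrix * (ζ • bsum X 1) ∧ ν0 ≠ 0 ∧ ν1 ≠ 0 ∧
      Y = t ζ • (!![1, 0; 0, ν0⁻¹] * X.map t * !![1, 0; 0, ν1]) ∧ IsUnit N ∧ IsUnit Q ∧
      IsUnit (Q * bsum Y N) ∧
      0 < l0 ∧ 0 < a0 ∧ 0 < l1 ∧ 0 < a1 ∧
      (∀ w ∈ Cone (k + 1), F (HM.hyp (g 0) w) = Q * dsum l0 (a0 • std w) * Qᴴ) ∧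
      (∀ w ∈ Cone (k + 1), F (HM.hyp (g 1) w) =
        (Q * bsum Y N) * dsum l1 (a1 • (std w).map cj) * (Q * bsum Y N)ᴴ) ∧
      (∀ γ ∈ Γ' 0, (g 0 * extend (k + 1) γ * (g 0)⁻¹).toMatrix.map t =
        Q * dsum 1 γ.toMatrix * Q⁻¹) ∧
      (∀ γ ∈ Γ' 1, (g 1 * extend (k + 1) γ * (g 1)⁻¹).toMatrix.map t =
        (Q * bsum Y N) * dsum 1 (γ.toMatrix.map cj) * (Q * bsum Y N)⁻¹) ∧
      (∀ γ ∈ Γ 0, ∃ χ : ℂ, χ * star χ = 1 ∧
        (g 0 * extend (k + 1) γ * (g 0)⁻¹).toMatrix.map t =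
          Q * dsum 1 (χ • γ.toMatrix) * Q⁻¹) ∧
      ∀ γ ∈ Γ 1, ∃ χ : ℂ, χ * star χ = 1 ∧
        (g 1 * extend (k + 1) γ * (g 1)⁻¹).toMatrix.map t =
          (Q * bsum Y N) * dsum 1 (χ • γ.toMatrix.map cj) * (Q * bsum Y N)⁻¹ := by
  obtain ⟨X, ζ, hζ, hX, hg⟩ := frame hk Γ₃ h₃ g hagree
  -- `t` is complex conjugation on the second field
  have ht1' : ∀ x ∈ traceField (Γ' 1), t x = cj x := by
    rcases piece_alt (by omega) (Γ' 1) (hL 1) (hA 1) t with h | h | ⟨C, hC⟩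
    · exact absurd h ht1
    · exact h
    · exfalso
      obtain ⟨γ, hγ, hlt⟩ := trace_unbounded hk Γ₃ h₃ (C + 1)
      have h1 := hC _ (hsub 1 γ hγ)
      have h2 : (extend k γ).toMatrix.trace ∈ traceField (Γ' 0) :=
        Subfield.subset_closure ⟨_, hsub 0 γ hγ, rfl⟩
      rw [ht0 _ h2, extend_toMatrix, trace_dsum] at h1
      have h3 : ‖γ.toMatrix.trace‖ ≤ ‖1 + γ.toMatrix.trace‖ + ‖(1 : ℂ)‖ := by
        calc ‖γ.toMatrix.trace‖ = ‖(1 + γ.toMatrix.trace) - 1‖ := by rw [add_sub_cancel_left]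
          _ ≤ _ := norm_sub_le _ _
      rw [norm_one] at h3
      linarith
  obtain ⟨μ0, D0, hμ0, hD0, hrat0⟩ := piece_frame hk Γ₃ h₃ (Γ' 0) (hL 0) (hA 0) (hsub 0)
  obtain ⟨μ1, D1, hμ1, hD1, hrat1⟩ := piece_frame hk Γ₃ h₃ (Γ' 1) (hL 1) (hA 1) (hsub 1)
  obtain ⟨ν0, E0, l0, a0, hν0, hE0, hl0, ha0, hF0, hc0, hw0⟩ := slice_data_rec Γ Γ' g 0 (hle 0)
    (hL 0) (hfin 0) (hcocb 0) hμ0 hD0 hrat0 t (RingEquiv.refl ℂ) t (fun x => rfl)
    (fun x => ht0 x x.2) harm_std pol_std_inv (equi_std_refl (Γ 0)) hF.toHarm hF.gr hFe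
  obtain ⟨ν1, E1, l1, a1, hν1, hE1, hl1, ha1, hF1, hc1, hw1⟩ := slice_data_rec Γ Γ' g 1 (hle 1)
    (hL 1) (hfin 1) (hcocb 1) hμ1 hD1 hrat1 t cj (t.trans cj)
    (fun x => (Complex.conj_conj (t x)).symm)
    (fun x => by
      show cj (t (x : ℂ)) = x
      rw [ht1' x x.2]
      exact Complex.conj_conj _) harm_std.cj pol_std_cj_inv (equi_std_cj (Γ 1)) hF.toHarm hF.gr hFe
  have hE0d : E0.det ≠ 0 := ((isUnit_iff_isUnit_det E0).1 hE0).ne_zero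
  have hR0 : IsUnit (dsum ν0 E0) := by
    rw [isUnit_iff_isUnit_det, det_dsum, isUnit_iff_ne_zero]
    exact mul_ne_zero hν0 hE0d
  set Q0 : Mat (k + 3) := (g 0).toMatrix.map t * dsum 1 (dsum ν0 E0) with hQ0
  have hQ0u : IsUnit Q0 := by
    refine (tm_gp_unit t (g 0)).mul ?_
    rw [isUnit_iff_isUnit_det, det_dsum, one_mul]
    exact (isUnit_iff_isUnit_det _).1 hR0
  have hζ00 : ζ ≠ 0 := by
    intro h
    rw [h, mul_zero] at hζ
    exact zero_ne_one hζ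
  have hζ0 : t ζ ≠ 0 := (map_ne_zero t).2 hζ00
  set Y : Mat 2 := t ζ • (!![1, 0; 0, ν0⁻¹] * X.map t * !![1, 0; 0, ν1]) with hY
  set N : Mat (k + 1) := t ζ • (E0⁻¹ * E1) with hN
  have hNu : IsUnit N := by
    have h1 : N = (t ζ • (1 : Mat (k + 1))) * (E0⁻¹ * E1) := by
      rw [Matrix.smul_mul, Matrix.one_mul]
    have h2 : IsUnit (t ζ • (1 : Mat (k + 1))) := by
      refine IsUnit.of_mul_eq_one ((t ζ)⁻¹ • (1 : Mat (k + 1))) ?_
      rw [Matrix.smul_mul, Matrix.mul_smul, smul_smul, mul_inv_cancel₀ hζ0, one_smul,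
        Matrix.one_mul]
    rw [h1]
    exact h2.mul ((isUnit_nonsing_inv_iff.2 hE0).mul hE1)
  have hQ1 : (g 1).toMatrix.map t * dsum 1 (dsum ν1 E1) = Q0 * bsum Y N := by
    rw [hQ0, hg, tm_mul, tm_smul, tm_bsum, tm_one, dsum_dsum, dsum_dsum, Matrix.mul_assoc,
      Matrix.mul_assoc]
    congr 1
    rw [Matrix.smul_mul, bsum_mul, bsum_mul, smul_bsum]
    congr 1
    · rw [hY, Matrix.mul_smul, ← Matrix.mul_assoc, ← Matrix.mul_assoc]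
      have h4 : (!![1, 0; 0, ν0] : Mat 2) * !![1, 0; 0, ν0⁻¹] = 1 := by
        rw [Matrix.mul_fin_two, Matrix.one_fin_two]
        simp [hν0]
      rw [h4, Matrix.one_mul]
    · rw [Matrix.one_mul, hN, Matrix.mul_smul, ← Matrix.mul_assoc,
        mul_nonsing_inv _ ((isUnit_iff_isUnit_det E0).1 hE0), Matrix.one_mul]
  have hQ1u : IsUnit (Q0 * bsum Y N) := by
    rw [← hQ1]
    refine (tm_gp_unit t (g 1)).mul ?_
    rw [isUnit_iff_isUnit_det, det_dsum, one_mul, det_dsum, isUnit_iff_ne_zero]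
    exact mul_ne_zero hν1 ((isUnit_iff_isUnit_det E1).1 hE1).ne_zero
  have hrefl : ∀ A : Mat (k + 2), A.map (RingEquiv.refl ℂ) = A := by
    intro A
    ext i j
    simp
  rw [hQ1] at hF1 hc1 hw1
  simp only [hrefl] at hc0 hw0
  exact ⟨X, Y, N, Q0, ζ, ν0, ν1, l0, a0, l1, a1, hζ, hX, hg, hν0, hν1, hY, hNu, hQ0u, hQ1u,
    hl0, ha0, hl1, ha1, hF0, hF1, hc0, hc1, hw0, hw1⟩

end Pool.Agent.Lib.MP_5d4057_al.RC
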