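import Pool.Agent.Lib.MP_5d4057_al.RC.Slice
import Pool.Agent.Lib.MP_5d4057_al.HM.AppNorm
import Pool.Agent.Lib.MP_5d4057_al.HM.BochCE

/-! The normal derivative of a metric of polynomial growth. -/

set_option autoImplicit false

namespace Pool.Agent.Lib.MP_5d4057_al.RC

open Matrix Filter Topology Pool.Agent.Lib.MP_5d4057_al
  Pool.Agent.Lib.MP_5d4057_al.Hyb Pool.Agent.Lib.MP_5d4057_al.HM

open scoped ComplexOrder MatrixOrder Matrix.Norms.L2Operator

variable {n m j : ℕ}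

theorem pol_id : Pol fun w : Vec n => w :=
  ⟨1, 2, by norm_num, fun g => by rw [pow_one]; exact bc_norm_orbit_le g⟩

/-- Bilinear images. -/
theorem Pol.bilin {E F G : Type} [NormedAddCommGroup E] [NormedSpace ℂ E] [NormedAddCommGroup F]
    [NormedSpace ℂ F] [NormedAddCommGroup G] [NormedSpace ℂ G] (B : E →L[ℂ] F →L[ℂ] G)
    {f : Vec n → E} {f' : Vec n → F} (hf : Pol f) (hf' : Pol f') :
    Pol fun v => B (f v) (f' v) := by
  obtain ⟨N, C, hC, h1⟩ := hf
  obtain ⟨N', C', hC', h2⟩ := hf'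
  refine ⟨N + N', ‖B‖ * C * C', by positivity, fun g => ?_⟩
  have h3 := one_le_ch g
  calc ‖B (f (act g (base n))) (f' (act g (base n)))‖
      ≤ ‖B‖ * ‖f (act g (base n))‖ * ‖f' (act g (base n))‖ := B.le_opNorm₂ _ _
    _ ≤ ‖B‖ * (C * ch g ^ N) * (C' * ch g ^ N') := by
        have h4 : 0 ≤ ‖B‖ := norm_nonneg B
        have h5 : 0 ≤ ‖B‖ * (C * ch g ^ N) := by positivity
        exact mul_le_mul (mul_le_mul_of_nonneg_left (h1 g) h4) (h2 g) (norm_nonneg _) h5
    _ = ‖B‖ * C * C' * ch g ^ (N + N') := by rw [pow_add]; ring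

/-- Growth of the normal derivative. -/
theorem pol_NN {G : Vec (j + 1) → Mat (j + 2)} (hD : Pol (fun v => fderiv ℝ G v)) :
    Pol (NN G) := by
  have h1 : Pol fun w : Vec j => fderiv ℝ G (inc j w) := hD.comp_inc
  refine h1.of_le (norm_nonneg (nrm j)) fun g => ?_
  set v := inc j (act g (base j)) with hv
  show ‖pz G v (nrm j)‖ ≤ ‖nrm j‖ * ‖fderiv ℝ G v‖
  rw [pz]
  have e1 : ‖(1 / 2 : ℂ)‖ = 1 / 2 := by norm_num
  have h2 : ‖fderiv ℝ G v (nrm j)‖ ≤ ‖fderiv ℝ G v‖ * ‖nrm j‖ :=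
    (fderiv ℝ G v).le_opNorm _
  have h3 : ‖fderiv ℝ G v (Complex.I • nrm j)‖ ≤ ‖fderiv ℝ G v‖ * ‖nrm j‖ := by
    refine ((fderiv ℝ G v).le_opNorm _).trans ?_
    rw [norm_smul, Complex.norm_I, one_mul]
  calc ‖(1 / 2 : ℂ) • (fderiv ℝ G v (nrm j) -
        Complex.I • fderiv ℝ G v (Complex.I • nrm j))‖
      = 1 / 2 * ‖fderiv ℝ G v (nrm j) - Complex.I • fderiv ℝ G v (Complex.I • nrm j)‖ := by
        rw [norm_smul, e1]
    _ ≤ 1 / 2 * (‖fderiv ℝ G v (nrm j)‖ + ‖fderiv ℝ G v (Complex.I • nrm j)‖) := by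
        have h4 := norm_sub_le (fderiv ℝ G v (nrm j))
          (Complex.I • fderiv ℝ G v (Complex.I • nrm j))
        rw [norm_smul, Complex.norm_I, one_mul] at h4
        linarith
    _ ≤ 1 / 2 * (‖fderiv ℝ G v‖ * ‖nrm j‖ + ‖fderiv ℝ G v‖ * ‖nrm j‖) := by linarith
    _ = _ := by ring

theorem pol_pv {G : Vec (j + 1) → Mat (j + 2)} (hD : Pol (fun v => fderiv ℝ G v)) :
    Pol (pv G) :=
  Pol.bilin (pB j) (pol_NN hD) pol_id

/-- Regularity of the normal derivative. -/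
theorem contDiff_NN {G : Vec (j + 1) → Mat (j + 2)} (hG : ContDiffOn ℝ 2 G (Cone (j + 1))) :
    ContDiffOn ℝ 1 (NN G) (Cone j) := by
  have h1 : ContDiffOn ℝ 1 (fderiv ℝ G) (Cone (j + 1)) :=
    hG.fderiv_of_isOpen (isOpen_cone _) (by rw [one_add_one_eq_two])
  have h2 : ContDiffOn ℝ 1 (fun w => fderiv ℝ G (inc j w)) (Cone j) :=
    h1.comp (((inc j).restrictScalars ℝ).contDiff.contDiffOn) fun w hw => inc_mem hw
  exact ((h2.clm_apply contDiffOn_const).sub
    ((h2.clm_apply contDiffOn_const).const_smul Complex.I)).const_smul (1 / 2 : ℂ)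

theorem contDiff_pv {G : Vec (j + 1) → Mat (j + 2)} (hG : ContDiffOn ℝ 2 G (Cone (j + 1))) :
    ContDiffOn ℝ 1 (pv G) (Cone j) := by
  have h0 : ContDiff ℂ 1 (fun p : Mat (j + 2) × Vec j => pB j p.1 p.2) :=
    (pB j).isBoundedBilinearMap.contDiff
  have h1 : ContDiff ℝ 1 (fun p : Mat (j + 2) × Vec j => pB j p.1 p.2) := h0.restrict_scalars ℝ
  have h3 : ContDiffOn ℝ 1 (fun w : Vec j => (NN G w, w)) (Cone j) :=
    (contDiff_NN hG).prodMk contDiffOn_id
  have h2 : ContDiffOn ℝ 1 (fun w : Vec j => pB j (NN G w) w) (Cone j) :=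
    h1.comp_contDiffOn (f := fun w : Vec j => (NN G w, w)) h3
  refine h2.congr fun w _ => ?_
  rw [pB_apply, pv]

variable {Γ : Subgroup (SUGroup j)} {G : Vec (j + 1) → Mat (j + 2)} {l a : ℂ}

/-- F3: the normal derivative along the hyperplane. -/
theorem nrm_all_rec (P : Pce j Γ G l a) (hj : 1 ≤ j) (hΓ : Rec Γ)
    (hD : Pol (fun v => fderiv ℝ G v)) :
    ∃ p : ℂ, ∀ w ∈ Cone j,
      NN G w = (-(q w : ℂ)⁻¹ * p) • vecMulVec (nrm j) (star (inc j w)) := by
  have hc := contDiff_pv P.harm.cd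
  have hpol := pol_pv hD
  have hy : ∀ w ∈ Cone j, tl j (pv G w) = 0 := by
    refine sec_zero_rec hΓ (y := fun w => tl j (pv G w)) ?_ ?_ ?_ ?_ ?_ ?_
    · exact ((tl j).restrictScalars ℝ).contDiff.comp_contDiffOn hc
    · intro c hc w hw
      show tl j (pv G (c • w)) = tl j (pv G w)
      rw [P.pv_homog c hc w hw]
    · intro γ hγ w hw
      show tl j (pv G (act γ w)) = act γ (tl j (pv G w))
      rw [P.pv_act hγ hw, (act_extend_hd γ _).2]
    · intro w hw
      show herm w (tl j (pv G w)) = 0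
      rw [← herm_inc_tl]
      exact (P.normal hj hw).1
    · intro w hw η
      show pb (fun w => tl j (pv G w)) w η = -((herm η (tl j (pv G w)) / (q w : ℂ)) • w)
      rw [((P.pb_pv hj hw η).clm (tl j)).pb, map_neg, map_smul, tl_inc, herm_inc_tl]
    · exact hpol.clm ((tl j).restrictScalars ℝ)
  have hp : ∀ w ∈ Cone j, hd0 j (pv G w) = hd0 j (pv G (base j)) := by
    refine hol_const_rec (f := fun w => hd0 j (pv G w)) hΓ ?_ ?_ ?_ ?_ ?_
    · exact ((hd0 j).restrictScalars ℝ).contDiff.comp_contDiffOn hc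
    · intro w hw η
      rw [((P.pb_pv hj hw η).clm (hd0 j)).pb, map_neg, map_smul, hd0_apply, inc_zero, smul_zero,
        neg_zero]
    · intro c hc w hw
      show hd0 j (pv G (c • w)) = hd0 j (pv G w)
      rw [P.pv_homog c hc w hw]
    · intro γ hγ w hw
      show hd0 j (pv G (act γ w)) = hd0 j (pv G w)
      rw [P.pv_act hγ hw, (act_extend_hd γ _).1]
    · exact hpol.clm ((hd0 j).restrictScalars ℝ)
  refine ⟨hd0 j (pv G (base j)), fun w hw => ?_⟩
  rw [(P.normal hj hw).2]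
  have h2 : pv G w = hd0 j (pv G (base j)) • nrm j := by
    conv_lhs => rw [eq_cons (pv G w), hy _ hw, hp _ hw]
    rw [nrm]
    ext i
    refine Fin.cases ?_ (fun i => ?_) i <;> simp
  rw [h2]
  ext i i'
  simp only [vecMulVec_apply, Pi.smul_apply, Matrix.smul_apply, smul_eq_mul]
  ring

end Pool.Agent.Lib.MP_5d4057_al.RC
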