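import Pool.Agent.Lib.MP_5d4057_al.NU.VanN
import Pool.Agent.Lib.MP_5d4057_al.NU.ThmL
import Pool.Agent.Lib.MP_5d4057_al.RC.Defs
import Pool.Agent.Lib.MP_5d4057_al.HM.AppOrthA

/-! The vanishing property for lattices. -/

set_option autoImplicit false

namespace Pool.Agent.Lib.MP_5d4057_al.RC

open Matrix MeasureTheory Filter Topology Pool.Agent.Lib.MP_5d4057_al
  Pool.Agent.Lib.MP_5d4057_al.Hyb Pool.Agent.Lib.MP_5d4057_al.HM
  Pool.Agent.Lib.MP_5d4057_al.NU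

open scoped ComplexOrder MatrixOrder Matrix.Norms.L2Operator

variable {n m j k : ℕ}

/-- Sections of `T ⊗ L²` of polynomial growth vanish. -/
def Van (Γ : Subgroup (SUGroup n)) : Prop :=
  ∀ β : Vec n → Vec n, Sec Γ β → Pol β → ∀ v ∈ Cone n, β v = 0

theorem sec_mono {Γ Γ' : Subgroup (SUGroup n)} {β : Vec n → Vec n} (h : Sec Γ β)
    (hle : Γ' ≤ Γ) : Sec Γ' β where
  cd := h.cd
  hom := h.hom
  equi := fun γ hγ => h.equi γ (hle hγ)
  orth := h.orth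
  pb := h.pb

theorem van_of_coc (hn : 2 ≤ n) {Γ : Subgroup (SUGroup n)} (h : Coc Γ) : Van Γ :=
  fun _ hβ _ => hβ.zero hn h

theorem van_of_lattice (hn : 2 ≤ n) {Γ : Subgroup (SUGroup n)} (hL : IsLattice Γ)
    (hf : FGG Γ) : Van Γ := by
  intro β hβ hg
  obtain ⟨N, C, -, hg⟩ := hg
  obtain ⟨χ, hχ⟩ := exists_lat hL
  obtain ⟨Γ', hle, hfi, -, hTor⟩ := exists_tor hf
  obtain ⟨χ', hχ'⟩ := hχ.finite_index hle hfi
  exact Sec.zero_lat (sec_mono hβ hle) hn hχ'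
    (htt_hty hn hχ' (tf_of_tor hχ'.disc hTor) hTor) (by norm_num) hg

variable {Γ : Subgroup (SUGroup j)} {G : Vec (j + 1) → Mat (j + 2)} {l a : ℂ}

/-- The normal derivative vanishes in the normal direction. -/
theorem pco_zero (P : Pco j Γ G l a) (hV : Van Γ) (hg : Pol (bt G)) {w : Vec j}
    (hw : w ∈ Cone j) : NN G w *ᵥ nrm j = 0 := by
  rw [(P.col hw).2, hV _ P.sec hg w hw, map_zero]

end Pool.Agent.Lib.MP_5d4057_al.RC
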