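import Pool.Agent.Lib.MP_5d4057_al.RC.Mix
import Pool.Agent.Lib.MP_5d4057_al.RC.Van
import Pool.Agent.Lib.MP_5d4057_al.RC.Nrm
import Pool.Agent.Lib.MP_5d4057_al.HM.AppOrth

/-! The trace fields of the pieces of a hybrid lattice agree. -/

set_option autoImplicit false

namespace Pool.Agent.Lib.MP_5d4057_al.RC

open Matrix Filter Topology Pool.Agent.Lib.MP_5d4057_al
  Pool.Agent.Lib.MP_5d4057_al.Hyb Pool.Agent.Lib.MP_5d4057_al.HM

open scoped ComplexOrder MatrixOrder Matrix.Norms.L2Operator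

variable {n m j k : ℕ}

/-- The symmetry of a metric which preserves an invariant form at one point. -/
theorem refl_of_base_rec (hn : 1 ≤ n) {Γ : Subgroup (SUGroup n)} (hΓ : Rec Γ)
    {ρ : Γ →* Mat m} {F : Vec n → Mat m} (hF : Harm F) (hFp : Pol fun v => (F v)⁻¹) (hFe : Equi ρ F) {N : Mat m}
    (hNu : IsUnit N) (hNh : Nᴴ = N) (hρu : ∀ γ, IsUnit (ρ γ))
    (hNinv : ∀ γ, ρ γ * N * (ρ γ)ᴴ = N) {v₀ : Vec n} (hv₀ : v₀ ∈ Cone n)
    (h0 : N * (F v₀)⁻¹ * N = F v₀) : ∀ v ∈ Cone n, N * (F v)⁻¹ * N = F v := by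
  have hF' : Harm fun v => N * (F v)⁻¹ * N := by
    have := hF.inv.congr hNu
    rwa [hNh] at this
  refine eq_of_unique_rec hn hΓ hF hF' hFe ?_ hFp (hFp.conj N N) hv₀ h0
  intro γ v hv
  show N * (F (act (γ : SUGroup n) v))⁻¹ * N = ρ γ * (N * (F v)⁻¹ * N) * (ρ γ)ᴴ
  rw [hFe γ v hv]
  have hd := (isUnit_iff_isUnit_det _).1 (hρu γ)
  have hi := hNinv γ
  set A := ρ γ with hA
  have e1 : A⁻¹ * A = 1 := nonsing_inv_mul _ hd
  have hd' := (isUnit_iff_isUnit_det _).1 ((isUnit_conjTranspose A).2 (hρu γ))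
  have e2 : Aᴴ * Aᴴ⁻¹ = 1 := mul_nonsing_inv _ hd'
  have i1 : N * Aᴴ⁻¹ = A * N := by
    calc N * Aᴴ⁻¹ = (A * N * Aᴴ) * Aᴴ⁻¹ := by rw [hi]
      _ = A * N * (Aᴴ * Aᴴ⁻¹) := by simp only [Matrix.mul_assoc]
      _ = _ := by rw [e2, Matrix.mul_one]
  have i2 : A⁻¹ * N = N * Aᴴ := by
    calc A⁻¹ * N = A⁻¹ * (A * N * Aᴴ) := by rw [hi]
      _ = (A⁻¹ * A) * N * Aᴴ := by simp only [Matrix.mul_assoc]
      _ = _ := by rw [e1, Matrix.one_mul]
  rw [Matrix.mul_inv_rev, Matrix.mul_inv_rev]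
  calc N * (Aᴴ⁻¹ * ((F v)⁻¹ * A⁻¹)) * N = (N * Aᴴ⁻¹) * (F v)⁻¹ * (A⁻¹ * N) := by
        simp only [Matrix.mul_assoc]
    _ = _ := by rw [i1, i2]; simp only [Matrix.mul_assoc]

/-- The mixed case is impossible if the intertwiner reverses the form. -/
theorem mix_absurd_rec (hk : 1 ≤ k) {Γ Γ' : Fin 2 → Subgroup (SUGroup (k + 1))}
    (hle : ∀ b, Γ' b ≤ Γ b) {g : Fin 2 → SUGroup (k + 2)} (hR : Rec (hybrid Γ g))
    (hV : Van (Γ' 0))
    {t : ℂ ≃+* ℂ} {X Y : Mat 2} {N s : Mat (k + 1)} {Q : Mat (k + 3)}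
    {ζ ν0 ν1 l0 a0 l1 a1 μ : ℂ} {F : Vec (k + 2) → Mat (k + 3)} (hζ : star ζ * ζ = 1)
    (hX : Xᴴ * X = 1) (hg : (g 1).toMatrix = (g 0).toMatrix * (ζ • bsum X 1)) (hν0 : ν0 ≠ 0)
    (hν1 : ν1 ≠ 0) (hY : Y = t ζ • (!![1, 0; 0, ν0⁻¹] * X.map t * !![1, 0; 0, ν1]))
    (hNu : IsUnit N) (hQu : IsUnit Q) (hQ1u : IsUnit (Q * bsum Y N)) (hl0 : 0 < l0)
    (ha0 : 0 < a0) (ha1 : 0 < a1) (hFG : HarmG F)
    (hFe : Equi (rhoT t (hybrid Γ g)) F)
    (hF0 : ∀ w ∈ Cone (k + 1), F (HM.hyp (g 0) w) = Q * dsum l0 (a0 • std w) * Qᴴ)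
    (hF1 : ∀ w ∈ Cone (k + 1), F (HM.hyp (g 1) w) =
      (Q * bsum Y N) * dsum l1 (a1 • (std w).map cj) * (Q * bsum Y N)ᴴ)
    (hc0 : ∀ γ ∈ Γ' 0, (g 0 * extend (k + 1) γ * (g 0)⁻¹).toMatrix.map t =
      Q * dsum 1 γ.toMatrix * Q⁻¹)
    (hw0 : ∀ γ ∈ Γ 0, ∃ χ : ℂ, χ * star χ = 1 ∧
      (g 0 * extend (k + 1) γ * (g 0)⁻¹).toMatrix.map t = Q * dsum 1 (χ • γ.toMatrix) * Q⁻¹)
    (hw1 : ∀ γ ∈ Γ 1, ∃ χ : ℂ, χ * star χ = 1 ∧
      (g 1 * extend (k + 1) γ * (g 1)⁻¹).toMatrix.map t =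
        (Q * bsum Y N) * dsum 1 (χ • γ.toMatrix.map cj) * (Q * bsum Y N)⁻¹)
    (hs1 : s * sᴴ = 1) (hs2 : s * J k * sᴴ = -J k) (hN : N = μ • s) : False := by
  have hF : Harm F := hFG.toHarm
  have hd := (isUnit_iff_isUnit_det _).1 hQu
  have e1 : Q⁻¹ * Q = 1 := nonsing_inv_mul _ hd
  have e2 : Qᴴ * (Q⁻¹)ᴴ = 1 := by rw [← conjTranspose_mul, e1, conjTranspose_one]
  have hQi : IsUnit Q⁻¹ := isUnit_nonsing_inv_iff.2 hQu
  have hQc : IsUnit Qᴴ := (isUnit_conjTranspose _).2 hQu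
  have hζ00 : ζ ≠ 0 := by
    intro h
    rw [h, mul_zero] at hζ
    exact zero_ne_one hζ
  have hζ0 : t ζ ≠ 0 := (map_ne_zero t).2 hζ00
  set M : Mat (k + 3) := bsum Y N with hM
  set G : Vec (k + 2) → Mat (k + 3) := fun v => Q⁻¹ * F (act (g 0) v) * (Q⁻¹)ᴴ with hGdef
  have hG : Harm G :=
    (hF.comp (actC (g 0)) fun v hv => act_mem (g 0) hv).congr hQi
  have hXc : ∀ w ∈ Cone (k + 1), bsum X 1 *ᵥ inc (k + 1) w ∈ Cone (k + 2) := by
    intro w hw
    show q _ < 0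
    rw [q_bsum hX]
    exact inc_mem hw
  have hsl0 : ∀ w ∈ Cone (k + 1), G (inc (k + 1) w) = dsum l0 (a0 • std w) := by
    intro w hw
    show Q⁻¹ * F (HM.hyp (g 0) w) * (Q⁻¹)ᴴ = _
    rw [hF0 w hw]
    calc Q⁻¹ * (Q * dsum l0 (a0 • std w) * Qᴴ) * (Q⁻¹)ᴴ
        = (Q⁻¹ * Q) * dsum l0 (a0 • std w) * (Qᴴ * (Q⁻¹)ᴴ) := by
          simp only [Matrix.mul_assoc]
      _ = _ := by rw [e1, e2, Matrix.one_mul, Matrix.mul_one]
  have hsl1 : ∀ w ∈ Cone (k + 1), G (bsum X 1 *ᵥ inc (k + 1) w) =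
      M * dsum l1 (a1 • (std w).map cj) * Mᴴ := by
    intro w hw
    show Q⁻¹ * F (act (g 0) (bsum X 1 *ᵥ inc (k + 1) w)) * (Q⁻¹)ᴴ = _
    have h1 : HM.hyp (g 1) w = ζ • act (g 0) (bsum X 1 *ᵥ inc (k + 1) w) := by
      rw [hyp_apply, act, act, hg, ← mulVec_mulVec, smul_mulVec, mulVec_smul]
    have h2 := hF1 w hw
    rw [h1, hF.hom ζ hζ00 _ (act_mem _ (hXc w hw))] at h2
    rw [h2, conjTranspose_mul]
    calc Q⁻¹ * (Q * M * dsum l1 (a1 • (std w).map cj) * (Mᴴ * Qᴴ)) *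
          (Q⁻¹)ᴴ = (Q⁻¹ * Q) * M * dsum l1 (a1 • (std w).map cj) * Mᴴ *
          (Qᴴ * (Q⁻¹)ᴴ) := by simp only [Matrix.mul_assoc]
      _ = _ := by rw [e1, e2, Matrix.one_mul, Matrix.mul_one]
  -- the matrices are antidiagonal
  have hY11 : Y 1 1 = 0 := mix_core hG hl0 ha0 ha1 hNu hXc hsl0 hsl1
  have hYe : ∀ i j : Fin 2, Y i j = t ζ * ((if i = 0 then 1 else ν0⁻¹) * t (X i j) *
      (if j = 0 then 1 else ν1)) := by
    intro i j
    rw [hY, mix_entry]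
    rfl
  have hX11 : X 1 1 = 0 := by
    have h0 := hYe 1 1
    rw [hY11] at h0
    simp only [one_ne_zero, if_false] at h0
    have h1 := (mul_eq_zero.1 h0.symm).resolve_left hζ0
    have h2 := (mul_eq_zero.1 h1).resolve_right hν1
    have h3 := (mul_eq_zero.1 h2).resolve_left (inv_ne_zero hν0)
    exact (map_eq_zero t).1 h3
  have hXX : X * Xᴴ = 1 := mul_eq_one_comm.1 hX
  have hX10 : X 1 0 * star (X 1 0) = 1 := by
    have h1 := congrFun (congrFun hXX 1) 1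
    rw [Matrix.mul_apply, Fin.sum_univ_two, conjTranspose_apply, conjTranspose_apply, hX11,
      zero_mul, add_zero, one_apply_eq] at h1
    exact h1
  have hX01 : star (X 0 1) * X 0 1 = 1 := by
    have h1 := congrFun (congrFun hX 1) 1
    rw [Matrix.mul_apply, Fin.sum_univ_two, conjTranspose_apply, conjTranspose_apply, hX11,
      mul_zero, add_zero, one_apply_eq] at h1
    exact h1
  have hX00 : X 0 0 = 0 := by
    have h1 := congrFun (congrFun hX 0) 0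
    rw [Matrix.mul_apply, Fin.sum_univ_two, conjTranspose_apply, conjTranspose_apply,
      one_apply_eq, mul_comm (star (X 1 0)), hX10] at h1
    have h2 : star (X 0 0) * X 0 0 = 0 := by linear_combination h1
    rcases mul_eq_zero.1 h2 with h3 | h3
    · exact star_eq_zero.1 h3
    · exact h3
  have hX01' : X 0 1 ≠ 0 := by
    intro h
    rw [h, mul_zero] at hX01
    exact zero_ne_one hX01
  have hY00 : Y 0 0 = 0 := by
    rw [hYe, hX00, map_zero]
    ring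
  have hY01 : Y 0 1 ≠ 0 := by
    rw [hYe]
    simp only [if_true, one_ne_zero, if_false, one_mul]
    exact mul_ne_zero hζ0 (mul_ne_zero ((map_ne_zero t).2 hX01') hν1)
  -- comparison at the base point
  have hb : base (k + 1) ∈ Cone (k + 1) := base_mem _
  have hcjone : (1 : Mat (k + 2)).map cj = 1 := tm_one cj
  have hb0 := hF0 _ hb
  have hb1 := hF1 _ hb
  rw [std_base] at hb0 hb1
  rw [hcjone] at hb1
  have hcmp : dsum l0 (a0 • (1 : Mat (k + 2))) = M * dsum l1 (a1 • (1 : Mat (k + 2))) * Mᴴ := by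
    rw [hyp_agree hζ hg hF.hom, hb0, conjTranspose_mul] at hb1
    have h3 : Q * (dsum l0 (a0 • (1 : Mat (k + 2)))) * Qᴴ = Q * (M *
        dsum l1 (a1 • (1 : Mat (k + 2))) * Mᴴ) * Qᴴ := by
      rw [hb1]
      simp only [Matrix.mul_assoc]
    exact hQu.mul_left_cancel (hQc.mul_right_cancel h3)
  have hone : (1 : Mat (k + 2)) = dsum 1 1 := dsum_one.symm
  rw [hone, smul_dsum, smul_dsum, dsum_dsum, dsum_dsum, hM, bsum_conjTranspose, bsum_mul,
    bsum_mul] at hcmp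
  obtain ⟨hcA, hcB⟩ := bsum_inj hcmp
  have hl0' : l0 = Y 0 1 * a1 * star (Y 0 1) := by
    have h1 := congrFun (congrFun hcA 0) 0
    simp only [Matrix.mul_apply, Fin.sum_univ_two, conjTranspose_apply, Matrix.of_apply,
      Matrix.cons_val', Matrix.cons_val_zero, Matrix.cons_val_one, Matrix.cons_val_fin_one,
      hY00] at h1
    rw [h1]
    ring
  have ha0' : a0 = Y 1 0 * l1 * star (Y 1 0) := by
    have h1 := congrFun (congrFun hcA 1) 1
    simp only [Matrix.mul_apply, Fin.sum_univ_two, conjTranspose_apply, Matrix.of_apply,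
      Matrix.cons_val', Matrix.cons_val_zero, Matrix.cons_val_one, Matrix.cons_val_fin_one,
      hY11] at h1
    linear_combination h1
  have ha0μ : a0 = μ * star μ * a1 := by
    rw [hN, conjTranspose_smul] at hcB
    simp only [Matrix.mul_smul, Matrix.smul_mul, Matrix.mul_one, hs1, smul_smul] at hcB
    have h1 := congrFun (congrFun hcB 0) 0
    simp only [Matrix.smul_apply, one_apply_eq, smul_eq_mul, mul_one] at h1
    linear_combination h1
  -- the invariant form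
  set D0 : Mat (k + 3) := dsum (-l0) (a0 • J (k + 1)) with hD0
  set D1 : Mat (k + 3) := dsum (-l1) (a1 • J (k + 1)) with hD1
  have hD01 : D0 = -(M * D1 * Mᴴ) := by
    have hZ : -(Y * !![-l1, 0; 0, a1] * Yᴴ) = !![-l0, 0; 0, a0] := by
      ext i i'
      fin_cases i <;> fin_cases i' <;>
        simp [Matrix.mul_apply, Fin.sum_univ_two, hY00, hY11]
      · rw [hl0']
        rfl
      · rw [ha0']
        rfl
    have hW : -(N * (a1 • J k) * Nᴴ) = a0 • J k := by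
      rw [hN, conjTranspose_smul]
      simp only [Matrix.mul_smul, Matrix.smul_mul, hs2, smul_smul, smul_neg, neg_neg]
      congr 1
      rw [ha0μ]
      ring
    rw [hD0, hD1, hM, J_succ, smul_dsum, smul_dsum, dsum_dsum, dsum_dsum, bsum_conjTranspose,
      bsum_mul, bsum_mul, ← neg_one_smul ℂ (bsum _ _), smul_bsum, neg_one_smul, neg_one_smul,
      mul_one, mul_one, hZ, hW]
  set Nf : Mat (k + 3) := Q * D0 * Qᴴ with hNf
  have hNf1 : Nf = -((Q * M) * D1 * (Q * M)ᴴ) := by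
    rw [hNf, hD01, conjTranspose_mul]
    simp only [Matrix.mul_assoc, Matrix.mul_neg, Matrix.neg_mul]
  have hDu : D0 * dsum (-l0)⁻¹ (a0⁻¹ • J (k + 1)) = 1 := by
    rw [hD0, dsum_mul, Matrix.smul_mul, Matrix.mul_smul, J_J, smul_smul,
      mul_inv_cancel₀ (neg_ne_zero.2 hl0.ne'), mul_inv_cancel₀ ha0.ne', one_smul, dsum_one]
  have hNfu : IsUnit Nf := (hQu.mul (IsUnit.of_mul_eq_one _ hDu)).mul hQc
  have hNfh : Nfᴴ = Nf := by
    rw [hNf, conjTranspose_mul, conjTranspose_mul, conjTranspose_conjTranspose, hD0,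
      dsum_conjTranspose, conjTranspose_smul, J_herm, star_neg, real_of_pos hl0, real_of_pos ha0,
      Matrix.mul_assoc]
  have hinv : ∀ x ∈ hybrid Γ g, x.toMatrix.map t * Nf * (x.toMatrix.map t)ᴴ = Nf := by
    refine hyb_inv t Γ g ?_
    rw [Fin.forall_fin_two]
    constructor
    · intro γ hγ
      obtain ⟨χ, hχ, hχγ⟩ := hw0 γ hγ
      rw [hχγ, hNf]
      refine conj_form hQu ?_
      rw [hD0, dsum_conjTranspose, dsum_mul, dsum_mul, conjTranspose_smul]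
      simp only [Matrix.mul_smul, Matrix.smul_mul, smul_smul, mul_J_mul, star_one, one_mul,
        mul_one]
      congr 2
      linear_combination a0 * hχ
    · intro γ hγ
      obtain ⟨χ, hχ, hχγ⟩ := hw1 γ hγ
      rw [hχγ, hNf1, Matrix.mul_neg, Matrix.neg_mul]
      refine neg_inj.2 (conj_form hQ1u ?_)
      have h1 : γ.toMatrix.map cj * J (k + 1) * (γ.toMatrix.map cj)ᴴ = J (k + 1) := by
        rw [cj_ct]
        nth_rewrite 1 [← J_cj (n := k + 1)]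
        rw [← tm_mul, ← tm_mul, mul_J_mul, J_cj]
      rw [hD1, dsum_conjTranspose, dsum_mul, dsum_mul, conjTranspose_smul]
      simp only [Matrix.mul_smul, Matrix.smul_mul, smul_smul, h1, star_one, one_mul,
        mul_one]
      congr 2
      linear_combination a1 * hχ
  have hrefl : ∀ v ∈ Cone (k + 2), Nf * (F v)⁻¹ * Nf = F v := by
    refine refl_of_base_rec (by omega) hR hF hFG.grInv hFe hNfu hNfh
      (fun γ => tm_gp_unit t (γ : SUGroup (k + 2))) (fun γ => hinv γ γ.2)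
      (hyp_mem (g 0) hb) ?_
    rw [hb0, hNf, conj_refl hQu]
    refine congrArg (fun A : Mat (k + 3) => Q * A * Qᴴ) ?_
    have h1u : IsUnit (a0 • (1 : Mat (k + 2))) := smul_unit ha0.ne' isUnit_one
    rw [dsum_inv' hl0.ne' h1u, smul_matInv ha0.ne' isUnit_one, inv_one, hD0, dsum_mul, dsum_mul]
    simp only [Matrix.mul_smul, Matrix.smul_mul, smul_smul, Matrix.mul_one, J_J]
    congr 1
    · have := hl0.ne'
      field_simp
    · have := ha0.ne'
      congr 1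
      field_simp
  -- the metric near the first hyperplane
  have hP : Pco (k + 1) (Γ' 0) G l0 a0 := by
    refine ⟨hG, hl0, ha0, hsl0, ?_, ?_⟩
    · intro v hv
      have h1 := hrefl _ (act_mem (g 0) hv)
      have h2 : D0 = Q⁻¹ * Nf * (Q⁻¹)ᴴ := by
        rw [hNf]
        calc D0 = (Q⁻¹ * Q) * D0 * (Qᴴ * (Q⁻¹)ᴴ) := by
              rw [e1, e2, Matrix.one_mul, Matrix.mul_one]
          _ = _ := by simp only [Matrix.mul_assoc]
      show D0 * (Q⁻¹ * F (act (g 0) v) * (Q⁻¹)ᴴ)⁻¹ * D0 = _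
      rw [h2, conj_refl hQi, h1]
    · intro γ hγ v hv
      show Q⁻¹ * F (act (g 0) (act (extend (k + 1) γ) v)) * (Q⁻¹)ᴴ = _
      have h1 : act (g 0) (act (extend (k + 1) γ) v) =
          act (g 0 * extend (k + 1) γ * (g 0)⁻¹) (act (g 0) v) := by
        rw [← act_mul, ← act_mul, inv_mul_cancel_right]
      have h2 : F (act (g 0 * extend (k + 1) γ * (g 0)⁻¹) (act (g 0) v)) =
          (g 0 * extend (k + 1) γ * (g 0)⁻¹).toMatrix.map t * F (act (g 0) v) *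
          ((g 0 * extend (k + 1) γ * (g 0)⁻¹).toMatrix.map t)ᴴ :=
        hFe (embHyb Γ g 0 ⟨γ, hle 0 hγ⟩) (act (g 0) v) (act_mem _ hv)
      rw [h1, h2, hc0 γ hγ, conjTranspose_mul, conjTranspose_mul]
      have h5 : ∀ A : Mat (k + 3), Q⁻¹ * (Q * A) = A := fun A => by
        rw [← Matrix.mul_assoc, e1, Matrix.one_mul]
      simp only [hGdef, Matrix.mul_assoc, h5]
      rw [e2, Matrix.mul_one]
  -- contradiction
  have hGG : HarmG G := hFG.pre (g 0) hQi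
  have hbt : Pol (bt G) :=
    (pol_NN hGG.grD).clm ((btL (k + 1)).restrictScalars ℝ)
  have hz : pz G (base (k + 2)) (nrm (k + 1)) *ᵥ nrm (k + 1) = 0 := by
    have h1 := pco_zero hP hV hbt hb
    rwa [NN, inc_base] at h1
  have h1 := mix_slice1 hG hXc hsl1
  have h2 : bsum X 1 *ᵥ inc (k + 1) (Pi.single 0 1) = X 0 1 • nrm (k + 1) := by
    have h3 : inc (k + 1) (Pi.single 0 1) = Fin.cons 0 (Fin.cons 1 0) := by
      ext i
      refine Fin.cases ?_ (fun i => Fin.cases ?_ (fun i => ?_) i) i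
      · rfl
      · rw [inc_succ]
        simp
      · rw [inc_succ, Pi.single_eq_of_ne (Fin.succ_ne_zero i)]
        rfl
    rw [h3, bsum_mulVec_cons, hX11, nrm]
    ext i
    refine Fin.cases ?_ (fun i => Fin.cases ?_ (fun i => ?_) i) i <;> simp
  rw [h2, pz_smul_dir] at h1
  have h3 := congrArg (fun A : Mat (k + 3) => A *ᵥ nrm (k + 1)) h1
  simp only [smul_mulVec, hz, smul_zero, ← mulVec_mulVec, vmv] at h3
  have h4 : inc (k + 1) (Pi.single 0 1) ⬝ᵥ Mᴴ *ᵥ nrm (k + 1) = star (Y 0 1) := by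
    have h5 : inc (k + 1) (Pi.single 0 1) = (Pi.single 1 1 : Vec (k + 2)) := by
      ext i
      refine Fin.cases ?_ (fun i => ?_) i
      · rw [inc_zero, Pi.single_eq_of_ne]
        exact Fin.zero_ne_one
      · rw [inc_succ, ← Fin.succ_zero_eq_one, Pi.single_apply, Pi.single_apply]
        simp only [Fin.succ_inj]
    have h6 : nrm (k + 1) = (Pi.single 0 1 : Vec (k + 2)) := by
      ext i
      refine Fin.cases ?_ (fun i => ?_) i
      · rw [Pi.single_eq_same]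
        rfl
      · rw [Pi.single_eq_of_ne (Fin.succ_ne_zero i)]
        rfl
    rw [h5, h6, single_one_dotProduct, mulVec_single_one]
    rfl
  rw [h4, mulVec_smul] at h3
  have h5 := h3.symm
  rcases smul_eq_zero.1 h5 with h6 | h6
  · exact (mul_ne_zero two_ne_zero ha1.ne') h6
  · rcases smul_eq_zero.1 h6 with h7 | h7
    · exact hY01 (star_eq_zero.1 h7)
    · exact bsum_base_ne hNu h7

/-- An automorphism of the complex numbers which fixes the first trace field fixes the second. -/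
theorem fix_of_fix_rec (hk : 1 ≤ k) (Γ₃ : Subgroup (SUGroup k))
    (Γ Γ' : Fin 2 → Subgroup (SUGroup (k + 1))) (hle : ∀ b, Γ' b ≤ Γ b)
    (hfin : ∀ b, (Γ' b).relIndex (Γ b) ≠ 0) (g : Fin 2 → SUGroup (k + 2))
    (h₃ : IsLattice Γ₃) (hL : ∀ b, IsLattice (Γ' b)) (hA : ∀ b, IsArithmetic (k + 1) (Γ' b))
    (hsub : ∀ b, ∀ γ ∈ Γ₃, extend k γ ∈ Γ' b)
    (hagree : ∀ γ ∈ Γ₃, g 0 * extend (k + 1) (extend k γ) * (g 0)⁻¹ =
      g 1 * extend (k + 1) (extend k γ) * (g 1)⁻¹)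
    (hR : Rec (hybrid Γ g)) (hRb : ∀ b, Rec (Γ' b)) (hV : Van (Γ' 0))
    (HL : ∀ t : ℂ ≃+* ℂ, ∃ F : Vec (k + 2) → Mat (k + 3), HarmG F ∧
      Equi (rhoT t (hybrid Γ g)) F)
    (t : ℂ ≃+* ℂ) (ht0 : ∀ x ∈ traceField (Γ' 0), t x = x) :
    ∀ x ∈ traceField (Γ' 1), t x = x := by
  by_contra ht1
  by_cases h2 : 2 ≤ k
  · apply ht1
    rw [← (traceField_three h2 Γ₃ h₃ (Γ' 0) (hL 0) (hA 0) (hsub 0)).trans
      (traceField_three h2 Γ₃ h₃ (Γ' 1) (hL 1) (hA 1) (hsub 1)).symm]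
    exact ht0
  obtain ⟨F, hF, hFe⟩ := HL t
  obtain ⟨X, Y, N, Q, ζ, ν0, ν1, l0, a0, l1, a1, hζ, hX, hg, hν0, hν1, hY, hNu, hQu, hQ1u,
    hl0, ha0, -, ha1, hF0, hF1, hc0, hc1, hw0, hw1⟩ :=
    mix_data_rec hk Γ₃ Γ Γ' hle hfin g h₃ hL hA hsub hagree hRb t hF hFe ht0 ht1
  have hcm := mix_comm hsub hagree hQu hQ1u hc0 hc1
  obtain rfl : k = 1 := by omega
  set s : Mat 2 := !![0, 1; 1, 0] with hs
  have hss : s * s = 1 := by
    rw [hs, Matrix.mul_fin_two, Matrix.one_fin_two]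
    simp
  have hsh : sᴴ = s := by
    rw [hs]
    ext i j
    fin_cases i <;> fin_cases j <;> simp [conjTranspose_apply]
  have hcs : ∀ γ ∈ Γ₃, γ.toMatrix * (N * s) = (N * s) * γ.toMatrix := by
    intro γ hγ
    calc γ.toMatrix * (N * s) = (γ.toMatrix * N) * s := by rw [Matrix.mul_assoc]
      _ = N * (s * γ.toMatrix * s) * s := by rw [hcm γ hγ, su_one_cj]
      _ = N * s * γ.toMatrix * (s * s) := by simp only [Matrix.mul_assoc]
      _ = _ := by rw [hss, Matrix.mul_one]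
  have hall : ∀ A : Mat 2, A * (N * s) = (N * s) * A := by
    intro A
    have hA : A ∈ Submodule.span ℂ (SUGroup.toMatrix '' (Γ₃ : Set (SUGroup 1))) := by
      rw [span_top le_rfl Γ₃ h₃]
      exact Submodule.mem_top
    induction hA using Submodule.span_induction with
    | mem x hx =>
      obtain ⟨γ, hγ, rfl⟩ := hx
      exact hcs γ hγ
    | zero => rw [Matrix.zero_mul, Matrix.mul_zero]
    | add x y _ _ hx hy => rw [Matrix.add_mul, Matrix.mul_add, hx, hy]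
    | smul c x _ hx => rw [Matrix.smul_mul, Matrix.mul_smul, hx]
  obtain ⟨μ, hμ⟩ := scalar_of_comm hall
  have hN : N = μ • s := by
    calc N = (N * s) * s := by rw [Matrix.mul_assoc, hss, Matrix.mul_one]
      _ = _ := by rw [hμ, Matrix.smul_mul, Matrix.one_mul]
  refine mix_absurd_rec le_rfl hle hR hV hζ hX hg hν0 hν1 hY hNu hQu hQ1u hl0 ha0 ha1 hF hFe
    hF0 hF1 hc0 hw0 hw1 (s := s) ?_ ?_ hN
  · rw [hsh, hss]
  · have h5 : s * !![1, 0; 0, -1] * s = -!![1, 0; 0, -1] := by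
      rw [hs, Matrix.mul_fin_two, Matrix.mul_fin_two]
      ext i j
      fin_cases i <;> fin_cases j <;> simp
    have h6 : s * (J 1 : Mat 2) * s = -(J 1 : Mat 2) := by rw [J_one, h5]
    rw [hsh]
    exact h6

/-- The trace fields of the (rational parts of the) pieces of a cocompact hybrid agree. -/
theorem fields_wide_rec {k : ℕ} (hk : 1 ≤ k) (Γ₃ : Subgroup (SUGroup k))
    (Γ Γ' : Fin 2 → Subgroup (SUGroup (k + 1))) (hle : ∀ b, Γ' b ≤ Γ b)
    (hfin : ∀ b, (Γ' b).relIndex (Γ b) ≠ 0) (g : Fin 2 → SUGroup (k + 2))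
    (h₃ : IsLattice Γ₃) (hL : ∀ b, IsLattice (Γ' b)) (hA : ∀ b, IsArithmetic (k + 1) (Γ' b))
    (hsub : ∀ b, ∀ γ ∈ Γ₃, extend k γ ∈ Γ' b)
    (hagree : ∀ γ ∈ Γ₃, g 0 * extend (k + 1) (extend k γ) * (g 0)⁻¹ =
      g 1 * extend (k + 1) (extend k γ) * (g 1)⁻¹)
    (hR : Rec (hybrid Γ g)) (hRb : ∀ b, Rec (Γ' b)) (hV : ∀ b, Van (Γ' b))
    (HL : ∀ t : ℂ ≃+* ℂ, ∃ F : Vec (k + 2) → Mat (k + 3), HarmG F ∧
      Equi (rhoT t (hybrid Γ g)) F) :
    traceField (Γ' 0) = traceField (Γ' 1) := by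
  have hnf : ∀ b, Countable (traceField (Γ' b)) := by
    intro b
    obtain ⟨K, H, B, hf, hr, -⟩ := hA b
    have e := traceField_eq (by omega : 2 ≤ k + 1) (Γ' b) (hL b) K H B hf hr
    have := hf.cm.1
    rw [e]
    exact countable_of_numberField K
  have h10 : traceField (Γ' 1) ≤ traceField (Γ' 0) := by
    intro x hx
    by_contra hx0
    have := hnf 0
    obtain ⟨t, ht, htx⟩ := exists_aut_ne (traceField (Γ' 0)) x hx0
    exact htx (fix_of_fix_rec hk Γ₃ Γ Γ' hle hfin g h₃ hL hA hsub hagree hR hRb (hV 0) HL t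
      (fun y hy => ht ⟨y, hy⟩) x hx)
  have h01 : traceField (Γ' 0) ≤ traceField (Γ' 1) := by
    intro x hx
    by_contra hx0
    have := hnf 1
    obtain ⟨t, ht, htx⟩ := exists_aut_ne (traceField (Γ' 1)) x hx0
    have e0 : (1 : Fin 2) - 0 = 1 := by decide
    have e1 : (1 : Fin 2) - 1 = 0 := by decide
    have hag : ∀ γ ∈ Γ₃, g (1 - 0) * extend (k + 1) (extend k γ) * (g (1 - 0))⁻¹ =
        g (1 - 1) * extend (k + 1) (extend k γ) * (g (1 - 1))⁻¹ := by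
      intro γ hγ
      rw [e0, e1]
      exact (hagree γ hγ).symm
    have hR' : Rec (hybrid (fun b => Γ (1 - b)) fun b => g (1 - b)) := by
      rw [hyb_swap]
      exact hR
    have HL' : ∀ t : ℂ ≃+* ℂ, ∃ F : Vec (k + 2) → Mat (k + 3), HarmG F ∧
        Equi (rhoT t (hybrid (fun b => Γ (1 - b)) fun b => g (1 - b))) F := by
      rw [hyb_swap]
      exact HL
    have h1 : (∀ y ∈ traceField (Γ' (1 - 0)), t y = y) →
        ∀ y ∈ traceField (Γ' (1 - 1)), t y = y :=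
      fix_of_fix_rec hk Γ₃ (fun b => Γ (1 - b)) (fun b => Γ' (1 - b)) (fun b => hle _)
        (fun b => hfin _) (fun b => g (1 - b)) h₃ (fun b => hL _)
        (fun b => hA _) (fun b => hsub _) hag hR' (fun b => hRb _) (hV _) HL' t
    rw [e0, e1] at h1
    exact htx (h1 (fun y hy => ht ⟨y, hy⟩) x hx)
  exact le_antisymm h01 h10

end Pool.Agent.Lib.MP_5d4057_al.RC
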