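import Pool.Agent.Lib.MP_5d4057_al.RC.Final
import Pool.Agent.Lib.MP_5d4057_al.NU.Final

/-! Hybrid lattices of arithmetic lattices: rationality over the common trace field, without
integrality, and cocompactness. -/

set_option autoImplicit false

namespace Pool.Agent.Lib.MP_5d4057_al.RC

open Matrix Pool.Agent.Lib.MP_5d4057_al Pool.Agent.Lib.MP_5d4057_al.Hyb
  Pool.Agent.Lib.MP_5d4057_al.HM Pool.Agent.Lib.MP_5d4057_al.NU

open scoped ComplexOrder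

variable {k : ℕ}

/-- The form and the field of rationality of the hybrid, from the structures of the pieces. -/
theorem build_form {k : ℕ} (hk : 1 ≤ k) (Γ₃ : Subgroup (SUGroup k))
    (Γ : Fin 2 → Subgroup (SUGroup (k + 1))) (g : Fin 2 → SUGroup (k + 2))
    (h₃ : IsLattice Γ₃) (hL : ∀ b, IsLattice (Γ b)) (hA : ∀ b, IsArithmetic (k + 1) (Γ b))
    (hsub : ∀ b, ∀ γ ∈ Γ₃, extend k γ ∈ Γ b)
    (hlat : IsLattice (hybrid Γ g)) (htr : traceField (Γ 0) = traceField (Γ 1))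
    (X : Matrix (Fin 2) (Fin 2) ℂ) (ζ : ℂ) (hζ : star ζ * ζ = 1) (hX : Xᴴ * X = 1)
    (hg : (g 1).toMatrix = (g 0).toMatrix * (ζ • bsum X 1))
    (hcase : ∀ (D : Matrix (Fin (k + 1)) (Fin (k + 1)) ℂ)
      (HD : Matrix (Fin (k + 1)) (Fin (k + 1)) (traceField (Γ 0))) (μ : Fin 2 → ℂ)
      (q : Fin 2 → traceField (Γ 0)), IsCM (traceField (Γ 0)) →
      IsNF k (traceField (Γ 0)) D HD μ q →
      (∀ γ ∈ Γ₃, EntriesIn (traceField (Γ 0)) D γ.toMatrix) →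
      (∀ b, ∀ γ ∈ Γ b, EntriesIn (traceField (Γ 0)) (dsum (μ b) D) γ.toMatrix) →
      (∀ x : Fin (k + 1) → traceField (Γ 0),
        hm k (D *ᵥ fun i => (x i : ℂ)) (D *ᵥ fun i => (x i : ℂ)) = 0 →
        ∀ b, ∃ N : ℕ, 0 < N ∧ ∀ β ∈ integers (traceField (Γ 0)), ∃ γ ∈ Γ b, γ.toMatrix =
          T (k + 1) (Fin.cons 0 (D *ᵥ fun i => (x i : ℂ))) (Fin.cons ((N : ℂ) * β * μ b) 0)) →
      star (μ 0) * μ 1 * X 1 1 ∈ traceField (Γ 0) ∧
      ∃ Hg : Matrix (Fin (k + 3)) (Fin (k + 3)) (traceField (Γ 0)),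
        (gB μ X D)ᴴ * J (k + 2) * gB μ X D = Hg.map (fun x : traceField (Γ 0) => (x : ℂ)) ∧
        ∀ τ : traceField (Γ 0) →+* ℂ, (∀ x : traceField (Γ 0), τ x = x) ∨
          (∀ x : traceField (Γ 0), τ x = (starRingEnd ℂ) (x : ℂ)) ∨
          (Hg.map τ).PosDef ∨ (-(Hg.map τ)).PosDef) :
    ∃ (H : Matrix (Fin (k + 2 + 1)) (Fin (k + 2 + 1)) (traceField (Γ 0)))
      (B : Matrix (Fin (k + 2 + 1)) (Fin (k + 2 + 1)) ℂ),
      IsForm (k + 2) (traceField (Γ 0)) H B ∧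
      ∀ γ ∈ hybrid Γ g, EntriesIn (traceField (Γ 0)) B γ.toMatrix := by
  -- the two fields are equal
  have hdata : ∃ (K : Subfield ℂ) (H : Fin 2 → Matrix (Fin (k + 1 + 1)) (Fin (k + 1 + 1)) K)
      (B : Fin 2 → Matrix (Fin (k + 1 + 1)) (Fin (k + 1 + 1)) ℂ), K = traceField (Γ 0) ∧
      ∀ b, IsForm (k + 1) K (H b) (B b) ∧ (∀ γ ∈ Γ b, EntriesIn K (B b) γ.toMatrix) ∧
        Subgroup.Commensurable (Γ b) (integralPoints (k + 1) K (B b)) := by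
    obtain ⟨K₀, H₀, B₀, hf₀, hr₀, hc₀⟩ := hA 0
    obtain ⟨K₁, H₁, B₁, hf₁, hr₁, hc₁⟩ := hA 1
    have e₀ := traceField_eq (by omega : 2 ≤ k + 1) (Γ 0) (hL 0) K₀ H₀ B₀ hf₀ hr₀
    have e₁ := traceField_eq (by omega : 2 ≤ k + 1) (Γ 1) (hL 1) K₁ H₁ B₁ hf₁ hr₁
    have e : K₁ = K₀ := by rw [← e₀, ← e₁, htr]
    subst e
    refine ⟨K₁, fun b => if b = 0 then H₀ else H₁, fun b => if b = 0 then B₀ else B₁,
      e₀.symm, ?_⟩
    intro b
    fin_cases b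
    · exact ⟨hf₀, hr₀, hc₀⟩
    · exact ⟨hf₁, hr₁, hc₁⟩
  obtain ⟨K, H, B, hK, hB⟩ := hdata
  subst hK
  have hcm : IsCM (traceField (Γ 0)) := (hB 0).1.cm
  obtain ⟨D, HD, μ, q, hn, h3D, hQ⟩ := exists_normal_form hk Γ₃ h₃ _ H B (fun b => (hB b).1)
    (fun b γ hγ => (hB b).2.1 _ (hsub b γ hγ))
  have h01 := X01_ne Γ g hlat X ζ hζ hX hg
  have hrat : ∀ b, ∀ γ ∈ Γ b, EntriesIn (traceField (Γ 0)) (dsum (μ b) D) γ.toMatrix := by
    intro b γ hγ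
    obtain ⟨σ, Q, hσ, hQd, hQe⟩ := hQ b
    exact EntriesIn.change (hB b).1.det hσ hQd hQe ((hB b).2.1 γ hγ)
  obtain ⟨hzK, Hg, hHg, hdef⟩ := hcase D HD μ q hcm hn h3D hrat (by
    intro x hx b
    obtain ⟨σ, Q, hσ, hQd, hQe⟩ := hQ b
    exact exists_T_mem hcm hn.det hn.form (μ b) (q b) (hn.μ_ne b) (hn.q_eq b) x hx (B b)
      (hB b).1.det σ hσ Q hQd hQe (Γ b) (hB b).2.2)
  have hform : IsForm (k + 2) (traceField (Γ 0)) Hg (gB μ X D) :=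
    { cm := hcm
      det := gB_det μ X D hn.det hn.μ_ne h01
      form := hHg
      definite := hdef }
  have hforms : IsForm (k + 2) (traceField (Γ 0)) Hg ((g 0).toMatrix * gB μ X D) :=
    hform.conj (g 0)
  have hent : ∀ γ ∈ hybrid Γ g,
      EntriesIn (traceField (Γ 0)) ((g 0).toMatrix * gB μ X D) γ.toMatrix := by
    refine EntriesIn.gB_mem Γ g _ ?_
    intro b γ hγ
    have hA' := hrat b γ hγ
    fin_cases b
    · have := glue_entries_zero hn X h01 hzK γ.toMatrix hA'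
      rw [← entriesIn_conj (g 0)] at this
      exact this
    · have := glue_entries_one hcm hn X hX h01 hzK γ.toMatrix hA'
      rw [← entriesIn_conj (g 0)] at this
      have e : (g 0).toMatrix * (bsum X 1 * dsum 1 γ.toMatrix * bsum Xᴴ 1) * ((g 0)⁻¹).toMatrix =
          (g 1 * extend (k + 1) γ * (g 1)⁻¹).toMatrix := by
        rw [toMatrix_mul, toMatrix_mul, toMatrix_gen_one hζ hX hg, hg, extend_toMatrix]
        simp only [Matrix.mul_assoc, Matrix.mul_smul, Matrix.smul_mul, smul_smul]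
        rw [hζ, one_smul]
      rw [e] at this
      exact this
  exact ⟨Hg, (g 0).toMatrix * gB μ X D, hforms, hent⟩

/-- From the two key facts (`hlt`, `hid`) to the form. -/
theorem end_form {k : ℕ} (hk : 1 ≤ k) (Γ₃ : Subgroup (SUGroup k))
    (Γ : Fin 2 → Subgroup (SUGroup (k + 1))) (g : Fin 2 → SUGroup (k + 2))
    (h₃ : IsLattice Γ₃) (hL : ∀ b, IsLattice (Γ b)) (hA : ∀ b, IsArithmetic (k + 1) (Γ b))
    (hsub : ∀ b, ∀ γ ∈ Γ₃, extend k γ ∈ Γ b)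
    (hagree : ∀ γ ∈ Γ₃, g 0 * extend (k + 1) (extend k γ) * (g 0)⁻¹ =
      g 1 * extend (k + 1) (extend k γ) * (g 1)⁻¹)
    (hlat : IsLattice (hybrid Γ g)) (htr : traceField (Γ 0) = traceField (Γ 1))
    (hlt : ∀ (K : Subfield ℂ) (D : Matrix (Fin (k + 1)) (Fin (k + 1)) ℂ)
      (HD : Matrix (Fin (k + 1)) (Fin (k + 1)) K) (μ : Fin 2 → ℂ) (q : Fin 2 → K), IsCM K →
      IsNF k K D HD μ q → (∀ b, ∀ γ ∈ Γ b, EntriesIn K (dsum (μ b) D) γ.toMatrix) →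
      ∀ (X : Matrix (Fin 2) (Fin 2) ℂ) (ζ : ℂ), star ζ * ζ = 1 → Xᴴ * X = 1 →
      (g 1).toMatrix = (g 0).toMatrix * (ζ • bsum X 1) → X 0 1 ≠ 0 →
      ∀ t : ℂ ≃+* ℂ, (¬ ∀ x : K, t (x : ℂ) = x) → (¬ ∀ x : K, t (x : ℂ) = (starRingEnd ℂ) (x : ℂ)) →
        (t (cosSq g)).re < 1)
    (hid : ∀ (K : Subfield ℂ) (D : Matrix (Fin (k + 1)) (Fin (k + 1)) ℂ)
      (HD : Matrix (Fin (k + 1)) (Fin (k + 1)) K) (μ : Fin 2 → ℂ) (q : Fin 2 → K), IsCM K →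
      IsNF k K D HD μ q → (∀ b, ∀ γ ∈ Γ b, EntriesIn K (dsum (μ b) D) γ.toMatrix) →
      ∀ (X : Matrix (Fin 2) (Fin 2) ℂ) (ζ : ℂ), star ζ * ζ = 1 → Xᴴ * X = 1 →
      (g 1).toMatrix = (g 0).toMatrix * (ζ • bsum X 1) → X 0 1 ≠ 0 →
      ∀ t : ℂ ≃+* ℂ, (∀ x : K, t (x : ℂ) = x) →
        ∀ γ ∈ hybrid Γ g, t γ.toMatrix.trace = γ.toMatrix.trace) :
    ∃ (H : Matrix (Fin (k + 2 + 1)) (Fin (k + 2 + 1)) (traceField (Γ 0)))
      (B : Matrix (Fin (k + 2 + 1)) (Fin (k + 2 + 1)) ℂ),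
      IsForm (k + 2) (traceField (Γ 0)) H B ∧
      ∀ γ ∈ hybrid Γ g, EntriesIn (traceField (Γ 0)) B γ.toMatrix := by
  obtain ⟨X, ζ, hζ, hX, hg⟩ := frame hk Γ₃ h₃ g hagree
  have h01 := X01_ne Γ g hlat X ζ hζ hX hg
  obtain ⟨hcos, -⟩ := cosSq_eq hζ hX hg
  refine build_form hk Γ₃ Γ g h₃ hL hA hsub hlat htr X ζ hζ hX hg ?_
  intro D HD μ q hcm hn h3D hrat hT
  have hnf : NumberField (traceField (Γ 0)) := hcm.1
  have hK : ∀ γ ∈ hybrid Γ g, γ.toMatrix.trace ∈ traceField (Γ 0) := by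
    intro γ hγ
    refine mem_of_fixed _ _ ?_
    intro t ht
    exact hid _ D HD μ q hcm hn hrat X ζ hζ hX hg h01 t ht γ hγ
  have hzK := angle_mem_of_trace hcm hn Γ hL hrat g X ζ hζ hg (hybrid Γ g)
    (fun b γ hγ => Subgroup.subset_closure ⟨b, γ, hγ, rfl⟩) hK
  refine ⟨hzK, ?_⟩
  -- the number `c` is in the field
  have hcK : star (X 1 1) * X 1 1 ∈ traceField (Γ 0) := by
    have h1 : star (X 1 1) * X 1 1 =
        (starRingEnd ℂ) (star (μ 0) * μ 1 * X 1 1) * (star (μ 0) * μ 1 * X 1 1) /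
          ((q 0 : ℂ) * (q 1 : ℂ)) := by
      rw [hn.q_eq 0, hn.q_eq 1]
      have h0 : star (μ 0) ≠ 0 := fun h => hn.μ_ne 0 (star_eq_zero.1 h)
      have h1 : star (μ 1) ≠ 0 := fun h => hn.μ_ne 1 (star_eq_zero.1 h)
      have h0' := hn.μ_ne 0
      have h1' := hn.μ_ne 1
      simp only [map_mul, RCLike.star_def, Complex.conj_conj] at h0 h1 ⊢
      field_simp
    rw [h1]
    exact (traceField (Γ 0)).div_mem ((traceField (Γ 0)).mul_mem (hcm.2.2.1 _ hzK) hzK)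
      ((traceField (Γ 0)).mul_mem (q 0).2 (q 1).2)
  refine glue_form_angle hcm hn X hX hzK ⟨_, hcK⟩ rfl ?_
  intro τ
  by_cases h1 : ∀ x : traceField (Γ 0), τ x = x
  · exact Or.inl h1
  by_cases h2 : ∀ x : traceField (Γ 0), τ x = (starRingEnd ℂ) (x : ℂ)
  · exact Or.inr (Or.inl h2)
  refine Or.inr (Or.inr ?_)
  obtain ⟨t, ht⟩ := exists_aut (traceField (Γ 0)) τ
  have h3 := hlt _ D HD μ q hcm hn hrat X ζ hζ hX hg h01 t
    (fun h => h1 (fun x => by rw [← ht x, h x])) (fun h => h2 (fun x => by rw [← ht x, h x]))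
  have h4 := ht ⟨_, hcK⟩
  rw [← h4]
  show (t (star (X 1 1) * X 1 1)).re < 1
  rw [← hcos]
  exact h3

/-- A hybrid lattice of arithmetic lattices is contained in `SU(H, K)`, where `K` is the common
trace field of the pieces and `H` is definite at the other places. -/
theorem form_all (hk : 1 ≤ k) (Γ₃ : Subgroup (SUGroup k))
    (Γ : Fin 2 → Subgroup (SUGroup (k + 1))) (g : Fin 2 → SUGroup (k + 2))
    (h₃ : IsLattice Γ₃) (hL : ∀ b, IsLattice (Γ b)) (hA : ∀ b, IsArith (k + 1) (Γ b))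
    (hsub : ∀ b, ∀ γ ∈ Γ₃, extend k γ ∈ Γ b)
    (hagree : ∀ γ ∈ Γ₃, g 0 * extend (k + 1) (extend k γ) * (g 0)⁻¹ =
      g 1 * extend (k + 1) (extend k γ) * (g 1)⁻¹)
    (hlat : IsLattice (hybrid Γ g)) :
    ∃ (H : Matrix (Fin (k + 2 + 1)) (Fin (k + 2 + 1)) (traceField (Γ 0)))
      (B : Matrix (Fin (k + 2 + 1)) (Fin (k + 2 + 1)) ℂ),
      IsForm (k + 2) (traceField (Γ 0)) H B ∧
      ∀ γ ∈ hybrid Γ g, EntriesIn (traceField (Γ 0)) B γ.toMatrix := by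
  obtain ⟨hA', hf⟩ := narrow_all hk Γ₃ Γ g h₃ hL hA hsub hagree hlat
  have hFG : ∀ b, FGG (Γ b) := fun b => fgg_of_isArithmetic (hA' b)
  obtain ⟨hR, HL⟩ := hyb_rec (g := g) hFG hlat
  have hRb : ∀ b, Rec (Γ b) := fun b => rec_of_lattice (by omega) (hL b) (hFG b)
  have hspanb : ∀ b, Submodule.span ℂ
      (SUGroup.toMatrix '' (Γ b : Set (SUGroup (k + 1)))) = ⊤ :=
    fun b => span_top (by omega : 1 ≤ k + 1) (Γ b) (hL b)
  refine end_form hk Γ₃ Γ g h₃ hL hA' hsub hagree hlat hf ?_ ?_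
  · intro K D HD μ q hcm hn hrat X ζ hζ hX hg h01 t ht ht'
    rw [(cosSq_eq hζ hX hg).1]
    exact key_lt_rec Γ g HL hRb hspanb hcm hn hrat hζ hX hg h01 t ht ht'
  · intro K D HD μ q _ hn hrat X ζ hζ hX hg h01 t ht
    exact key_id_rec Γ g hR HL hRb hspanb hn hrat hζ hX hg h01 t ht

/-- A hybrid lattice is cocompact unless the common trace field is imaginary quadratic. -/
theorem compact_all (hk : 1 ≤ k) (Γ₃ : Subgroup (SUGroup k))
    (Γ : Fin 2 → Subgroup (SUGroup (k + 1))) (g : Fin 2 → SUGroup (k + 2))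
    (h₃ : IsLattice Γ₃) (hL : ∀ b, IsLattice (Γ b)) (hA : ∀ b, IsArith (k + 1) (Γ b))
    (hsub : ∀ b, ∀ γ ∈ Γ₃, extend k γ ∈ Γ b)
    (hagree : ∀ γ ∈ Γ₃, g 0 * extend (k + 1) (extend k γ) * (g 0)⁻¹ =
      g 1 * extend (k + 1) (extend k γ) * (g 1)⁻¹)
    (hlat : IsLattice (hybrid Γ g)) (τ : traceField (Γ 0) →+* ℂ)
    (h1 : ¬ ∀ x : traceField (Γ 0), τ x = x)
    (h2 : ¬ ∀ x : traceField (Γ 0), τ x = (starRingEnd ℂ) (x : ℂ)) :
    CompactSpace (SUGroup (k + 2) ⧸ hybrid Γ g) := by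
  obtain ⟨hA', hf⟩ := narrow_all hk Γ₃ Γ g h₃ hL hA hsub hagree hlat
  exact compactSpace_of_coc (coc_of_traceField hk Γ₃ Γ g h₃ hL hA' hsub hagree hlat hf τ h1 h2)

/-- MAIN THEOREM. Let a lattice in `SU(k+2,1)` be obtained by gluing two arithmetic lattices of
`SU(k+1,1)` along a lattice of `SU(k,1)`. The trace fields of the pieces agree, the hybrid is
contained in `SU(H, K)` for the common trace field `K` and a form `H` which is definite at the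
other places, it is arithmetic if and only if its traces are integral, and it is cocompact unless
`K` is imaginary quadratic. -/
theorem hybrid_full (k : ℕ) (hk : 1 ≤ k) (Γ₃ : Subgroup (SUGroup k))
    (Γ : Fin 2 → Subgroup (SUGroup (k + 1))) (g : Fin 2 → SUGroup (k + 2))
    (h₃ : IsLattice Γ₃) (hL : ∀ b, IsLattice (Γ b)) (hA : ∀ b, IsArith (k + 1) (Γ b))
    (hsub : ∀ b, ∀ γ ∈ Γ₃, extend k γ ∈ Γ b)
    (hagree : ∀ γ ∈ Γ₃, g 0 * extend (k + 1) (extend k γ) * (g 0)⁻¹ =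
      g 1 * extend (k + 1) (extend k γ) * (g 1)⁻¹)
    (hlat : IsLattice (hybrid Γ g)) :
    traceField (Γ 0) = traceField (Γ 1) ∧
    (∃ (H : Matrix (Fin (k + 2 + 1)) (Fin (k + 2 + 1)) (traceField (Γ 0)))
      (B : Matrix (Fin (k + 2 + 1)) (Fin (k + 2 + 1)) ℂ),
      IsForm (k + 2) (traceField (Γ 0)) H B ∧
      ∀ γ ∈ hybrid Γ g, EntriesIn (traceField (Γ 0)) B γ.toMatrix) ∧
    (IsArith (k + 2) (hybrid Γ g) ↔ ∀ γ ∈ hybrid Γ g, IsIntegral ℤ γ.toMatrix.trace) ∧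
    ((∃ τ : traceField (Γ 0) →+* ℂ, (∃ x : traceField (Γ 0), τ x ≠ x) ∧
        ∃ x : traceField (Γ 0), τ x ≠ (starRingEnd ℂ) (x : ℂ)) →
      CompactSpace (SUGroup (k + 2) ⧸ hybrid Γ g)) := by
  obtain ⟨h1, h2⟩ := hybrid_all k hk Γ₃ Γ g h₃ hL hA hsub hagree hlat
  refine ⟨h1, form_all hk Γ₃ Γ g h₃ hL hA hsub hagree hlat, h2, ?_⟩
  rintro ⟨τ, ⟨x, hx⟩, y, hy⟩
  exact compact_all hk Γ₃ Γ g h₃ hL hA hsub hagree hlat τ (fun h => hx (h x)) fun h => hy (h y)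

end Pool.Agent.Lib.MP_5d4057_al.RC
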