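import Pool.Agent.Lib.MP_5d4057_al.RC.KeyOne
import Pool.Agent.Lib.MP_5d4057_al.RC.WideD
import Pool.Agent.Lib.MP_5d4057_al.RC.Orth
import Pool.Agent.Lib.MP_5d4057_al.RC.Lat
import Pool.Agent.Lib.MP_5d4057_al.RC.Fgg
import Pool.Agent.Lib.MP_5d4057_al.HM.AppEnd
import Pool.Agent.Lib.MP_5d4057_al.HM.AppFinal

/-! Hybrid lattices of arithmetic lattices: the trace fields of the pieces agree, and the hybrid is
arithmetic if and only if its traces are algebraic integers. No cocompactness is assumed. -/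

set_option autoImplicit false

namespace Pool.Agent.Lib.MP_5d4057_al.RC

open Matrix Pool.Agent.Lib.MP_5d4057_al Pool.Agent.Lib.MP_5d4057_al.Hyb
  Pool.Agent.Lib.MP_5d4057_al.HM Pool.Agent.Lib.MP_5d4057_al.NU

variable {k : ℕ}

/-- Hybrids of lattices with entries in finitely generated rings. -/
theorem hyb_rec {Γ : Fin 2 → Subgroup (SUGroup (k + 1))} {g : Fin 2 → SUGroup (k + 2)}
    (hf : ∀ b, FGG (Γ b)) (hlat : IsLattice (hybrid Γ g)) :
    Rec (hybrid Γ g) ∧ HLat (hybrid Γ g) :=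
  ⟨rec_of_lattice (by omega) hlat (fgg_hybrid hf g),
    fun t => harm_lat (by omega) hlat (fgg_hybrid hf g) t⟩

/-- The pieces of a hybrid lattice are contained in `SU(H, K)`, and the fields agree. -/
theorem narrow_all (hk : 1 ≤ k) (Γ₃ : Subgroup (SUGroup k))
    (Γ : Fin 2 → Subgroup (SUGroup (k + 1))) (g : Fin 2 → SUGroup (k + 2))
    (h₃ : IsLattice Γ₃) (hL : ∀ b, IsLattice (Γ b)) (hA : ∀ b, IsArith (k + 1) (Γ b))
    (hsub : ∀ b, ∀ γ ∈ Γ₃, extend k γ ∈ Γ b)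
    (hagree : ∀ γ ∈ Γ₃, g 0 * extend (k + 1) (extend k γ) * (g 0)⁻¹ =
      g 1 * extend (k + 1) (extend k γ) * (g 1)⁻¹)
    (hlat : IsLattice (hybrid Γ g)) :
    (∀ b, IsArithmetic (k + 1) (Γ b)) ∧ traceField (Γ 0) = traceField (Γ 1) := by
  have hFG : ∀ b, FGG (Γ b) := fun b => fgg_of_isArith (hA b)
  obtain ⟨hR, HL⟩ := hyb_rec (g := g) hFG hlat
  have h3 := fun b => exists_form hk h₃ (hA b) (hsub b)
  choose K HH B hf hc using h3
  obtain ⟨Γ', hΓ'⟩ : ∃ Γ' : Fin 2 → Subgroup (SUGroup (k + 1)),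
    Γ' = fun b => ratPart (Γ b) (K b) (B b) := ⟨_, rfl⟩
  have hle : ∀ b, Γ' b ≤ Γ b := by
    intro b
    rw [hΓ']
    exact ratPart_le _ _ _
  have hfin : ∀ b, (Γ' b).relIndex (Γ b) ≠ 0 := by
    intro b
    rw [hΓ']
    exact ratPart_relIndex (hc b)
  have hL' : ∀ b, IsLattice (Γ' b) := fun b => isLattice_of_relIndex (hL b) (hle b) (hfin b)
  have hFG' : ∀ b, FGG (Γ' b) := fun b => (hFG b).mono (hle b)
  have hRb' : ∀ b, Rec (Γ' b) := fun b => rec_of_lattice (by omega) (hL' b) (hFG' b)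
  have hA' : ∀ b, IsArithmetic (k + 1) (Γ' b) := by
    intro b
    rw [hΓ']
    exact isArithmetic_ratPart (hf b) (hc b)
  have htf : ∀ b, traceField (Γ' b) = K b := by
    intro b
    refine traceField_eq (by omega : 2 ≤ k + 1) (Γ' b) (hL' b) (K b) (HH b) (B b)
      (hf b) fun γ hγ => ?_
    rw [hΓ'] at hγ
    exact hγ.2.1
  have h3' : IsLattice (commonPart Γ₃ Γ') :=
    isLattice_of_relIndex h₃ (commonPart_le Γ₃ Γ') (commonPart_relIndex hsub hfin)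
  have hfield := fields_wide_rec hk (commonPart Γ₃ Γ') Γ Γ' hle hfin g h3' hL' hA'
    (commonPart_sub Γ₃ Γ') (fun γ hγ => hagree γ (commonPart_le Γ₃ Γ' hγ)) hR hRb'
    (fun b => van_of_lattice (by omega) (hL' b) (hFG' b)) HL
  have hK : ∀ b, K b = K 0 := by
    rw [Fin.forall_fin_two]
    refine ⟨rfl, ?_⟩
    rw [← htf 0, ← htf 1]
    exact hfield.symm
  have h4 : ∀ b, ∃ (H' : Matrix (Fin (k + 1 + 1)) (Fin (k + 1 + 1)) (K 0))
      (B' : Matrix (Fin (k + 1 + 1)) (Fin (k + 1 + 1)) ℂ), IsForm (k + 1) (K 0) H' B' ∧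
        Subgroup.Commensurable (Γ b) (integralPoints (k + 1) (K 0) B') := by
    intro b
    rw [← hK b]
    exact ⟨HH b, B b, hf b, hc b⟩
  choose HH' B' hf' hc' using h4
  have hRr : ∀ b, Rec (ratPart (Γ b) (K 0) (B' b)) := fun b =>
    rec_of_lattice (by omega)
      (isLattice_of_relIndex (hL b) (ratPart_le _ _ _) (ratPart_relIndex (hc' b)))
      ((hFG b).mono (ratPart_le _ _ _))
  have hr := wide_narrow_rec hk Γ₃ Γ g h₃ hL hf' hc' hsub hagree hlat hR HL hRr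
  refine ⟨fun b => ⟨K 0, HH' b, B' b, hf' b, hr b, hc' b⟩, ?_⟩
  rw [traceField_eq (by omega : 2 ≤ k + 1) (Γ 0) (hL 0) (K 0) (HH' 0) (B' 0) (hf' 0) (hr 0),
    traceField_eq (by omega : 2 ≤ k + 1) (Γ 1) (hL 1) (K 0) (HH' 1) (B' 1) (hf' 1) (hr 1)]

/-- The case of pieces contained in `SU(H, K)`. -/
theorem main_all (hk : 1 ≤ k) (Γ₃ : Subgroup (SUGroup k))
    (Γ : Fin 2 → Subgroup (SUGroup (k + 1))) (g : Fin 2 → SUGroup (k + 2))
    (h₃ : IsLattice Γ₃) (hL : ∀ b, IsLattice (Γ b)) (hA : ∀ b, IsArithmetic (k + 1) (Γ b))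
    (hsub : ∀ b, ∀ γ ∈ Γ₃, extend k γ ∈ Γ b)
    (hagree : ∀ γ ∈ Γ₃, g 0 * extend (k + 1) (extend k γ) * (g 0)⁻¹ =
      g 1 * extend (k + 1) (extend k γ) * (g 1)⁻¹)
    (hlat : IsLattice (hybrid Γ g)) :
    IsArithmetic (k + 2) (hybrid Γ g) ↔ traceField (Γ 0) = traceField (Γ 1) ∧
      ∀ γ ∈ hybrid Γ g, IsIntegral ℤ γ.toMatrix.trace := by
  have hFG : ∀ b, FGG (Γ b) := fun b => fgg_of_isArithmetic (hA b)
  obtain ⟨hR, HL⟩ := hyb_rec (g := g) hFG hlat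
  have hRb : ∀ b, Rec (Γ b) := fun b => rec_of_lattice (by omega) (hL b) (hFG b)
  have hspanb : ∀ b, Submodule.span ℂ
      (SUGroup.toMatrix '' (Γ b : Set (SUGroup (k + 1)))) = ⊤ :=
    fun b => span_top (by omega : 1 ≤ k + 1) (Γ b) (hL b)
  refine app_end hk Γ₃ Γ g h₃ hL hA hsub hagree hlat ?_ ?_
  · intro K D HD μ q hcm hn hrat X ζ hζ hX hg h01 t ht ht'
    rw [(cosSq_eq hζ hX hg).1]
    exact key_lt_rec Γ g HL hRb hspanb hcm hn hrat hζ hX hg h01 t ht ht'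
  · intro K D HD μ q _ hn hrat X ζ hζ hX hg h01 t ht
    exact key_id_rec Γ g hR HL hRb hspanb hn hrat hζ hX hg h01 t ht

/-- MAIN THEOREM. A lattice obtained by gluing two arithmetic lattices along a lattice: the trace
fields of the pieces agree, and it is arithmetic if and only if its traces are integral. -/
theorem hybrid_all (k : ℕ) (hk : 1 ≤ k) (Γ₃ : Subgroup (SUGroup k))
    (Γ : Fin 2 → Subgroup (SUGroup (k + 1))) (g : Fin 2 → SUGroup (k + 2))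
    (h₃ : IsLattice Γ₃) (hL : ∀ b, IsLattice (Γ b)) (hA : ∀ b, IsArith (k + 1) (Γ b))
    (hsub : ∀ b, ∀ γ ∈ Γ₃, extend k γ ∈ Γ b)
    (hagree : ∀ γ ∈ Γ₃, g 0 * extend (k + 1) (extend k γ) * (g 0)⁻¹ =
      g 1 * extend (k + 1) (extend k γ) * (g 1)⁻¹)
    (hlat : IsLattice (hybrid Γ g)) :
    traceField (Γ 0) = traceField (Γ 1) ∧
    (IsArith (k + 2) (hybrid Γ g) ↔ ∀ γ ∈ hybrid Γ g, IsIntegral ℤ γ.toMatrix.trace) := by
  obtain ⟨hA', hf⟩ := narrow_all hk Γ₃ Γ g h₃ hL hA hsub hagree hlat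
  have h1 := main_all hk Γ₃ Γ g h₃ hL hA' hsub hagree hlat
  exact ⟨hf, fun h => h.integral, fun h => (h1.2 ⟨hf, h⟩).isArith⟩

end Pool.Agent.Lib.MP_5d4057_al.RC
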