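import Pool.Agent.Lib.MP_5d4057_al.RC.Uniq

/-! Holomorphic functions and sections for groups with the Liouville property (only
differentiability is assumed). -/

namespace Pool.Agent.Lib.MP_5d4057_al.RC

open Matrix MeasureTheory Filter Topology Pool.Agent.Lib.MP_5d4057_al
  Pool.Agent.Lib.MP_5d4057_al.Hyb Pool.Agent.Lib.MP_5d4057_al.HM

open scoped ComplexOrder MatrixOrder Matrix.Norms.L2Operator

variable {n m : ℕ} {Γ : Subgroup (SUGroup n)}

/-- A function touched from below by the logarithm of a holomorphic function has no strict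
maximum in the sense of `LSub`. -/
theorem not_max_log {H : ℂ → ℂ} (hd : ∀ᶠ z in 𝓝 (0 : ℂ), DifferentiableAt ℂ H z) (h0 : H 0 ≠ 0)
    {κ b : ℝ} (hκ : 0 < κ) {u : ℂ → ℝ} (hle : ∀ᶠ z in 𝓝 (0 : ℂ), κ * Real.log ‖H z‖ + b ≤ u z)
    (heq : u 0 = κ * Real.log ‖H 0‖ + b) (a : ℂ) {c : ℝ} (hc : 0 < c) :
    ¬ IsLocalMax (fun z : ℂ => u z + (a * z).re + c * ‖z‖ ^ 2) 0 := by
  intro hmax
  set G : ℂ → ℂ := fun z => Complex.exp (((κ⁻¹ : ℝ) : ℂ) * (a * z)) * H z with hG
  have hne : ∀ᶠ z in 𝓝 (0 : ℂ), H z ≠ 0 := by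
    have h1 : DifferentiableAt ℂ H 0 := hd.self_of_nhds
    exact h1.continuousAt.eventually_ne h0
  have hnG : ∀ z, ‖G z‖ = Real.exp (κ⁻¹ * (a * z).re) * ‖H z‖ := by
    intro z
    rw [hG]
    simp only []
    rw [norm_mul, Complex.norm_exp, Complex.re_ofReal_mul]
  have hGd : ∀ᶠ z in 𝓝 (0 : ℂ), DifferentiableAt ℂ G z := by
    filter_upwards [hd] with z hz
    exact DifferentiableAt.mul (by fun_prop) hz
  have hG0 : ‖G 0‖ = ‖H 0‖ := by
    rw [hnG]
    simp
  have hkey : ∀ᶠ z in 𝓝 (0 : ℂ), κ * Real.log ‖G z‖ + c * ‖z‖ ^ 2 ≤ κ * Real.log ‖G 0‖ := by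
    filter_upwards [hmax, hle, hne] with z h1 h2 h3
    simp only [mul_zero, Complex.zero_re, norm_zero, ne_eq, OfNat.ofNat_ne_zero,
      not_false_eq_true, zero_pow, add_zero] at h1
    rw [heq] at h1
    have h4 : 0 < ‖H z‖ := norm_pos_iff.2 h3
    rw [hG0, hnG, Real.log_mul (Real.exp_pos _).ne' h4.ne', Real.log_exp]
    have h5 : κ * (κ⁻¹ * (a * z).re + Real.log ‖H z‖) = (a * z).re + κ * Real.log ‖H z‖ := by
      field_simp
    rw [h5]
    linarith
  have hloc : IsLocalMax (norm ∘ G) 0 := by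
    filter_upwards [hkey, hne] with z h1 h2
    have h3 : 0 < ‖G z‖ := by
      rw [hnG]
      exact mul_pos (Real.exp_pos _) (norm_pos_iff.2 h2)
    have h4 : 0 < ‖G 0‖ := by
      rw [hG0]
      exact norm_pos_iff.2 h0
    have h5 : 0 ≤ c * ‖z‖ ^ 2 := by positivity
    have h6 : κ * Real.log ‖G z‖ ≤ κ * Real.log ‖G 0‖ := by linarith
    exact (Real.log_le_log_iff h3 h4).1 (le_of_mul_le_mul_left h6 hκ)
  have h1 := Complex.norm_eventually_eq_of_isLocalMax hGd hloc
  obtain ⟨ε, hε, hball⟩ := Metric.eventually_nhds_iff.1 (h1.and hkey)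
  obtain ⟨h2, h3⟩ := hball (y := ((ε / 2 : ℝ) : ℂ)) (by
    rw [dist_zero_right, Complex.norm_real, Real.norm_of_nonneg (by positivity)]
    linarith)
  rw [h2, Complex.norm_real, Real.norm_of_nonneg (by positivity)] at h3
  have h4 : 0 < c * (ε / 2) ^ 2 := by positivity
  linarith

/-- Functions whose logarithm is touched from below, on complex lines, by logarithms of
holomorphic functions. -/
def Touch (ψ : Vec n → ℝ) : Prop := ∀ v ∈ Cone n, 0 < ψ v → ∀ ξ : Vec n,
  ∃ (H : ℂ → ℂ) (κ b : ℝ), 0 < κ ∧ (∀ᶠ z in 𝓝 (0 : ℂ), DifferentiableAt ℂ H z) ∧ H 0 ≠ 0 ∧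
    (∀ᶠ z in 𝓝 (0 : ℂ), κ * Real.log ‖H z‖ + b ≤ Real.log (ψ (v + z • ξ))) ∧
    Real.log (ψ v) = κ * Real.log ‖H 0‖ + b

theorem Rec.max_of_touch (hΓ : Rec Γ) {ψ : Vec n → ℝ} (hh : Homog ψ)
    (hc : ContinuousOn ψ (Cone n)) (hi : Inv Γ ψ) (h0 : ∀ v ∈ Cone n, 0 ≤ ψ v) (hg : Pol ψ)
    (hT : Touch ψ) : ∃ v₀ ∈ Cone n, ∀ v ∈ Cone n, ψ v ≤ ψ v₀ := by
  by_cases hz : ∀ v ∈ Cone n, ψ v = 0
  · exact ⟨base n, base_mem n, fun v hv => by rw [hz v hv, hz _ (base_mem n)]⟩
  push Not at hz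
  obtain ⟨v₁, hv₁, hne⟩ := hz
  set δ := ψ v₁ with hδ
  have hδ0 : 0 < δ := lt_of_le_of_ne (h0 v₁ hv₁) (Ne.symm hne)
  have hpos : ∀ v, 0 < max δ (ψ v) := fun v => lt_max_of_lt_left hδ0
  obtain ⟨v₀, hv₀, hmax⟩ := hΓ.mx (fun v => Real.log (max δ (ψ v)))
    (fun c hc v hv => by
      show Real.log (max δ (ψ (c • v))) = Real.log (max δ (ψ v))
      rw [hh c hc v hv])
    (ContinuousOn.log ((continuous_const.max continuous_id).comp_continuousOn hc)
      fun v _ => (hpos v).ne')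
    (fun γ hγ v hv => by
      show Real.log (max δ (ψ (act γ v))) = Real.log (max δ (ψ v))
      rw [hi γ hγ v hv])
    (by
      obtain ⟨N, C, hC, hN⟩ := hg
      refine ⟨N, Real.log (δ + C), by positivity, fun g => ?_⟩
      have h2 := hN g
      have h3 := h0 _ (orbit_mem g)
      have h4 := one_le_ch g
      have h4' : 1 ≤ ch g ^ N := one_le_pow₀ h4
      rw [Real.norm_of_nonneg h3] at h2
      have h5 : max δ (ψ (act g (base n))) ≤ (δ + C) * ch g ^ N := by
        refine max_le ?_ ?_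
        · nlinarith
        · nlinarith
      have h6 := Real.log_le_log (hpos _) h5
      rwa [Real.log_mul (by positivity) (by positivity), Real.log_pow] at h6)
    (by
      intro v hv ξ a c hc0
      by_cases hvδ : δ < ψ v
      · obtain ⟨H, κ, b, hκ, hHd, hH0, hle, heq⟩ := hT v hv (hδ0.trans hvδ) ξ
        refine not_max_log hHd hH0 hκ (b := b) (u := fun z => Real.log (max δ (ψ (v + z • ξ)))) ?_ ?_ a hc0
        · have hcont : Continuous fun z : ℂ => v + z • ξ := by fun_prop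
          have h1 : Tendsto (fun z : ℂ => v + z • ξ) (𝓝 0) (𝓝 v) := by
            have := hcont.tendsto 0
            simpa using this
          have h2 : ∀ᶠ w in 𝓝 v, δ < ψ w :=
            (hc.continuousAt ((isOpen_cone n).mem_nhds hv)).eventually (lt_mem_nhds hvδ)
          filter_upwards [hle, h1.eventually h2] with z h3 h4
          rw [max_eq_right h4.le]
          exact h3
        · simp only [zero_smul, add_zero]
          rw [max_eq_right hvδ.le, heq]
      · refine not_max_log (H := fun _ => 1) (κ := 1) (b := Real.log δ)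
          (Filter.Eventually.of_forall fun z => differentiableAt_const _) one_ne_zero one_pos
          (u := fun z => Real.log (max δ (ψ (v + z • ξ)))) ?_ ?_ a hc0
        · refine Filter.Eventually.of_forall fun z => ?_
          rw [norm_one, Real.log_one, mul_zero, zero_add]
          exact Real.log_le_log hδ0 (le_max_left _ _)
        · simp only [zero_smul, add_zero, norm_one, Real.log_one, mul_zero, zero_add]
          rw [max_eq_left (not_lt.1 hvδ)])
  have hmax' : ∀ v ∈ Cone n, max δ (ψ v) ≤ max δ (ψ v₀) := fun v hv =>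
    (Real.log_le_log_iff (hpos v) (hpos v₀)).1 (hmax v hv)
  by_cases h1 : δ ≤ ψ v₀
  · refine ⟨v₀, hv₀, fun v hv => ?_⟩
    have h2 := hmax' v hv
    rw [max_eq_right h1] at h2
    exact (le_max_right _ _).trans h2
  · refine ⟨v₁, hv₁, fun v hv => ?_⟩
    have h2 := hmax' v hv
    rw [max_eq_left (not_le.1 h1).le] at h2
    exact (le_max_right _ _).trans h2

/-- Holomorphic invariant functions of polynomial growth are constant. -/
theorem hol_const_rec_t {f : Vec n → ℂ} (hΓ : Rec Γ) (hd : ∀ v ∈ Cone n, DifferentiableAt ℝ f v)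
    (hpb : ∀ v ∈ Cone n, ∀ ξ, pb f v ξ = 0) (hh : Homog f)
    (hinv : ∀ γ ∈ Γ, ∀ v ∈ Cone n, f (act γ v) = f v) (hg : Pol f) :
    ∀ v ∈ Cone n, f v = f (base n) := by
  have hcont : ContinuousOn f (Cone n) := fun v hv => (hd v hv).continuousAt.continuousWithinAt
  have hdC' : ∀ v ∈ Cone n, DifferentiableAt ℂ f v := fun v hv =>
    differentiableAt_of_pb (hd v hv) (hpb v hv)
  obtain ⟨v₀, hv₀, hmax⟩ := hΓ.max_of_touch (ψ := fun v => ‖f v‖)
    (fun c hc v hv => congrArg norm (hh c hc v hv)) hcont.norm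
    (fun γ hγ v hv => congrArg norm (hinv γ hγ v hv)) (fun v _ => norm_nonneg _)
    (by
      obtain ⟨N, C, hC, h1⟩ := hg
      exact ⟨N, C, hC, fun g => by rw [norm_norm]; exact h1 g⟩)
    (by
      intro v hv hpos ξ
      refine ⟨fun z => f (v + z • ξ), 1, 0, one_pos, ?_, ?_, ?_, ?_⟩
      · have hcont : Continuous fun z : ℂ => v + z • ξ := by fun_prop
        have h1 : Tendsto (fun z : ℂ => v + z • ξ) (𝓝 0) (𝓝 v) := by
          have := hcont.tendsto 0
          simpa using this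
        filter_upwards [h1.eventually ((isOpen_cone n).mem_nhds hv)] with z hz
        have h2 : DifferentiableAt ℂ (fun z : ℂ => v + z • ξ) z := by fun_prop
        exact (hdC' _ hz).comp z h2
      · simp only [zero_smul, add_zero]
        exact norm_pos_iff.1 hpos
      · refine Filter.Eventually.of_forall fun z => ?_
        rw [one_mul, add_zero]
      · simp)
  have hdC : DifferentiableOn ℂ f (Cone n) := fun v hv =>
    (hdC' v hv).differentiableWithinAt
  have h1 := Complex.eqOn_of_isPreconnected_of_isMaxOn_norm (isPreconnected_cone n)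
    (isOpen_cone n) hdC hv₀ (fun v hv => hmax v hv)
  intro v hv
  have h2 : f v = f v₀ := h1 hv
  have h3 : f (base n) = f v₀ := h1 (base_mem n)
  rw [h2, h3]

/-- A section as in `HM.sec_zero` whose norm attains its maximum vanishes. -/
theorem sec_zero_of_max {y : Vec n → Vec n} (hd : ∀ v ∈ Cone n, DifferentiableAt ℝ y v)
    (horth : ∀ v ∈ Cone n, herm v (y v) = 0)
    (hpb : ∀ v ∈ Cone n, ∀ η, pb y v η = -((herm η (y v) / (q v : ℂ)) • v)) {v₀ : Vec n}
    (hv₀ : v₀ ∈ Cone n) (hmax : ∀ v ∈ Cone n, q (y v) ≤ q (y v₀)) :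
    ∀ v ∈ Cone n, y v = 0 := by
  -- it suffices that `y v₀ = 0`
  suffices hy0 : y v₀ = 0 by
    intro v hv
    by_contra hne
    have h1 := q_pos_of_orth hv (horth v hv) hne
    have h2 := hmax v hv
    rw [hy0] at h2
    have h3 : q (0 : Vec n) = 0 := by unfold q herm; simp
    rw [h3] at h2
    linarith
  by_contra hne
  set y₀ := y v₀ with hy₀
  have hf₀ : 0 < q y₀ := q_pos_of_orth hv₀ (horth v₀ hv₀) hne
  have hq₀ : q v₀ < 0 := hv₀
  have ho₀ : herm v₀ y₀ = 0 := horth v₀ hv₀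
  have ho₀' : herm y₀ v₀ = 0 := by rw [herm_comm, ho₀, star_zero]
  -- the holomorphic function
  set Φ : Vec n → ℂ := fun w => herm v₀ w * herm y₀ (y w) - herm v₀ (y w) * herm y₀ w with hΦ
  have hΦd : ∀ v ∈ Cone n, DifferentiableAt ℂ Φ v := by
    intro v hv
    have hz : ∀ ξ, HasZ Φ v ξ (herm v₀ v * herm y₀ (pz y v ξ) + herm v₀ ξ * herm y₀ (y v) -
        (herm v₀ (y v) * herm y₀ ξ + herm v₀ (pz y v ξ) * herm y₀ v))
        (herm v₀ v * herm y₀ (pb y v ξ) + 0 * herm y₀ (y v) -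
        (herm v₀ (y v) * 0 + herm v₀ (pb y v ξ) * herm y₀ v)) := by
      intro ξ
      have h1 : HasZ (fun w => herm y₀ (y w)) v ξ (herm y₀ (pz y v ξ)) (herm y₀ (pb y v ξ)) :=
        (hasZ (hd v hv) ξ).clm (hmL n (star y₀))
      have h2 : HasZ (fun w => herm v₀ (y w)) v ξ (herm v₀ (pz y v ξ)) (herm v₀ (pb y v ξ)) :=
        (hasZ (hd v hv) ξ).clm (hmL n (star v₀))
      exact ((hasZ_herm_left v₀ v ξ).mul' h1).sub (h2.mul' (hasZ_herm_left y₀ v ξ))
    refine differentiableAt_of_pb (hz 0).diff ?_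
    intro ξ
    rw [(hz ξ).pb, hpb v hv ξ, ← neg_smul, herm_smul_right, herm_smul_right]
    ring
  -- restriction to the complex line
  set line : ℂ → Vec n := fun z => v₀ + z • y₀ with hline
  have hlc : Continuous line := by fun_prop
  have hlC : ∀ᶠ z in 𝓝 (0 : ℂ), line z ∈ Cone n := by
    have : line 0 ∈ Cone n := by rw [hline]; simpa using hv₀
    exact hlc.continuousAt.eventually_mem ((isOpen_cone n).mem_nhds this)
  have hqline : ∀ z, q (line z) = q v₀ + ‖z‖ ^ 2 * q y₀ := by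
    intro z
    have h1 : (q (line z) : ℂ) = ((q v₀ + ‖z‖ ^ 2 * q y₀ : ℝ) : ℂ) := by
      rw [← herm_self, hline]
      simp only []
      rw [herm_add_right, herm_add_left, herm_add_left, herm_smul_right, herm_smul_right,
        herm_smul_left, herm_smul_left, ho₀, ho₀', herm_self, herm_self]
      have e2 : z * star z = ((‖z‖ ^ 2 : ℝ) : ℂ) := by
        rw [RCLike.star_def, Complex.mul_conj, Complex.normSq_eq_norm_sq]
      push_cast at e2 ⊢
      linear_combination (q y₀ : ℂ) * e2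
    exact_mod_cast h1
  -- the bound
  have hbound : ∀ z, line z ∈ Cone n → ‖Φ (line z)‖ ^ 2 ≤ q y₀ ^ 2 * (q v₀ * q (line z)) := by
    intro z hz
    set w := line z with hw
    have how := horth w hz
    have hwv : herm v₀ w = (q v₀ : ℂ) := by
      rw [hw, hline]
      simp only []
      rw [herm_add_right, herm_smul_right, ho₀, herm_self]
      ring
    have hwy : herm y₀ w = z * (q y₀ : ℂ) := by
      rw [hw, hline]
      simp only []
      rw [herm_add_right, herm_smul_right, ho₀', herm_self]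
      ring
    have hq0c : (q v₀ : ℂ) ≠ 0 := by exact_mod_cast hq₀.ne
    -- the vector in the plane orthogonal to `w`
    set c : ℂ := -(star z * (q y₀ : ℂ) / (q v₀ : ℂ)) with hc
    set x : Vec n := y₀ + c • v₀ with hx
    have hwv' : herm w v₀ = (q v₀ : ℂ) := by
      rw [herm_comm, hwv]
      exact Complex.conj_ofReal _
    have hwy' : herm w y₀ = star z * (q y₀ : ℂ) := by
      rw [herm_comm, hwy, star_mul]
      have : star (q y₀ : ℂ) = (q y₀ : ℂ) := Complex.conj_ofReal _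
      rw [this]
      ring
    have hwx : herm w x = 0 := by
      rw [hx, herm_add_right, herm_smul_right, hwv', hwy', hc]
      field_simp
      ring
    have hstarc : star c = -(z * (q y₀ : ℂ) / (q v₀ : ℂ)) := by
      rw [hc, star_neg, star_div₀, star_mul, star_star]
      have e1 : star (q y₀ : ℂ) = (q y₀ : ℂ) := Complex.conj_ofReal _
      have e2 : star (q v₀ : ℂ) = (q v₀ : ℂ) := Complex.conj_ofReal _
      rw [e1, e2]
      ring
    have hxy : herm x (y w) = Φ w / (q v₀ : ℂ) := by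
      rw [hΦ]
      simp only []
      rw [hwv, hwy, hx, herm_add_left, herm_smul_left, hstarc]
      field_simp
      ring
    have hqx : q x = q y₀ * q w / q v₀ := by
      have h1 : (q x : ℂ) = ((q y₀ * q w / q v₀ : ℝ) : ℂ) := by
        rw [← herm_self, hx, herm_add_right, herm_add_left, herm_add_left, herm_smul_right,
          herm_smul_right, herm_smul_left, herm_smul_left, ho₀, ho₀', herm_self, herm_self,
          hstarc, hc, hqline z]
        have e2 : z * star z = ((‖z‖ ^ 2 : ℝ) : ℂ) := by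
          rw [RCLike.star_def, Complex.mul_conj, Complex.normSq_eq_norm_sq]
        push_cast at e2 ⊢
        field_simp
        linear_combination (q y₀ : ℂ) * e2
      exact_mod_cast h1
    have h1 := cauchy_orth hz hwx how
    rw [hxy, hqx, norm_div, div_pow] at h1
    have h2 : ‖(q v₀ : ℂ)‖ ^ 2 = q v₀ ^ 2 := by
      rw [Complex.norm_real, Real.norm_eq_abs, sq_abs]
    rw [h2] at h1
    have h3 : 0 < q v₀ ^ 2 := by
      have := hq₀.ne
      positivity
    rw [div_le_iff₀ h3] at h1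
    have h4 : 0 ≤ q y₀ * q w / q v₀ * q v₀ ^ 2 := by
      have : q w < 0 := hz
      have h5 : q y₀ * q w / q v₀ * q v₀ ^ 2 = q y₀ * (q w * q v₀) := by
        field_simp
      rw [h5]
      have h6 : 0 < q w * q v₀ := mul_pos_of_neg_of_neg this hq₀
      positivity
    have h5 := hmax w hz
    calc ‖Φ w‖ ^ 2 ≤ q y₀ * q w / q v₀ * q (y w) * q v₀ ^ 2 := h1
      _ = q y₀ * q w / q v₀ * q v₀ ^ 2 * q (y w) := by ring
      _ ≤ q y₀ * q w / q v₀ * q v₀ ^ 2 * q y₀ := mul_le_mul_of_nonneg_left h5 h4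
      _ = q y₀ ^ 2 * (q v₀ * q w) := by
          have : q v₀ ≠ 0 := hq₀.ne
          field_simp
  have hΦ0 : ‖Φ (line 0)‖ ^ 2 = q y₀ ^ 2 * (q v₀ * q v₀) := by
    have e0 : line 0 = v₀ := by rw [hline]; simp
    rw [e0, hΦ]
    simp only []
    rw [herm_self, ← hy₀, herm_self, ho₀, zero_mul, sub_zero, norm_mul, Complex.norm_real,
      Complex.norm_real, mul_pow, Real.norm_eq_abs, Real.norm_eq_abs, sq_abs, sq_abs]
    ring
  have hdiff : ∀ᶠ z in 𝓝 (0 : ℂ), DifferentiableAt ℂ (fun z => Φ (line z)) z := by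
    filter_upwards [hlC] with z hz
    have h1 : DifferentiableAt ℂ line z := by
      rw [hline]
      fun_prop
    exact (hΦd _ hz).comp z h1
  have hloc : IsLocalMax (norm ∘ fun z => Φ (line z)) (0 : ℂ) := by
    filter_upwards [hlC] with z hz
    have h1 := hbound z hz
    have h2 : q v₀ * q (line z) ≤ q v₀ * q v₀ := by
      rw [hqline z]
      have : 0 ≤ ‖z‖ ^ 2 * q y₀ := by positivity
      nlinarith
    have h3 : ‖Φ (line z)‖ ^ 2 ≤ ‖Φ (line 0)‖ ^ 2 := by
      rw [hΦ0]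
      exact h1.trans (mul_le_mul_of_nonneg_left h2 (by positivity))
    exact le_of_sq_le_sq h3 (norm_nonneg _)
  have hconst := Complex.eventually_eq_of_isLocalMax_norm hdiff hloc
  -- contradiction
  obtain ⟨ε, hε, hball⟩ := Metric.eventually_nhds_iff.1 (hconst.and hlC)
  obtain ⟨hz1, hz2⟩ := hball (y := ((ε / 2 : ℝ) : ℂ)) (by
    rw [dist_zero_right, Complex.norm_real, Real.norm_of_nonneg (by positivity)]
    linarith)
  have h1 := hbound _ hz2
  rw [hz1, hΦ0, hqline _, Complex.norm_real, Real.norm_of_nonneg (by positivity)] at h1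
  have hz3 : 0 < (ε / 2) ^ 2 := by positivity
  have h2 : 0 < q y₀ ^ 2 := by positivity
  have h3 : q v₀ * q v₀ ≤ q v₀ * (q v₀ + (ε / 2) ^ 2 * q y₀) := le_of_mul_le_mul_left h1 h2
  have h4 : 0 < (ε / 2) ^ 2 * q y₀ := by positivity
  nlinarith

theorem phi_bound {v₀ y₀ w Y : Vec n} (hv₀ : v₀ ∈ Cone n) (ho : herm v₀ y₀ = 0)
    (hw : w ∈ Cone n) (hY : herm w Y = 0) :
    ‖herm v₀ w * herm y₀ Y - herm v₀ Y * herm y₀ w‖ ^ 2 ≤ ‖herm v₀ w‖ ^ 2 * q y₀ * q Y := by
  set x : Vec n := star (herm v₀ w) • y₀ - star (herm y₀ w) • v₀ with hx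
  have e0 : herm w y₀ = star (herm y₀ w) := herm_comm y₀ w
  have e1 : herm w v₀ = star (herm v₀ w) := herm_comm v₀ w
  have ho' : herm y₀ v₀ = 0 := by rw [herm_comm, ho, star_zero]
  have hwx : herm w x = 0 := by
    rw [hx, sub_eq_add_neg, ← neg_smul, herm_add_right, herm_smul_right, herm_smul_right, e0, e1]
    ring
  have hxY : herm x Y = herm v₀ w * herm y₀ Y - herm v₀ Y * herm y₀ w := by
    rw [hx, sub_eq_add_neg, ← neg_smul, herm_add_left, herm_smul_left, herm_smul_left, star_neg,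
      star_star, star_star]
    ring
  have hqx : q x = ‖herm v₀ w‖ ^ 2 * q y₀ + ‖herm y₀ w‖ ^ 2 * q v₀ := by
    have h1 : (q x : ℂ) = ((‖herm v₀ w‖ ^ 2 * q y₀ + ‖herm y₀ w‖ ^ 2 * q v₀ : ℝ) : ℂ) := by
      rw [← herm_self, hx, sub_eq_add_neg, ← neg_smul]
      simp only [herm_add_right, herm_add_left, herm_smul_right, herm_smul_left, ho, ho',
        star_neg, star_star]
      simp only [herm_self]
      have e2 : herm v₀ w * star (herm v₀ w) = ((‖herm v₀ w‖ ^ 2 : ℝ) : ℂ) := by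
        rw [RCLike.star_def, Complex.mul_conj, Complex.normSq_eq_norm_sq]
      have e3 : herm y₀ w * star (herm y₀ w) = ((‖herm y₀ w‖ ^ 2 : ℝ) : ℂ) := by
        rw [RCLike.star_def, Complex.mul_conj, Complex.normSq_eq_norm_sq]
      push_cast at e2 e3 ⊢
      linear_combination (q y₀ : ℂ) * e2 + (q v₀ : ℂ) * e3
    exact_mod_cast h1
  have h1 := cauchy_orth hw hwx hY
  rw [hxY, hqx] at h1
  have h2 : q v₀ < 0 := hv₀
  have h3 := q_nonneg_of_orth hw hY
  have h4 : 0 ≤ ‖herm y₀ w‖ ^ 2 := by positivity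
  nlinarith [mul_nonneg (mul_nonneg h4 (neg_nonneg.2 h2.le)) h3]

theorem abs_q_le (v : Vec n) : |q v| ≤ (n + 1) * ‖v‖ ^ 2 := by
  have h1 : ∀ i : Fin (n + 1), ‖v i‖ ^ 2 ≤ ‖v‖ ^ 2 := fun i =>
    pow_le_pow_left₀ (norm_nonneg _) (norm_le_pi_norm v i) 2
  have h2 : 0 ≤ ∑ i : Fin n, ‖v i.castSucc‖ ^ 2 := Finset.sum_nonneg fun i _ => sq_nonneg _
  have h3 : ∑ i : Fin n, ‖v i.castSucc‖ ^ 2 ≤ n * ‖v‖ ^ 2 := by
    calc ∑ i : Fin n, ‖v i.castSucc‖ ^ 2 ≤ ∑ _i : Fin n, ‖v‖ ^ 2 :=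
          Finset.sum_le_sum fun i _ => h1 i.castSucc
      _ = n * ‖v‖ ^ 2 := by simp
  have h4 := h1 (Fin.last n)
  have h5 : 0 ≤ ‖v (Fin.last n)‖ ^ 2 := sq_nonneg _
  rw [q_eq, abs_le]
  constructor <;> nlinarith

theorem pol_q {y : Vec n → Vec n} (hg : Pol y) : Pol fun v => q (y v) := by
  obtain ⟨N, C, hC, h1⟩ := hg
  refine ⟨2 * N, (n + 1) * C ^ 2, by positivity, fun g => ?_⟩
  have h2 := pow_le_pow_left₀ (norm_nonneg _) (h1 g) 2
  calc ‖q (y (act g (base n)))‖ ≤ (n + 1) * ‖y (act g (base n))‖ ^ 2 := abs_q_le _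
    _ ≤ (n + 1) * (C * ch g ^ N) ^ 2 := mul_le_mul_of_nonneg_left h2 (by positivity)
    _ = (n + 1) * C ^ 2 * ch g ^ (2 * N) := by ring

theorem touch_sec {y : Vec n → Vec n} (hd : ∀ v ∈ Cone n, DifferentiableAt ℝ y v)
    (horth : ∀ v ∈ Cone n, herm v (y v) = 0)
    (hpb : ∀ v ∈ Cone n, ∀ η, pb y v η = -((herm η (y v) / (q v : ℂ)) • v)) :
    Touch fun v => q (y v) := by
  intro v₀ hv₀ hpos ξ
  set y₀ := y v₀ with hy₀
  have ho : herm v₀ y₀ = 0 := horth v₀ hv₀
  have hq₀ : q v₀ < 0 := hv₀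
  have hpos' : 0 < q y₀ := hpos
  set Φ : Vec n → ℂ := fun w => herm v₀ w * herm y₀ (y w) - herm v₀ (y w) * herm y₀ w with hΦ
  have hΦd : ∀ v ∈ Cone n, DifferentiableAt ℂ Φ v := by
    intro v hv
    have hz : ∀ ξ, HasZ Φ v ξ (herm v₀ v * herm y₀ (pz y v ξ) + herm v₀ ξ * herm y₀ (y v) -
        (herm v₀ (y v) * herm y₀ ξ + herm v₀ (pz y v ξ) * herm y₀ v))
        (herm v₀ v * herm y₀ (pb y v ξ) + 0 * herm y₀ (y v) -
        (herm v₀ (y v) * 0 + herm v₀ (pb y v ξ) * herm y₀ v)) := by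
      intro ξ
      have h1 : HasZ (fun w => herm y₀ (y w)) v ξ (herm y₀ (pz y v ξ)) (herm y₀ (pb y v ξ)) :=
        (hasZ (hd v hv) ξ).clm (hmL n (star y₀))
      have h2 : HasZ (fun w => herm v₀ (y w)) v ξ (herm v₀ (pz y v ξ)) (herm v₀ (pb y v ξ)) :=
        (hasZ (hd v hv) ξ).clm (hmL n (star v₀))
      exact ((hasZ_herm_left v₀ v ξ).mul' h1).sub (h2.mul' (hasZ_herm_left y₀ v ξ))
    refine differentiableAt_of_pb (hz 0).diff ?_
    intro ξ
    rw [(hz ξ).pb, hpb v hv ξ, ← neg_smul, herm_smul_right, herm_smul_right]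
    ring
  set line : ℂ → Vec n := fun z => v₀ + z • ξ with hline
  have hlc : Continuous line := by fun_prop
  have hl0 : line 0 = v₀ := by rw [hline]; simp
  have hlC : ∀ᶠ z in 𝓝 (0 : ℂ), line z ∈ Cone n := by
    have : line 0 ∈ Cone n := by rw [hl0]; exact hv₀
    exact hlc.continuousAt.eventually_mem ((isOpen_cone n).mem_nhds this)
  set H : ℂ → ℂ := fun z => Φ (line z) / herm v₀ (line z) with hH
  have hH0 : H 0 = (q y₀ : ℂ) := by
    rw [hH]
    simp only []
    rw [hl0, hΦ]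
    simp only []
    have hqc : (q v₀ : ℂ) ≠ 0 := by exact_mod_cast hq₀.ne
    rw [← hy₀, ho, zero_mul, sub_zero, herm_self, herm_self, mul_div_assoc, mul_comm,
      div_mul_cancel₀ _ hqc]
  have hHd : ∀ᶠ z in 𝓝 (0 : ℂ), DifferentiableAt ℂ H z := by
    filter_upwards [hlC] with z hz
    have h1 : DifferentiableAt ℂ line z := by
      rw [hline]
      fun_prop
    have h2 : DifferentiableAt ℂ (fun z => Φ (line z)) z := (hΦd _ hz).comp z h1
    have h3 : DifferentiableAt ℂ (fun z => herm v₀ (line z)) z := by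
      have h4 : (fun z => herm v₀ (line z)) = fun z : ℂ => herm v₀ v₀ + z * herm v₀ ξ := by
        funext z
        rw [hline]
        simp only []
        rw [herm_add_right, herm_smul_right]
      rw [h4]
      fun_prop
    exact h2.div h3 (herm_ne_zero hv₀ hz)
  have hHne : H 0 ≠ 0 := by
    rw [hH0]
    exact_mod_cast hpos'.ne'
  refine ⟨H, 2, -Real.log (q y₀), two_pos, hHd, hHne, ?_, ?_⟩
  · have h1 : ∀ᶠ z in 𝓝 (0 : ℂ), H z ≠ 0 :=
      (hHd.self_of_nhds).continuousAt.eventually_ne hHne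
    filter_upwards [hlC, h1] with z hz hne
    have h2 := phi_bound hv₀ ho hz (horth _ hz)
    have h3 : 0 < ‖herm v₀ (line z)‖ ^ 2 := by
      have := herm_ne_zero hv₀ hz
      positivity
    have h4 : ‖H z‖ ^ 2 ≤ q y₀ * q (y (line z)) := by
      rw [hH]
      simp only []
      rw [norm_div, div_pow, div_le_iff₀ h3]
      calc ‖Φ (line z)‖ ^ 2 ≤ _ := h2
        _ = _ := by ring
    have h5 : 0 < ‖H z‖ := norm_pos_iff.2 hne
    have h6 : 0 < q (y (line z)) := by
      by_contra h7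
      have h8 : q y₀ * q (y (line z)) ≤ 0 :=
        mul_nonpos_of_nonneg_of_nonpos hpos'.le (not_lt.1 h7)
      have h9 : 0 < ‖H z‖ ^ 2 := by positivity
      linarith
    have h7 := Real.log_le_log (by positivity) h4
    rw [Real.log_pow, Real.log_mul hpos'.ne' h6.ne'] at h7
    push_cast at h7
    show 2 * Real.log ‖H z‖ + -Real.log (q y₀) ≤ Real.log (q (y (line z)))
    linarith
  · rw [hH0, Complex.norm_real, Real.norm_of_nonneg hpos'.le]
    show Real.log (q y₀) = _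
    ring

/-- A section of polynomial growth as in `HM.sec_zero` vanishes. -/
theorem sec_zero_rec_t (hΓ : Rec Γ) {y : Vec n → Vec n} (hd : ∀ v ∈ Cone n, DifferentiableAt ℝ y v)
    (hh : Homog y) (hinv : ∀ γ ∈ Γ, ∀ v ∈ Cone n, y (act γ v) = act γ (y v))
    (horth : ∀ v ∈ Cone n, herm v (y v) = 0)
    (hpb : ∀ v ∈ Cone n, ∀ η, pb y v η = -((herm η (y v) / (q v : ℂ)) • v)) (hg : Pol y) :
    ∀ v ∈ Cone n, y v = 0 := by
  have hcont : ContinuousOn y (Cone n) := fun v hv => (hd v hv).continuousAt.continuousWithinAt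
  obtain ⟨v₀, hv₀, hmax⟩ := hΓ.max_of_touch (ψ := fun v => q (y v))
    (fun c hc v hv => congrArg q (hh c hc v hv))
    (continuous_q.comp_continuousOn hcont)
    (fun γ hγ v hv => (congrArg q (hinv γ hγ v hv)).trans (q_act _ _))
    (fun v hv => q_nonneg_of_orth hv (horth v hv)) (pol_q hg) (touch_sec hd horth hpb)
  exact sec_zero_of_max hd horth hpb hv₀ hmax

end Pool.Agent.Lib.MP_5d4057_al.RC
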