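import Pool.Agent.Lib.MP_5d4057_al.RC.WideC

/-! Section F2 for groups with the Liouville property: pieces contained in `SU(H, K)`. -/

set_option autoImplicit false

namespace Pool.Agent.Lib.MP_5d4057_al.RC

open Matrix Filter Topology Pool.Agent.Lib.MP_5d4057_al Pool.Agent.Lib.MP_5d4057_al.Hyb
  Pool.Agent.Lib.MP_5d4057_al.HM

open scoped ComplexOrder MatrixOrder Matrix.Norms.L2Operator

variable {n m j k : ℕ}

/-- The data of F2. -/
theorem two_data_id_rec (Γ : Fin 2 → Subgroup (SUGroup (k + 1)))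
    (g : Fin 2 → SUGroup (k + 2)) (hcoc : Rec (hybrid Γ g)) (HL : HLat (hybrid Γ g))
    (hcocb : ∀ b, Rec (Γ b))
    (hspanb : ∀ b, Submodule.span ℂ (SUGroup.toMatrix '' (Γ b : Set (SUGroup (k + 1)))) = ⊤)
    {K : Subfield ℂ} {D : Matrix (Fin (k + 1)) (Fin (k + 1)) ℂ}
    {HD : Matrix (Fin (k + 1)) (Fin (k + 1)) K} {μ : Fin 2 → ℂ} {q : Fin 2 → K}
    (hn : IsNF k K D HD μ q) (hrat : ∀ b, ∀ γ ∈ Γ b, EntriesIn K (dsum (μ b) D) γ.toMatrix)
    {X : Matrix (Fin 2) (Fin 2) ℂ} {ζ : ℂ} (hζ : star ζ * ζ = 1)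
    (hg : (g 1).toMatrix = (g 0).toMatrix * (ζ • bsum X 1)) (h01 : X 0 1 ≠ 0)
    (t : ℂ ≃+* ℂ) (ht : ∀ x : K, t (x : ℂ) = x) :
    ∃ (F : Vec (k + 2) → Mat (k + 3)) (Q : Fin 2 → Mat (k + 3)) (l a : Fin 2 → ℂ) (Y : Mat 2),
      (∀ b, IsUnit (Q b)) ∧
      (∀ b, ∀ γ : Γ b, rhoT t (hybrid Γ g) (embHyb Γ g b γ) =
        Q b * dsum 1 (γ : SUGroup (k + 1)).toMatrix * (Q b)⁻¹) ∧
      Homog F ∧
      (∀ b, Pce (k + 1) (Γ b) (fun v => (Q b)⁻¹ * F (act (g b) v) * ((Q b)⁻¹)ᴴ) (l b) (a b)) ∧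
      (∀ b, HarmG fun v => (Q b)⁻¹ * F (act (g b) v) * ((Q b)⁻¹)ᴴ) ∧
      Q 1 = Q 0 * bsum Y (t ζ • 1) ∧ Y 0 1 ≠ 0 ∧ a 0 = t ζ * star (t ζ) * a 1 := by
  set ρ := rhoT t (hybrid Γ g)
  obtain ⟨F, hG, hFe⟩ := HL t
  have hF : Harm F := hG.toHarm
  -- the matrices
  have hBd : ∀ b, (dsum (μ b) D).det ≠ 0 := by
    intro b
    rw [det_dsum]
    exact mul_ne_zero (hn.μ_ne b) hn.det
  set E : Mat (k + 1) := D.map t * D⁻¹ with hE
  set ν : Fin 2 → ℂ := fun b => t (μ b) * (μ b)⁻¹ with hν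
  have hν0 : ∀ b, ν b ≠ 0 := fun b => mul_ne_zero ((map_ne_zero t).2 (hn.μ_ne b))
    (inv_ne_zero (hn.μ_ne b))
  have hEb : ∀ b, (dsum (μ b) D).map t * (dsum (μ b) D)⁻¹ = dsum (ν b) E := by
    intro b
    rw [tm_dsum, dsum_inv _ _ (hn.μ_ne b) hn.det, dsum_mul]
  have hEu : IsUnit E := (tm_unit t hn.det).mul
    (isUnit_nonsing_inv_iff.2 ((isUnit_iff_isUnit_det D).2 (isUnit_iff_ne_zero.2 hn.det)))
  have hEd : E.det ≠ 0 := ((isUnit_iff_isUnit_det E).1 hEu).ne_zero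
  have hEbu : ∀ b, IsUnit (dsum (ν b) E) := by
    intro b
    rw [isUnit_iff_isUnit_det, det_dsum, isUnit_iff_ne_zero]
    exact mul_ne_zero (hν0 b) hEd
  set Q : Fin 2 → Mat (k + 3) := fun b => (g b).toMatrix.map t * dsum 1 (dsum (ν b) E) with hQ
  have hQu : ∀ b, IsUnit (Q b) := by
    intro b
    refine (tm_gp_unit t (g b)).mul ?_
    rw [isUnit_iff_isUnit_det, det_dsum, one_mul]
    exact (isUnit_iff_isUnit_det _).1 (hEbu b)
  have hQρ : ∀ b, ∀ γ : Γ b, ρ (embHyb Γ g b γ) =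
      Q b * dsum 1 (γ : SUGroup (k + 1)).toMatrix * (Q b)⁻¹ := by
    intro b γ
    have h1 := rhoT_emb t Γ g b γ
    rw [rhoT_apply, tm_fix t ht (hBd b) (hrat b γ γ.2), hEb b] at h1
    have h2 : ρ (embHyb Γ g b γ) = ((rhoT t (hybrid Γ g)).comp (embHyb Γ g b)) γ := rfl
    have hdu := (isUnit_iff_isUnit_det _).1 (hEbu b)
    rw [h2, h1, hQ]
    show _ = (g b).toMatrix.map t * dsum 1 (dsum (ν b) E) * dsum 1 (γ : SUGroup (k + 1)).toMatrix *
      ((g b).toMatrix.map t * dsum 1 (dsum (ν b) E))⁻¹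
    rw [Matrix.mul_inv_rev, dsum_inv' one_ne_zero (hEbu b), inv_one]
    have h3 : dsum (1 : ℂ) (dsum (ν b) E * (γ : SUGroup (k + 1)).toMatrix * (dsum (ν b) E)⁻¹) =
        dsum 1 (dsum (ν b) E) * dsum 1 (γ : SUGroup (k + 1)).toMatrix *
          dsum 1 (dsum (ν b) E)⁻¹ := by
      rw [dsum_mul, dsum_mul, one_mul, one_mul]
    rw [h3]
    simp only [Matrix.mul_assoc]
  -- the metric on the hyperplanes
  have hsl : ∀ b, ∃ l a : ℂ, 0 < l ∧ 0 < a ∧ ∀ w ∈ Cone (k + 1), F (HM.hyp (g b) w) =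
      Q b * dsum l (a • std w) * (Q b)ᴴ := by
    intro b
    refine slice_form_rec (by omega) (hcocb b) (rhoT (RingEquiv.refl ℂ) (Γ b))
      (span_rhoT _ _ (hspanb b)) harm_std pol_std_inv (equi_std (Γ b)) (hQu b) (hF.hyp (g b))
      (hG.gr.comp_hyp (g b)) (ρ.comp (embHyb Γ g b)) ?_ (hFe.hyp b)
    intro γ
    rw [rhoT_refl]
    exact hQρ b γ
  choose l a hl ha hFb using hsl
  -- the relation of the matrices
  set Y : Mat 2 := t ζ • (!![1, 0; 0, (ν 0)⁻¹] * X.map t * !![1, 0; 0, ν 1]) with hY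
  have hQ1 : Q 1 = Q 0 * bsum Y (t ζ • 1) := by
    show (g 1).toMatrix.map t * dsum 1 (dsum (ν 1) E) =
      (g 0).toMatrix.map t * dsum 1 (dsum (ν 0) E) * bsum Y (t ζ • 1)
    rw [hg, tm_mul, tm_smul, tm_bsum, tm_one, dsum_dsum, dsum_dsum, Matrix.mul_assoc,
      Matrix.mul_assoc]
    congr 1
    rw [Matrix.smul_mul, bsum_mul, bsum_mul, smul_bsum]
    congr 1
    · rw [hY, Matrix.mul_smul, ← Matrix.mul_assoc, ← Matrix.mul_assoc]
      have h4 : (!![1, 0; 0, ν 0] : Mat 2) * !![1, 0; 0, (ν 0)⁻¹] = 1 := by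
        rw [Matrix.mul_fin_two, Matrix.one_fin_two]
        simp [hν0 0]
      rw [h4, Matrix.one_mul]
    · rw [Matrix.one_mul, Matrix.mul_smul, Matrix.mul_one]
  have hζ0 : t ζ ≠ 0 := by
    refine (map_ne_zero t).2 ?_
    intro h
    rw [h, mul_zero] at hζ
    exact zero_ne_one hζ
  have hY01 : Y 0 1 ≠ 0 := by
    have : Y 0 1 = t ζ * (t (X 0 1) * ν 1) := by
      simp only [hY, Matrix.smul_apply, Matrix.mul_apply, Fin.sum_univ_two, Matrix.of_apply,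
        Matrix.cons_val', Matrix.cons_val_zero, Matrix.cons_val_one, Matrix.map_apply, smul_eq_mul,
        one_mul, zero_mul, mul_zero, add_zero, zero_add, Matrix.cons_val_fin_one]
    rw [this]
    exact mul_ne_zero hζ0 (mul_ne_zero ((map_ne_zero t).2 h01) (hν0 1))
  clear_value Q Y
  -- comparison at the base point
  have hb : base (k + 1) ∈ Cone (k + 1) := base_mem _
  have hb0 := hFb 0 _ hb
  have hb1 := hFb 1 _ hb
  have hQ0' : IsUnit (Q 0)ᴴ := (isUnit_conjTranspose _).2 (hQu 0)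
  have hcmp : dsum (l 0) (a 0 • (1 : Mat (k + 2))) = bsum Y (t ζ • 1) *
      dsum (l 1) (a 1 • (1 : Mat (k + 2))) * (bsum Y (t ζ • 1))ᴴ := by
    rw [std_base] at hb0 hb1
    rw [hyp_agree hζ hg hF.hom, hb0, hQ1, conjTranspose_mul] at hb1
    have h3 : Q 0 * (dsum (l 0) (a 0 • (1 : Mat (k + 2)))) * (Q 0)ᴴ = Q 0 * (bsum Y (t ζ • 1) *
        dsum (l 1) (a 1 • (1 : Mat (k + 2))) * (bsum Y (t ζ • 1))ᴴ) * (Q 0)ᴴ := by
      rw [hb1]
      simp only [Matrix.mul_assoc]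
    exact (hQu 0).mul_left_cancel (hQ0'.mul_right_cancel h3)
  have hone : (1 : Mat (k + 2)) = dsum 1 1 := dsum_one.symm
  rw [hone, smul_dsum, smul_dsum, dsum_dsum, dsum_dsum, bsum_conjTranspose, bsum_mul, bsum_mul]
    at hcmp
  obtain ⟨hc1, hc2⟩ := bsum_inj hcmp
  have ha01 : a 0 = t ζ * star (t ζ) * a 1 := by
    have h1 := congrFun (congrFun hc2 0) 0
    rw [conjTranspose_smul, conjTranspose_one] at h1
    simp only [Matrix.mul_smul, Matrix.mul_one, Matrix.smul_apply,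
      Matrix.one_apply_eq, smul_eq_mul] at h1
    linear_combination h1
  -- the invariant form
  have hJu : ∀ b, dsum (l b) (a b • J (k + 1)) * dsum (l b)⁻¹ ((a b)⁻¹ • J (k + 1)) = 1 := by
    intro b
    rw [dsum_mul, Matrix.smul_mul, Matrix.mul_smul, J_J, smul_smul, mul_inv_cancel₀ (hl b).ne',
      mul_inv_cancel₀ (ha b).ne', one_smul, dsum_one]
  set N : Mat (k + 3) := Q 0 * dsum (l 0) (a 0 • J (k + 1)) * (Q 0)ᴴ with hN
  have hNb : ∀ b, N = Q b * dsum (l b) (a b • J (k + 1)) * (Q b)ᴴ := by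
    rw [Fin.forall_fin_two]
    refine ⟨rfl, ?_⟩
    rw [hN, hQ1, conjTranspose_mul]
    have h1 : dsum (l 0) (a 0 • J (k + 1)) = bsum Y (t ζ • 1) * dsum (l 1) (a 1 • J (k + 1)) *
        (bsum Y (t ζ • 1))ᴴ := by
      rw [J_succ, smul_dsum, smul_dsum, dsum_dsum, dsum_dsum, bsum_conjTranspose, bsum_mul, bsum_mul,
        ← hc1]
      congr 1
      rw [conjTranspose_smul, conjTranspose_one, ha01]
      simp only [Matrix.mul_smul, Matrix.smul_mul, Matrix.mul_one, Matrix.one_mul, smul_smul]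
      congr 1
      ring
    rw [h1]
    simp only [Matrix.mul_assoc]
  have hNu : IsUnit N := ((hQu 0).mul (IsUnit.of_mul_eq_one _ (hJu 0))).mul hQ0'
  have hreal : ∀ {z : ℂ}, 0 < z → star z = z := by
    intro z hz
    rw [Complex.star_def, Complex.conj_eq_iff_im]
    exact (Complex.lt_def.1 hz).2.symm
  have hNh : Nᴴ = N := by
    rw [hN, conjTranspose_mul, conjTranspose_mul, conjTranspose_conjTranspose, dsum_conjTranspose,
      conjTranspose_smul, J_herm, hreal (hl 0), hreal (ha 0), Matrix.mul_assoc]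
  have hNinv : ∀ γ : hybrid Γ g, ρ γ * N * (ρ γ)ᴴ = N := by
    have h1 : ∀ x ∈ hybrid Γ g, x.toMatrix.map t * N * (x.toMatrix.map t)ᴴ = N := by
      intro x hx
      induction hx using Subgroup.closure_induction with
      | mem x hx =>
        obtain ⟨b, γ, hγ, rfl⟩ := hx
        have h2 := hQρ b ⟨γ, hγ⟩
        have h3 : (g b * extend (k + 1) γ * (g b)⁻¹).toMatrix.map t =
            Q b * dsum 1 γ.toMatrix * (Q b)⁻¹ := h2
        rw [h3, hNb b]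
        have hd := (isUnit_iff_isUnit_det _).1 (hQu b)
        have e1 : (Q b)⁻¹ * Q b = 1 := nonsing_inv_mul _ hd
        have e2 : (Q b)ᴴ * ((Q b)⁻¹)ᴴ = 1 := by
          rw [← conjTranspose_mul, e1, conjTranspose_one]
        have e3 : dsum 1 γ.toMatrix * dsum (l b) (a b • J (k + 1)) * (dsum 1 γ.toMatrix)ᴴ =
            dsum (l b) (a b • J (k + 1)) := by
          rw [dsum_conjTranspose, dsum_mul, dsum_mul, Matrix.mul_smul, Matrix.smul_mul, mul_J_mul,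
            star_one, one_mul, mul_one]
        calc Q b * dsum 1 γ.toMatrix * (Q b)⁻¹ * (Q b * dsum (l b) (a b • J (k + 1)) * (Q b)ᴴ) *
              (Q b * dsum 1 γ.toMatrix * (Q b)⁻¹)ᴴ
            = Q b * dsum 1 γ.toMatrix * ((Q b)⁻¹ * Q b) * dsum (l b) (a b • J (k + 1)) *
              ((Q b)ᴴ * ((Q b)⁻¹)ᴴ) * (dsum 1 γ.toMatrix)ᴴ * (Q b)ᴴ := by
              rw [conjTranspose_mul, conjTranspose_mul]
              simp only [Matrix.mul_assoc]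
          _ = Q b * (dsum 1 γ.toMatrix * dsum (l b) (a b • J (k + 1)) *
              (dsum 1 γ.toMatrix)ᴴ) * (Q b)ᴴ := by
              rw [e1, e2]
              simp only [Matrix.mul_assoc, Matrix.mul_one]
          _ = _ := by rw [e3]
      | one => rw [toMatrix_one, tm_one, Matrix.one_mul, conjTranspose_one, Matrix.mul_one]
      | mul x y _ _ hx hy =>
        rw [toMatrix_mul, tm_mul, conjTranspose_mul]
        calc x.toMatrix.map t * y.toMatrix.map t * N * ((y.toMatrix.map t)ᴴ * (x.toMatrix.map t)ᴴ)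
            = x.toMatrix.map t * (y.toMatrix.map t * N * (y.toMatrix.map t)ᴴ) *
              (x.toMatrix.map t)ᴴ := by simp only [Matrix.mul_assoc]
          _ = _ := by rw [hy, hx]
      | inv x _ hx =>
        have hu := tm_gp_unit t x
        have hd := (isUnit_iff_isUnit_det _).1 hu
        rw [tm_gp_inv]
        set A := x.toMatrix.map t with hA
        have e1 : A⁻¹ * A = 1 := nonsing_inv_mul _ hd
        have e2 : Aᴴ * (A⁻¹)ᴴ = 1 := by rw [← conjTranspose_mul, e1, conjTranspose_one]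
        calc A⁻¹ * N * (A⁻¹)ᴴ = A⁻¹ * (A * N * Aᴴ) * (A⁻¹)ᴴ := by rw [hx]
          _ = (A⁻¹ * A) * N * (Aᴴ * (A⁻¹)ᴴ) := by simp only [Matrix.mul_assoc]
          _ = N := by rw [e1, e2, Matrix.one_mul, Matrix.mul_one]
    intro γ
    exact h1 γ γ.2
  -- the reflected metric
  have hF' : Harm fun v => N * (F v)⁻¹ * N := by
    have := hF.inv.congr hNu
    rwa [hNh] at this
  have hρu : ∀ γ, IsUnit (ρ γ) := fun γ => tm_gp_unit t (γ : SUGroup (k + 2))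
  have hFe' : Equi ρ fun v => N * (F v)⁻¹ * N := by
    intro γ v hv
    show N * (F (act (γ : SUGroup (k + 2)) v))⁻¹ * N = ρ γ * (N * (F v)⁻¹ * N) * (ρ γ)ᴴ
    rw [hFe γ v hv]
    have hd := (isUnit_iff_isUnit_det _).1 (hρu γ)
    have hi := hNinv γ
    set A := ρ γ with hA
    have e1 : A⁻¹ * A = 1 := nonsing_inv_mul _ hd
    have hd' := (isUnit_iff_isUnit_det _).1 ((isUnit_conjTranspose A).2 (hρu γ))
    have e2 : Aᴴ * Aᴴ⁻¹ = 1 := mul_nonsing_inv _ hd'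
    have i1 : N * Aᴴ⁻¹ = A * N := by
      calc N * Aᴴ⁻¹ = (A * N * Aᴴ) * Aᴴ⁻¹ := by rw [hi]
        _ = A * N * (Aᴴ * Aᴴ⁻¹) := by simp only [Matrix.mul_assoc]
        _ = _ := by rw [e2, Matrix.mul_one]
    have i2 : A⁻¹ * N = N * Aᴴ := by
      calc A⁻¹ * N = A⁻¹ * (A * N * Aᴴ) := by rw [hi]
        _ = (A⁻¹ * A) * N * Aᴴ := by simp only [Matrix.mul_assoc]
        _ = _ := by rw [e1, Matrix.one_mul]
    rw [Matrix.mul_inv_rev, Matrix.mul_inv_rev]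
    calc N * (Aᴴ⁻¹ * ((F v)⁻¹ * A⁻¹)) * N = (N * Aᴴ⁻¹) * (F v)⁻¹ * (A⁻¹ * N) := by
          simp only [Matrix.mul_assoc]
      _ = _ := by rw [i1, i2]; simp only [Matrix.mul_assoc]
  have hinvQ : ∀ b, ∀ A : Mat (k + 3), (Q b * A * (Q b)ᴴ)⁻¹ = (Q b)ᴴ⁻¹ * A⁻¹ * (Q b)⁻¹ := by
    intro b A
    rw [Matrix.mul_inv_rev, Matrix.mul_inv_rev, ← Matrix.mul_assoc]
  have hcan : ∀ b, (Q b)⁻¹ * Q b = 1 ∧ (Q b)ᴴ * (Q b)ᴴ⁻¹ = 1 := by
    intro b
    have hd := (isUnit_iff_isUnit_det _).1 (hQu b)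
    have hd' := (isUnit_iff_isUnit_det _).1 ((isUnit_conjTranspose (Q b)).2 (hQu b))
    exact ⟨nonsing_inv_mul _ hd, mul_nonsing_inv _ hd'⟩
  have hrefl : ∀ v ∈ Cone (k + 2), N * (F v)⁻¹ * N = F v := by
    refine eq_of_unique_rec (by omega) hcoc hF hF' hFe hFe' hG.grInv (hG.grInv.conj N N)
      (hyp_mem (g 0) hb) ?_
    show N * (F (HM.hyp (g 0) (base (k + 1))))⁻¹ * N = F (HM.hyp (g 0) (base (k + 1)))
    have h1u : IsUnit (a 0 • (1 : Mat (k + 2))) := by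
      refine IsUnit.of_mul_eq_one ((a 0)⁻¹ • (1 : Mat (k + 2))) ?_
      rw [Matrix.smul_mul, Matrix.mul_smul, smul_smul, mul_inv_cancel₀ (ha 0).ne',
        one_smul, Matrix.one_mul]
    rw [hb0, std_base, hinvQ, dsum_inv' (hl 0).ne' h1u, hN]
    obtain ⟨e1, e2⟩ := hcan 0
    calc Q 0 * dsum (l 0) (a 0 • J (k + 1)) * (Q 0)ᴴ * ((Q 0)ᴴ⁻¹ *
          dsum (l 0)⁻¹ (a 0 • (1 : Mat (k + 2)))⁻¹ * (Q 0)⁻¹) *
          (Q 0 * dsum (l 0) (a 0 • J (k + 1)) * (Q 0)ᴴ)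
        = Q 0 * dsum (l 0) (a 0 • J (k + 1)) * ((Q 0)ᴴ * (Q 0)ᴴ⁻¹) *
          dsum (l 0)⁻¹ (a 0 • (1 : Mat (k + 2)))⁻¹ * ((Q 0)⁻¹ * Q 0) *
          dsum (l 0) (a 0 • J (k + 1)) * (Q 0)ᴴ := by simp only [Matrix.mul_assoc]
      _ = Q 0 * (dsum (l 0) (a 0 • J (k + 1)) * dsum (l 0)⁻¹ (a 0 • (1 : Mat (k + 2)))⁻¹ *
          dsum (l 0) (a 0 • J (k + 1))) * (Q 0)ᴴ := by
          rw [e1, e2]
          simp only [Matrix.mul_assoc, Matrix.mul_one]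
      _ = _ := by
          have h5 : (a 0 • (1 : Mat (k + 2)))⁻¹ = (a 0)⁻¹ • 1 := by
            apply inv_eq_left_inv
            rw [Matrix.smul_mul, Matrix.mul_smul, smul_smul, inv_mul_cancel₀ (ha 0).ne',
              one_smul, Matrix.one_mul]
          rw [h5, dsum_mul, dsum_mul, mul_inv_cancel₀ (hl 0).ne', one_mul]
          simp only [Matrix.mul_smul, Matrix.smul_mul, smul_smul, J_J,
            inv_mul_cancel₀ (ha 0).ne', mul_one]
  refine ⟨F, Q, l, a, Y, hQu, hQρ, hF.hom, ?_, fun b => hG.pre (g b)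
    (isUnit_nonsing_inv_iff.2 (hQu b)), hQ1, hY01, ha01⟩
  intro b
  obtain ⟨e1, e2⟩ := hcan b
  have e2' : (Q b)ᴴ * ((Q b)⁻¹)ᴴ = 1 := by rw [← conjTranspose_mul, e1, conjTranspose_one]
  have hQi : IsUnit (Q b)⁻¹ := isUnit_nonsing_inv_iff.2 (hQu b)
  refine ⟨?_, hl b, ha b, ?_, ?_, ?_⟩
  · exact (hF.comp (actC (g b)) fun v hv => act_mem (g b) hv).congr hQi
  · intro w hw
    show (Q b)⁻¹ * F (HM.hyp (g b) w) * ((Q b)⁻¹)ᴴ = _
    rw [hFb b w hw]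
    calc (Q b)⁻¹ * (Q b * dsum (l b) (a b • std w) * (Q b)ᴴ) * ((Q b)⁻¹)ᴴ
        = ((Q b)⁻¹ * Q b) * dsum (l b) (a b • std w) * ((Q b)ᴴ * ((Q b)⁻¹)ᴴ) := by
          simp only [Matrix.mul_assoc]
      _ = _ := by rw [e1, e2', Matrix.one_mul, Matrix.mul_one]
  · intro v hv
    have hv' := act_mem (g b) hv
    have h1 := hrefl _ hv'
    rw [hNb b] at h1
    show dsum (l b) (a b • J (k + 1)) * ((Q b)⁻¹ * F (act (g b) v) * ((Q b)⁻¹)ᴴ)⁻¹ *
      dsum (l b) (a b • J (k + 1)) = (Q b)⁻¹ * F (act (g b) v) * ((Q b)⁻¹)ᴴ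
    have h2 : ((Q b)⁻¹ * F (act (g b) v) * ((Q b)⁻¹)ᴴ)⁻¹ = (Q b)ᴴ * (F (act (g b) v))⁻¹ * Q b := by
      apply inv_eq_left_inv
      have hFi : (F (act (g b) v))⁻¹ * F (act (g b) v) = 1 :=
        nonsing_inv_mul _ ((isUnit_iff_isUnit_det _).1 (hF.unit hv'))
      have e3 : Q b * (Q b)⁻¹ = 1 := mul_nonsing_inv _ ((isUnit_iff_isUnit_det _).1 (hQu b))
      calc (Q b)ᴴ * (F (act (g b) v))⁻¹ * Q b * ((Q b)⁻¹ * F (act (g b) v) * ((Q b)⁻¹)ᴴ)
          = (Q b)ᴴ * (F (act (g b) v))⁻¹ * (Q b * (Q b)⁻¹) * F (act (g b) v) * ((Q b)⁻¹)ᴴ := by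
            simp only [Matrix.mul_assoc]
        _ = (Q b)ᴴ * ((F (act (g b) v))⁻¹ * F (act (g b) v)) * ((Q b)⁻¹)ᴴ := by
            rw [e3]
            simp only [Matrix.mul_assoc, Matrix.mul_one]
        _ = 1 := by rw [hFi, Matrix.mul_one, e2']
    rw [h2]
    calc dsum (l b) (a b • J (k + 1)) * ((Q b)ᴴ * (F (act (g b) v))⁻¹ * Q b) *
          dsum (l b) (a b • J (k + 1))
        = (Q b)⁻¹ * (Q b * dsum (l b) (a b • J (k + 1)) * (Q b)ᴴ * (F (act (g b) v))⁻¹ *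
          (Q b * dsum (l b) (a b • J (k + 1)) * (Q b)ᴴ)) * ((Q b)⁻¹)ᴴ := by
          have : ∀ A : Mat (k + 3), (Q b)⁻¹ * (Q b * A) = A := fun A => by
            rw [← Matrix.mul_assoc, e1, Matrix.one_mul]
          simp only [Matrix.mul_assoc, this]
          rw [e2', Matrix.mul_one]
      _ = _ := by rw [h1]
  · intro γ hγ v hv
    show (Q b)⁻¹ * F (act (g b) (act (extend (k + 1) γ) v)) * ((Q b)⁻¹)ᴴ = _
    have h1 : act (g b) (act (extend (k + 1) γ) v) =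
        act (g b * extend (k + 1) γ * (g b)⁻¹) (act (g b) v) := by
      rw [← act_mul, ← act_mul, inv_mul_cancel_right]
    have h2 := hFe (embHyb Γ g b ⟨γ, hγ⟩) (act (g b) v) (act_mem _ hv)
    rw [embHyb_coe] at h2
    rw [h1]
    have h2' : F (act (g b * extend (k + 1) γ * (g b)⁻¹) (act (g b) v)) =
      ρ (embHyb Γ g b ⟨γ, hγ⟩) * F (act (g b) v) * (ρ (embHyb Γ g b ⟨γ, hγ⟩))ᴴ := h2
    rw [h2', hQρ b ⟨γ, hγ⟩, conjTranspose_mul, conjTranspose_mul]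
    show (Q b)⁻¹ * (Q b * dsum 1 γ.toMatrix * (Q b)⁻¹ * F (act (g b) v) *
      (((Q b)⁻¹)ᴴ * ((dsum 1 γ.toMatrix)ᴴ * (Q b)ᴴ))) * ((Q b)⁻¹)ᴴ = dsum 1 γ.toMatrix *
      ((Q b)⁻¹ * F (act (g b) v) * ((Q b)⁻¹)ᴴ) * (dsum 1 γ.toMatrix)ᴴ
    have h5 : ∀ A : Mat (k + 3), (Q b)⁻¹ * (Q b * A) = A := fun A => by
      rw [← Matrix.mul_assoc, e1, Matrix.one_mul]
    simp only [Matrix.mul_assoc, h5]
    rw [e2', Matrix.mul_one]

end Pool.Agent.Lib.MP_5d4057_al.RC
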