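import Pool.Agent.Lib.MP_5d4057_al.RC.WideC
import Pool.Agent.Lib.MP_5d4057_al.RC.KeyTwo

/-! The two key facts for groups with the Liouville property: pieces contained in `SU(H, K)`. -/

set_option autoImplicit false

namespace Pool.Agent.Lib.MP_5d4057_al.RC

open Matrix Filter Topology Pool.Agent.Lib.MP_5d4057_al Pool.Agent.Lib.MP_5d4057_al.Hyb
  Pool.Agent.Lib.MP_5d4057_al.HM

open scoped ComplexOrder MatrixOrder Matrix.Norms.L2Operator

variable {n m j k : ℕ}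

/-- F1: the automorphisms which are neither the identity nor conjugation on the trace field. -/
theorem key_lt_rec (Γ : Fin 2 → Subgroup (SUGroup (k + 1)))
    (g : Fin 2 → SUGroup (k + 2)) (HL : HLat (hybrid Γ g)) (hcocb : ∀ b, Rec (Γ b))
    (hspanb : ∀ b, Submodule.span ℂ (SUGroup.toMatrix '' (Γ b : Set (SUGroup (k + 1)))) = ⊤)
    {K : Subfield ℂ} {D : Matrix (Fin (k + 1)) (Fin (k + 1)) ℂ}
    {HD : Matrix (Fin (k + 1)) (Fin (k + 1)) K} {μ : Fin 2 → ℂ} {q : Fin 2 → K} (hcm : IsCM K)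
    (hn : IsNF k K D HD μ q) (hrat : ∀ b, ∀ γ ∈ Γ b, EntriesIn K (dsum (μ b) D) γ.toMatrix)
    {X : Matrix (Fin 2) (Fin 2) ℂ} {ζ : ℂ} (hζ : star ζ * ζ = 1) (hX : Xᴴ * X = 1)
    (hg : (g 1).toMatrix = (g 0).toMatrix * (ζ • bsum X 1)) (h01 : X 0 1 ≠ 0)
    (t : ℂ ≃+* ℂ) (ht : ¬ ∀ x : K, t (x : ℂ) = x)
    (ht' : ¬ ∀ x : K, t (x : ℂ) = (starRingEnd ℂ) (x : ℂ)) :
    (t (star (X 1 1) * X 1 1)).re < 1 := by
  set ρ := rhoT t (hybrid Γ g) with hρ
  obtain ⟨F, hG, hFe⟩ := HL t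
  have hF : Harm F := hG.toHarm
  -- definiteness
  set τ : K →+* ℂ := t.toRingHom.comp K.subtype with hτ
  have hτa : ∀ x : K, τ x = t (x : ℂ) := fun x => rfl
  obtain ⟨ε, hε, hεq, hεD⟩ : ∃ ε : ℂ, ε ≠ 0 ∧ (∀ b, 0 < ε * τ (q b)) ∧ (ε • HD.map τ).PosDef := by
    have h0 := hn.definite 0 τ
    have h1 := hn.definite 1 τ
    have hneg : ∀ b, (-(dsum (τ (q b)) (HD.map τ))).PosDef →
        0 < -1 * τ (q b) ∧ ((-1 : ℂ) • HD.map τ).PosDef := by
      intro b hb
      have h2 : -(dsum (τ (q b)) (HD.map τ)) = dsum (-1 * τ (q b)) ((-1 : ℂ) • HD.map τ) := by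
        rw [← smul_dsum, neg_one_smul]
      rw [h2] at hb
      exact posDef_of_dsum' hb
    have hno : (HD.map τ).PosDef → ((-1 : ℂ) • HD.map τ).PosDef → False := by
      intro h2 h3
      have a1 : 0 < (HD.map τ) 0 0 := h2.diag_pos
      have a2 : 0 < -1 * (HD.map τ) 0 0 := by simpa using h3.diag_pos (i := 0)
      rw [neg_one_mul] at a2
      exact absurd a1 (lt_asymm (neg_pos.1 a2))
    rcases h0 with h0 | h0 | h0 | h0
    · exact absurd h0 ht
    · exact absurd h0 ht'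
    · obtain ⟨p0, pD⟩ := posDef_of_dsum' h0
      rcases h1 with h1 | h1 | h1 | h1
      · exact absurd h1 ht
      · exact absurd h1 ht'
      · obtain ⟨p1, -⟩ := posDef_of_dsum' h1
        refine ⟨1, one_ne_zero, ?_, by rw [one_smul]; exact pD⟩
        rw [Fin.forall_fin_two, one_mul, one_mul]
        exact ⟨p0, p1⟩
      · exact (hno pD (hneg 1 h1).2).elim
    · obtain ⟨p0, pD⟩ := hneg 0 h0
      rcases h1 with h1 | h1 | h1 | h1
      · exact absurd h1 ht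
      · exact absurd h1 ht'
      · obtain ⟨-, pD'⟩ := posDef_of_dsum' h1
        exact (hno pD' pD).elim
      · obtain ⟨p1, -⟩ := hneg 1 h1
        refine ⟨-1, by norm_num, ?_, pD⟩
        rw [Fin.forall_fin_two]
        exact ⟨p0, p1⟩
  -- the invariant metrics
  have hTD : IsUnit (D.map t) := tm_unit t hn.det
  set tD : Matrix (Fin (k + 1)) (Fin (k + 1)) ℂ := D.map t with htD
  set Z' : Matrix (Fin (k + 1)) (Fin (k + 1)) ℂ := tD * (ε • HD.map τ)⁻¹ * tDᴴ with hZ'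
  have hZ'pos : Z'.PosDef :=
    hεD.inv.mul_mul_conjTranspose_same (Matrix.vecMul_injective_of_isUnit hTD)
  have hμ : ∀ b, t (μ b) ≠ 0 := fun b => (map_ne_zero t).2 (hn.μ_ne b)
  set z : Fin 2 → ℂ := fun b => t (μ b) * (ε * τ (q b))⁻¹ * star (t (μ b)) with hz
  have hzpos : ∀ b, 0 < z b := by
    intro b
    have h1 : z b = (star (t (μ b)) * t (μ b)) * (ε * τ (q b))⁻¹ := by rw [hz]; ring
    rw [h1]
    exact mul_pos (pos_star_mul (hμ b)) (pos_inv (hεq b))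
  have hZb : ∀ b, dsum (z b) Z' = (dsum (μ b) D).map t * (ε • dsum (τ (q b)) (HD.map τ))⁻¹ *
      ((dsum (μ b) D).map t)ᴴ := by
    intro b
    rw [tm_dsum, smul_dsum, dsum_inv' (hεq b).ne' hεD.isUnit, dsum_conjTranspose, dsum_mul, dsum_mul]
  have hinv : ∀ b, ∀ γ : Γ b, rhoT t (Γ b) γ * dsum (z b) Z' * (rhoT t (Γ b) γ)ᴴ =
      dsum (z b) Z' := by
    intro b γ
    have hf := isForm_of_nf hcm hn b
    obtain ⟨G, hG1, -, hG2⟩ := exists_rat hf (γ : SUGroup (k + 1)) (hrat b γ γ.2)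
    have hG := hG2 τ
    rw [dsum_map _ _ _ (map_zero τ)] at hG
    have hBd := isUnit_iff_ne_zero.2 hf.det
    set B := dsum (μ b) D with hB
    set tB := B.map t with htB
    have htBu : IsUnit tB := tm_unit t hf.det
    have htBd := (isUnit_iff_isUnit_det _).1 htBu
    set Gt := G.map τ with hGt
    have h1 : rhoT t (Γ b) γ = tB * Gt * tB⁻¹ := by
      have h2 : (γ : SUGroup (k + 1)).toMatrix = B * G.map (fun x : K => (x : ℂ)) * B⁻¹ := by
        rw [hG1]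
        calc (γ : SUGroup (k + 1)).toMatrix = (B * B⁻¹) * (γ : SUGroup (k + 1)).toMatrix *
              (B * B⁻¹) := by rw [mul_nonsing_inv _ hBd, Matrix.one_mul, Matrix.mul_one]
          _ = _ := by simp only [Matrix.mul_assoc]
      rw [rhoT_apply, h2, tm_mul, tm_mul, ← tm_inv t hf.det]
      rfl
    set P := ε • dsum (τ (q b)) (HD.map τ) with hP
    have hPu : IsUnit P := by
      rw [hP, smul_dsum]
      exact (posDef_dsum (hεq b) hεD).isUnit
    have hPd := (isUnit_iff_isUnit_det _).1 hPu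
    have h3 : Gtᴴ * P * Gt = P := by
      rw [hP, Matrix.mul_smul, Matrix.smul_mul, hG]
    have h4 : Gt * P⁻¹ * Gtᴴ = P⁻¹ := by
      have h5 : (P⁻¹ * Gtᴴ * P) * Gt = 1 := by
        calc (P⁻¹ * Gtᴴ * P) * Gt = P⁻¹ * (Gtᴴ * P * Gt) := by simp only [Matrix.mul_assoc]
          _ = 1 := by rw [h3, nonsing_inv_mul _ hPd]
      have h6 : Gt * (P⁻¹ * Gtᴴ * P) = 1 := mul_eq_one_comm.1 h5
      calc Gt * P⁻¹ * Gtᴴ = Gt * (P⁻¹ * Gtᴴ * P) * P⁻¹ := by
            simp only [Matrix.mul_assoc]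
            rw [mul_nonsing_inv _ hPd, Matrix.mul_one]
        _ = P⁻¹ := by rw [h6, Matrix.one_mul]
    rw [hZb b, ← hB, ← htB, ← hP, h1]
    have e1 : tB⁻¹ * tB = 1 := nonsing_inv_mul _ htBd
    have e2 : tBᴴ * (tB⁻¹)ᴴ = 1 := by rw [← conjTranspose_mul, e1, conjTranspose_one]
    calc tB * Gt * tB⁻¹ * (tB * P⁻¹ * tBᴴ) * (tB * Gt * tB⁻¹)ᴴ
        = tB * Gt * (tB⁻¹ * tB) * P⁻¹ * (tBᴴ * (tB⁻¹)ᴴ) * Gtᴴ * tBᴴ := by
          rw [conjTranspose_mul, conjTranspose_mul]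
          simp only [Matrix.mul_assoc]
      _ = tB * (Gt * P⁻¹ * Gtᴴ) * tBᴴ := by
          rw [e1, e2]
          simp only [Matrix.mul_assoc, Matrix.mul_one]
      _ = _ := by rw [h4]
  -- the metric on the hyperplanes
  have hsl : ∀ b, ∃ l a : ℂ, 0 < l ∧ 0 < a ∧ ∀ w ∈ Cone (k + 1), F (HM.hyp (g b) w) =
      (g b).toMatrix.map t * dsum l (a • dsum (z b) Z') * ((g b).toMatrix.map t)ᴴ := by
    intro b
    refine slice_form_rec (by omega) (hcocb b) (rhoT t (Γ b)) (span_rhoT t _ (hspanb b))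
      (harm_const (posDef_dsum (hzpos b) hZ'pos)) (Pol.const _) ?_ (tm_gp_unit t (g b))
      (hF.hyp (g b)) (hG.gr.comp_hyp (g b)) (ρ.comp (embHyb Γ g b)) (rhoT_emb t Γ g b) (hFe.hyp b)
    intro γ w _
    exact (hinv b γ).symm
  choose l a hl ha hFb using hsl
  -- comparison at the base point
  have hb0 := hFb 0 (base (k + 1)) (base_mem _)
  have hb1 := hFb 1 (base (k + 1)) (base_mem _)
  rw [hyp_agree hζ hg hF.hom, hb0, hg, tm_mul, tm_smul, tm_bsum] at hb1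
  have hQ := tm_gp_unit t (g 0)
  set Q := (g 0).toMatrix.map t with hQd
  have hQ' : IsUnit Qᴴ := (isUnit_conjTranspose Q).2 hQ
  have h2 : dsum (l 0) (a 0 • dsum (z 0) Z') = (t ζ • bsum (X.map t) ((1 : Mat (k + 1)).map t)) *
      dsum (l 1) (a 1 • dsum (z 1) Z') * (t ζ • bsum (X.map t) ((1 : Mat (k + 1)).map t))ᴴ := by
    have h3 : Q * (dsum (l 0) (a 0 • dsum (z 0) Z')) * Qᴴ =
        Q * ((t ζ • bsum (X.map t) ((1 : Mat (k + 1)).map t)) *
      dsum (l 1) (a 1 • dsum (z 1) Z') * (t ζ • bsum (X.map t) ((1 : Mat (k + 1)).map t))ᴴ) * Qᴴ := by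
      rw [hb1, conjTranspose_mul]
      simp only [Matrix.mul_assoc]
    exact hQ.mul_left_cancel (hQ'.mul_right_cancel h3)
  rw [smul_dsum, smul_dsum, dsum_dsum, dsum_dsum, tm_one, conjTranspose_smul, Matrix.smul_mul,
    Matrix.smul_mul, Matrix.mul_smul, bsum_conjTranspose, bsum_mul, bsum_mul, smul_smul,
    smul_bsum] at h2
  have h3 := (bsum_inj h2).1
  -- scalar computation
  have hP1 : (Xᴴ).map t * X.map t = 1 := by
    rw [← tm_mul, hX, tm_one]
  have h4 : (Xᴴ).map t * !![l 0, 0; 0, a 0 * z 0] =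
      (t ζ * star (t ζ)) • (!![l 1, 0; 0, a 1 * z 1] * (X.map t)ᴴ) := by
    rw [h3, Matrix.mul_smul, ← Matrix.mul_assoc, ← Matrix.mul_assoc, hP1, Matrix.one_mul]
  have h5 := congrFun (congrFun h4 1) 0
  have h6 := congrFun (congrFun hP1 1) 1
  simp only [Matrix.mul_apply, Fin.sum_univ_two, Matrix.smul_apply, Matrix.map_apply,
    conjTranspose_apply, Matrix.of_apply, Matrix.cons_val', Matrix.cons_val_zero,
    Matrix.cons_val_one, Matrix.one_apply_eq, smul_eq_mul, mul_zero, add_zero,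
    zero_mul, zero_add] at h5 h6
  have hl0 : l 0 ≠ 0 := (hl 0).ne'
  have h7 : t (star (X 0 1)) = (star (t ζ) * t ζ) * (a 1 * z 1) * (l 0)⁻¹ * star (t (X 0 1)) := by
    field_simp
    linear_combination h5
  have h8 : t (star (X 1 1) * X 1 1) = 1 - (star (t ζ) * t ζ) * (a 1 * z 1) * (l 0)⁻¹ *
      (star (t (X 0 1)) * t (X 0 1)) := by
    rw [map_mul]
    linear_combination h6 - t (X 0 1) * h7
  have hζ0 : t ζ ≠ 0 := by
    refine (map_ne_zero t).2 ?_
    intro h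
    rw [h, mul_zero] at hζ
    exact zero_ne_one hζ
  have h9 : 0 < (star (t ζ) * t ζ) * (a 1 * z 1) * (l 0)⁻¹ * (star (t (X 0 1)) * t (X 0 1)) :=
    mul_pos (mul_pos (mul_pos (pos_star_mul hζ0) (mul_pos (ha 1) (hzpos 1))) (pos_inv (hl 0)))
      (pos_star_mul ((map_ne_zero t).2 h01))
  rw [h8, Complex.sub_re, Complex.one_re]
  have h10 := (Complex.lt_def.1 h9).1
  rw [Complex.zero_re] at h10
  linarith

/-- F4 (the main theorem of the application). -/
theorem key_id_rec (Γ : Fin 2 → Subgroup (SUGroup (k + 1)))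
    (g : Fin 2 → SUGroup (k + 2)) (hcoc : Rec (hybrid Γ g)) (HL : HLat (hybrid Γ g))
    (hcocb : ∀ b, Rec (Γ b))
    (hspanb : ∀ b, Submodule.span ℂ (SUGroup.toMatrix '' (Γ b : Set (SUGroup (k + 1)))) = ⊤)
    {K : Subfield ℂ} {D : Matrix (Fin (k + 1)) (Fin (k + 1)) ℂ}
    {HD : Matrix (Fin (k + 1)) (Fin (k + 1)) K} {μ : Fin 2 → ℂ} {q : Fin 2 → K}
    (hn : IsNF k K D HD μ q) (hrat : ∀ b, ∀ γ ∈ Γ b, EntriesIn K (dsum (μ b) D) γ.toMatrix)
    {X : Matrix (Fin 2) (Fin 2) ℂ} {ζ : ℂ} (hζ : star ζ * ζ = 1) (hX : Xᴴ * X = 1)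
    (hg : (g 1).toMatrix = (g 0).toMatrix * (ζ • bsum X 1)) (h01 : X 0 1 ≠ 0)
    (t : ℂ ≃+* ℂ) (ht : ∀ x : K, t (x : ℂ) = x) :
    ∀ γ ∈ hybrid Γ g, t γ.toMatrix.trace = γ.toMatrix.trace := by
  obtain ⟨F, Q, l, a, Y, hQu, hQρ, hFh, P, hPG, hQ1, hY01, ha01⟩ :=
    two_data_id_rec Γ g hcoc HL hcocb hspanb hn hrat hζ hg h01 t ht
  have hp := fun b => nrm_all_rec (P b) (by omega) (hcocb b) (hPG b).grD
  choose p hpall using hp
  have hp : ∀ b, pz (fun v => (Q b)⁻¹ * F (act (g b) v) * ((Q b)⁻¹)ᴴ) (base (k + 2))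
      (nrm (k + 1)) = p b • vecMulVec (nrm (k + 1)) (star (base (k + 2))) := by
    intro b
    have h1 := hpall b _ (base_mem (k + 1))
    rw [NN, inc_base, q_base] at h1
    rw [h1]
    congr 1
    push_cast
    ring
  have hB := base_mem (k + 2)
  have hζ0 : ζ ≠ 0 := by
    intro h
    rw [h, mul_zero] at hζ
    exact zero_ne_one hζ
  set c : ℂ := t ζ with hc
  have hc0 : c ≠ 0 := (map_ne_zero t).2 hζ0
  have hc0' : star c ≠ 0 := star_ne_zero.2 hc0
  set R : Mat (k + 3) := bsum Y (c • 1) with hR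
  have hRu : IsUnit R := by
    have h1 : IsUnit (Q 0 * R) := by rw [← hQ1]; exact hQu 1
    exact isUnit_of_mul_isUnit_right h1
  have hRd := (isUnit_iff_isUnit_det _).1 hRu
  set G : Fin 2 → Vec (k + 2) → Mat (k + 3) :=
    fun b v => (Q b)⁻¹ * F (act (g b) v) * ((Q b)⁻¹)ᴴ with hG
  -- the two metrics are related
  have hLX : ∀ v : Vec (k + 2), act (g 1) v =
      ζ • act (g 0) (bsum X (1 : Mat (k + 1)) *ᵥ v) := by
    intro v
    rw [act, act, hg, ← mulVec_mulVec, smul_mulVec, mulVec_smul]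
  have hrel : ∀ v ∈ Cone (k + 2), R * G 1 v * Rᴴ = G 0 (bsum X (1 : Mat (k + 1)) *ᵥ v) := by
    intro v hv
    have h1 : act (g 0) (bsum X (1 : Mat (k + 1)) *ᵥ v) ∈ Cone (k + 2) := by
      have h2 := act_mem (g 1) hv
      rw [hLX v] at h2
      have h3 := smul_mem_cone (inv_ne_zero hζ0) h2
      rwa [smul_smul, inv_mul_cancel₀ hζ0, one_smul] at h3
    have h4 : F (act (g 1) v) = F (act (g 0) (bsum X (1 : Mat (k + 1)) *ᵥ v)) := by
      rw [hLX v, hFh ζ hζ0 _ h1]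
    show R * ((Q 1)⁻¹ * F (act (g 1) v) * ((Q 1)⁻¹)ᴴ) * Rᴴ =
      (Q 0)⁻¹ * F (act (g 0) (bsum X (1 : Mat (k + 1)) *ᵥ v)) * ((Q 0)⁻¹)ᴴ
    rw [h4, hQ1, Matrix.mul_inv_rev, conjTranspose_mul]
    have e1 : R * R⁻¹ = 1 := mul_nonsing_inv _ hRd
    have e2 : (R⁻¹)ᴴ * Rᴴ = 1 := by rw [← conjTranspose_mul, e1, conjTranspose_one]
    calc R * (R⁻¹ * (Q 0)⁻¹ * F (act (g 0) (bsum X (1 : Mat (k + 1)) *ᵥ v)) *
          (((Q 0)⁻¹)ᴴ * (R⁻¹)ᴴ)) * Rᴴ
        = (R * R⁻¹) * (Q 0)⁻¹ * F (act (g 0) (bsum X (1 : Mat (k + 1)) *ᵥ v)) * ((Q 0)⁻¹)ᴴ *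
          ((R⁻¹)ᴴ * Rᴴ) := by simp only [Matrix.mul_assoc]
      _ = _ := by rw [e1, e2, Matrix.one_mul, Matrix.mul_one]
  -- derivatives
  have hXB : bsum X (1 : Mat (k + 1)) *ᵥ base (k + 2) = base (k + 2) := by
    have := bsum_base (k := k) X 1
    rwa [one_smul, one_smul] at this
  set LX : Vec (k + 2) →L[ℂ] Vec (k + 2) :=
    LinearMap.toContinuousLinearMap (bsum X (1 : Mat (k + 1))).mulVecLin with hLXd
  have hLXa : ∀ v, LX v = bsum X (1 : Mat (k + 1)) *ᵥ v := fun v => rfl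
  have hder : ∀ x y : ℂ, R * pz (G 1) (base (k + 2)) (two k x y) * Rᴴ =
      pz (G 0) (base (k + 2)) (two k (X 0 0 * x + X 0 1 * y) (X 1 0 * x + X 1 1 * y)) := by
    intro x y
    have h1 : HasZ (fun v => R * G 1 v * Rᴴ) (base (k + 2)) (two k x y) _ _ :=
      (hasZ ((P 1).harm.diff hB) (two k x y)).clm
        (ContinuousLinearMap.mulLeftRight ℂ (Mat (k + 3)) R Rᴴ)
    have h2 : HasZ (G 0) (LX (base (k + 2))) (LX (two k x y)) _ _ :=
      hasZ (by rw [hLXa, hXB]; exact (P 0).harm.diff hB) (LX (two k x y))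
    have h3 : HasZ (fun v => G 0 (LX v)) (base (k + 2)) (two k x y) _ _ := h2.comp_lin LX
    have h4 : (fun v => R * G 1 v * Rᴴ) =ᶠ[𝓝 (base (k + 2))] fun v => G 0 (LX v) := by
      filter_upwards [mem_nhds_cone hB] with v hv
      exact hrel v hv
    have h5 := pz_congr h4 (two k x y)
    rw [h1.pz, h3.pz, hLXa, hXB, hLXa, bsum_two] at h5
    exact h5
  have hder2 : ∀ x y : ℂ, (star c) • two k (Y 0 0 * (p 1 * x) + Y 0 1 * (2 * a 1 * y))
      (Y 1 0 * (p 1 * x) + Y 1 1 * (2 * a 1 * y)) =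
      two k (p 0 * (X 0 0 * x + X 0 1 * y)) (2 * a 0 * (X 1 0 * x + X 1 1 * y)) := by
    intro x y
    have h1 := hder x y
    rw [(P 1).deriv_two (hp 1), (P 0).deriv_two (hp 0), mul_vecMulVec, vecMulVec_mul, hR, bsum_two,
      ← star_mulVec, bsum_base, star_smul] at h1
    have h2 := congrArg (fun A : Mat (k + 3) => A *ᵥ base (k + 2)) h1
    have h3 : star (base (k + 2)) ⬝ᵥ base (k + 2) = 1 := by
      rw [base]
      simp
    simp only [vmv, smul_dotProduct, h3, one_smul, smul_eq_mul, mul_one] at h2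
    exact h2
  have htwo_smul : ∀ (s x y : ℂ), s • two k x y = two k (s * x) (s * y) := by
    intro s x y
    ext i
    refine Fin.cases ?_ (fun i => Fin.cases ?_ (fun i => ?_) i) i <;> simp [two]
  have hcol0 := hder2 1 0
  have hcol1 := hder2 0 1
  rw [htwo_smul] at hcol0 hcol1
  obtain ⟨r00, r10⟩ := two_inj hcol0
  obtain ⟨r01, r11⟩ := two_inj hcol1
  have hp0 : p 0 ≠ 0 := by
    intro h
    rw [h, zero_mul] at r01
    have h2 : star c * (Y 0 1 * (2 * a 1)) = 0 := by linear_combination r01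
    exact (mul_ne_zero hc0' (mul_ne_zero hY01 (mul_ne_zero two_ne_zero (P 1).ha.ne'))) h2
  set Dm : Fin 2 → Mat 2 := fun b => !![p b, 0; 0, 2 * a b] with hDm
  have hDX : star c • (Y * Dm 1) = Dm 0 * X := by
    generalize star c = s at r00 r01 r10 r11 ⊢
    ext i i'
    fin_cases i <;> fin_cases i' <;>
      simp [hDm, Matrix.mul_apply, Fin.sum_univ_two]
    · linear_combination r00
    · linear_combination r01
    · linear_combination r10
    · linear_combination r11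
  -- the intertwiner
  set T : Fin 2 → Mat (k + 3) := fun b =>
    Q b * dsum (p b) ((2 * a b) • (1 : Mat (k + 2))) * ((g b)⁻¹).toMatrix with hT
  have hTb : ∀ b, ∀ x : Mat (k + 2), T b * ((g b).toMatrix * dsum 1 x * ((g b)⁻¹).toMatrix) =
      (Q b * dsum 1 x * (Q b)⁻¹) * T b := by
    intro b x
    have e1 : (Q b)⁻¹ * Q b = 1 := nonsing_inv_mul _ ((isUnit_iff_isUnit_det _).1 (hQu b))
    have e2 : dsum (p b) ((2 * a b) • (1 : Mat (k + 2))) * dsum 1 x =
        dsum 1 x * dsum (p b) ((2 * a b) • (1 : Mat (k + 2))) := by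
      rw [dsum_mul, dsum_mul, mul_one, one_mul, Matrix.smul_mul, Matrix.mul_smul, Matrix.one_mul,
        Matrix.mul_one]
    calc T b * ((g b).toMatrix * dsum 1 x * ((g b)⁻¹).toMatrix)
        = Q b * dsum (p b) ((2 * a b) • (1 : Mat (k + 2))) *
          (((g b)⁻¹).toMatrix * (g b).toMatrix) * dsum 1 x * ((g b)⁻¹).toMatrix := by
          simp only [hT, Matrix.mul_assoc]
      _ = Q b * (dsum (p b) ((2 * a b) • (1 : Mat (k + 2))) * dsum 1 x) * ((g b)⁻¹).toMatrix := by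
          rw [toMatrix_inv_mul, Matrix.mul_one, Matrix.mul_assoc (Q b)]
      _ = Q b * dsum 1 x * ((Q b)⁻¹ * Q b) * dsum (p b) ((2 * a b) • (1 : Mat (k + 2))) *
          ((g b)⁻¹).toMatrix := by
          rw [e2, e1, Matrix.mul_one]
          simp only [Matrix.mul_assoc]
      _ = _ := by simp only [hT, Matrix.mul_assoc]
  have hdb : ∀ b, dsum (p b) ((2 * a b) • (1 : Mat (k + 2))) =
      bsum (Dm b) ((2 * a b) • (1 : Mat (k + 1))) := by
    intro b
    rw [show (1 : Mat (k + 2)) = dsum 1 1 from dsum_one.symm, smul_dsum, dsum_dsum, mul_one]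
  have hT1 : T 1 = (star ζ * (star c)⁻¹) • T 0 := by
    have hXX : X * Xᴴ = 1 := mul_eq_one_comm.1 hX
    have e1 : Y * Dm 1 * Xᴴ = (star c)⁻¹ • Dm 0 := by
      have h2 : Y * Dm 1 = (star c)⁻¹ • (Dm 0 * X) := by
        rw [← hDX, smul_smul, inv_mul_cancel₀ hc0', one_smul]
      rw [h2, Matrix.smul_mul, Matrix.mul_assoc, hXX, Matrix.mul_one]
    have e2 : c * (2 * a 1) = (star c)⁻¹ * (2 * a 0) := by
      rw [ha01]
      field_simp
    show Q 1 * dsum (p 1) ((2 * a 1) • (1 : Mat (k + 2))) * ((g 1)⁻¹).toMatrix = _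
    rw [hQ1, hdb, toMatrix_gen_one hζ hX hg]
    calc Q 0 * R * bsum (Dm 1) ((2 * a 1) • (1 : Mat (k + 1))) *
          (star ζ • bsum Xᴴ 1 * ((g 0)⁻¹).toMatrix)
        = star ζ • (Q 0 * (R * bsum (Dm 1) ((2 * a 1) • (1 : Mat (k + 1))) * bsum Xᴴ 1) *
          ((g 0)⁻¹).toMatrix) := by
          simp only [Matrix.mul_assoc, Matrix.mul_smul, Matrix.smul_mul]
      _ = star ζ • (Q 0 * ((star c)⁻¹ • bsum (Dm 0) ((2 * a 0) • (1 : Mat (k + 1)))) *
          ((g 0)⁻¹).toMatrix) := by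
          congr 3
          rw [hR, bsum_mul, bsum_mul, e1, smul_bsum]
          congr 1
          rw [Matrix.smul_mul, Matrix.one_mul, Matrix.mul_one, smul_smul, smul_smul, e2]
      _ = _ := by
          rw [← hdb, Matrix.mul_smul, Matrix.smul_mul, smul_smul]
  have hcomm : ∀ x ∈ hybrid Γ g, T 0 * x.toMatrix = x.toMatrix.map t * T 0 := by
    intro x hx
    induction hx using Subgroup.closure_induction with
    | mem x hx =>
      obtain ⟨b, γ, hγ, rfl⟩ := hx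
      have h1 := hTb b γ.toMatrix
      have h2 : (g b * extend (k + 1) γ * (g b)⁻¹).toMatrix.map t =
          Q b * dsum 1 γ.toMatrix * (Q b)⁻¹ := hQρ b ⟨γ, hγ⟩
      have h3 : (g b * extend (k + 1) γ * (g b)⁻¹).toMatrix =
          (g b).toMatrix * dsum 1 γ.toMatrix * ((g b)⁻¹).toMatrix := by
        rw [toMatrix_mul, toMatrix_mul, extend_toMatrix]
      rw [← h3, ← h2] at h1
      by_cases hb : b = 0
      · rw [hb] at h1 ⊢
        exact h1
      · have hb1 : b = 1 := by omega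
        rw [hb1] at h1 ⊢
        rw [hT1, Matrix.smul_mul, Matrix.mul_smul] at h1
        exact smul_right_injective (Mat (k + 3))
          (mul_ne_zero (star_ne_zero.2 hζ0) (inv_ne_zero hc0')) h1
    | one => rw [toMatrix_one, tm_one, Matrix.mul_one, Matrix.one_mul]
    | mul x y _ _ hx hy =>
      rw [toMatrix_mul, tm_mul, ← Matrix.mul_assoc, hx, Matrix.mul_assoc, hy, Matrix.mul_assoc]
    | inv x _ hx =>
      rw [tm_gp_inv]
      have hu := tm_gp_unit t x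
      have hd := (isUnit_iff_isUnit_det _).1 hu
      calc T 0 * (x⁻¹).toMatrix = (x.toMatrix.map t)⁻¹ * (x.toMatrix.map t * T 0) *
            (x⁻¹).toMatrix := by
            rw [← Matrix.mul_assoc, nonsing_inv_mul _ hd, Matrix.one_mul]
        _ = (x.toMatrix.map t)⁻¹ * T 0 * (x.toMatrix * (x⁻¹).toMatrix) := by
            rw [← hx]
            simp only [Matrix.mul_assoc]
        _ = _ := by rw [toMatrix_mul_inv, Matrix.mul_one]
  have hTu : IsUnit (T 0) := by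
    refine ((hQu 0).mul ?_).mul (toMatrix_unit _)
    rw [isUnit_iff_isUnit_det, det_dsum, det_smul, det_one, mul_one]
    refine (isUnit_iff_ne_zero.2 hp0).mul ((isUnit_iff_ne_zero.2 ?_).pow _)
    exact mul_ne_zero two_ne_zero (P 0).ha.ne'
  have hTd := (isUnit_iff_isUnit_det _).1 hTu
  intro γ hγ
  have h1 := hcomm γ hγ
  have h2 : γ.toMatrix.map t = T 0 * γ.toMatrix * (T 0)⁻¹ := by
    rw [h1, Matrix.mul_assoc, mul_nonsing_inv _ hTd, Matrix.mul_one]
  have h3 : t γ.toMatrix.trace = (γ.toMatrix.map t).trace := by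
    rw [Matrix.trace, Matrix.trace, map_sum]
    rfl
  rw [h3, h2, Matrix.trace_mul_comm, ← Matrix.mul_assoc, nonsing_inv_mul _ hTd, Matrix.one_mul]

end Pool.Agent.Lib.MP_5d4057_al.RC
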