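import Pool.Agent.Lib.MP_5d4057_al.RC.Liou
import Pool.Agent.Lib.MP_5d4057_al.HM.TrSub

/-! Logarithms of subharmonic functions, and uniqueness of harmonic metrics. -/

namespace Pool.Agent.Lib.MP_5d4057_al.RC

open Matrix MeasureTheory Filter Topology Pool.Agent.Lib.MP_5d4057_al
  Pool.Agent.Lib.MP_5d4057_al.Hyb Pool.Agent.Lib.MP_5d4057_al.HM
  Pool.Agent.Lib.MP_5d4057_al.HM.TrSub

open scoped ComplexOrder MatrixOrder Matrix.Norms.L2Operator

variable {n m : ℕ} {Γ : Subgroup (SUGroup n)}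

/-- The square of the gradient in a frame, normalised as `Lap`. -/
noncomputable def gsq (ψ : Vec n → ℝ) (g : SUGroup n) : ℝ :=
  1 / 4 * ∑ j : Fin n, (fderiv ℝ ψ (act g (base n)) (act g (Pi.single j.castSucc 1)) ^ 2 +
    fderiv ℝ ψ (act g (base n)) (act g (Pi.single j.castSucc Complex.I)) ^ 2)

theorem fderiv_two_log {ψ : Vec n → ℝ} {v : Vec n} (hψ : ContDiffAt ℝ 2 ψ v) (hpos : 0 < ψ v)
    (ξ : Vec n) : fderiv ℝ (fderiv ℝ fun w => Real.log (ψ w)) v ξ ξ =
      fderiv ℝ (fderiv ℝ ψ) v ξ ξ / ψ v - fderiv ℝ ψ v ξ ^ 2 / ψ v ^ 2 := by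
  have h1 := hasFDerivAt_two (hψ.log hpos.ne') ξ
  have hne : ∀ᶠ u in 𝓝 v, ψ u ≠ 0 := hψ.continuousAt.eventually_ne hpos.ne'
  have hev : (fun u => fderiv ℝ (fun w => Real.log (ψ w)) u ξ) =ᶠ[𝓝 v]
      fun u => (ψ u)⁻¹ * fderiv ℝ ψ u ξ := by
    filter_upwards [hψ.eventually (by norm_num), hne] with u hu hu0
    have h2 := ((hu.differentiableAt (by norm_num)).hasFDerivAt.log hu0).fderiv
    rw [h2]
    rfl
  have hd := (hψ.differentiableAt (by norm_num)).hasFDerivAt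
  have h0 : HasFDerivAt (fun u => (ψ u)⁻¹) ((-(ψ v ^ 2)⁻¹) • fderiv ℝ ψ v) v :=
    (hasDerivAt_inv hpos.ne').comp_hasFDerivAt v hd
  have h2 := h0.fun_mul (hasFDerivAt_two hψ ξ)
  have h3 := h1.unique (h2.congr_of_eventuallyEq hev)
  have h4 := congrArg (fun T : Vec n →L[ℝ] ℝ => T ξ) h3
  simp only [ContinuousLinearMap.flip_apply] at h4
  rw [h4]
  simp
  field_simp
  ring

theorem lap_log_eq {ψ : Vec n → ℝ} (hψ : Homog ψ) (hψ2 : ContDiffOn ℝ 2 ψ (Cone n))
    (hpos : ∀ v ∈ Cone n, 0 < ψ v) (g : SUGroup n) :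
    Lap (fun w => Real.log (ψ w)) (act g (base n)) =
      Lap ψ (act g (base n)) / ψ (act g (base n)) - gsq ψ g / ψ (act g (base n)) ^ 2 := by
  have hv := orbit_mem g
  have hc := contDiffAt_cone hψ2 hv
  have hh : Homog fun w => Real.log (ψ w) := fun c hc v hv => by
    show Real.log (ψ (c • v)) = Real.log (ψ v)
    rw [hψ c hc v hv]
  rw [lap_frame hh g (hc.log (hpos _ hv).ne'), lap_frame hψ g hc, gsq]
  simp only [fderiv_two_log hc (hpos _ hv), smul_eq_mul]
  rw [mul_div_assoc, mul_div_assoc, Finset.sum_div, Finset.sum_div, ← mul_sub,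
    ← Finset.sum_sub_distrib]
  congr 1
  refine Finset.sum_congr rfl fun j _ => ?_
  ring

theorem lap_log_nonneg {ψ : Vec n → ℝ} (hψ : Homog ψ) (hψ2 : ContDiffOn ℝ 2 ψ (Cone n))
    (hpos : ∀ v ∈ Cone n, 0 < ψ v)
    (h : ∀ g : SUGroup n, gsq ψ g ≤ ψ (act g (base n)) * Lap ψ (act g (base n))) :
    ∀ v ∈ Cone n, 0 ≤ Lap (fun w => Real.log (ψ w)) v := by
  intro v hv
  obtain ⟨g, c, hc, rfl⟩ := exists_act_eq hv
  have hh : Homog fun w => Real.log (ψ w) := fun c hc v hv => by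
    show Real.log (ψ (c • v)) = Real.log (ψ v)
    rw [hψ c hc v hv]
  have hcd : ContDiffOn ℝ 2 (fun w => Real.log (ψ w)) (Cone n) :=
    hψ2.log fun v hv => (hpos v hv).ne'
  rw [homog_lap hh hcd c hc _ (orbit_mem g), lap_log_eq hψ hψ2 hpos g, sub_nonneg,
    div_le_div_iff₀ (pow_pos (hpos _ (orbit_mem g)) 2) (hpos _ (orbit_mem g))]
  have h1 := h g
  have h2 := hpos _ (orbit_mem g)
  nlinarith

/-- The conclusion: a positive invariant function of polynomial growth with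
`|∇ψ|² ≤ ψ Lap ψ` is constant. -/
theorem Rec.const (hΓ : Rec Γ) {ψ : Vec n → ℝ} (hψ : Homog ψ)
    (hψ2 : ContDiffOn ℝ 2 ψ (Cone n)) (hi : Inv Γ ψ) (hpos : ∀ v ∈ Cone n, 0 < ψ v)
    (hg : Pol ψ)
    (h : ∀ g : SUGroup n, gsq ψ g ≤ ψ (act g (base n)) * Lap ψ (act g (base n))) :
    ∀ v ∈ Cone n, ψ v = ψ (base n) := by
  have h1 := hΓ.liou (fun w => Real.log (ψ w))
    (fun c hc v hv => by
      show Real.log (ψ (c • v)) = Real.log (ψ v)
      rw [hψ c hc v hv])
    (hψ2.log fun v hv => (hpos v hv).ne')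
    (fun γ hγ v hv => by
      show Real.log (ψ (act γ v)) = Real.log (ψ v)
      rw [hi γ hγ v hv])
    (by
      obtain ⟨N, C, hC, hN⟩ := hg
      refine ⟨N, Real.log (C + 1), by positivity, fun g => ?_⟩
      have h2 := hN g
      have h3 := hpos _ (orbit_mem g)
      have h4 := one_le_ch g
      rw [Real.norm_of_nonneg h3.le] at h2
      have h5 : ψ (act g (base n)) ≤ (C + 1) * ch g ^ N :=
        h2.trans (mul_le_mul_of_nonneg_right (by linarith) (by positivity))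
      have h6 := Real.log_le_log h3 h5
      rwa [Real.log_mul (by positivity) (by positivity), Real.log_pow] at h6)
    (lap_log_nonneg hψ hψ2 hpos h)
  intro v hv
  exact Real.log_injOn_pos (Set.mem_Ioi.2 (hpos v hv)) (Set.mem_Ioi.2 (hpos _ (base_mem n)))
    (h1 v hv)

theorem lap_one_add (ψ : Vec n → ℝ) : Lap (fun v => 1 + ψ v) = Lap ψ := by
  have h : fderiv ℝ (fun v => 1 + ψ v) = fderiv ℝ ψ := by
    funext v
    exact fderiv_const_add 1
  funext v
  rw [Lap, Lap, h]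

theorem gsq_one_add (ψ : Vec n → ℝ) (g : SUGroup n) : gsq (fun v => 1 + ψ v) g = gsq ψ g := by
  have h : fderiv ℝ (fun v => 1 + ψ v) = fderiv ℝ ψ := by
    funext v
    exact fderiv_const_add 1
  rw [gsq, gsq, h]

/-- A nonnegative invariant function of polynomial growth with `|∇ψ|² ≤ ψ Lap ψ`, `0 ≤ Lap ψ` is
constant. -/
theorem Rec.const' (hΓ : Rec Γ) {ψ : Vec n → ℝ} (hψ : Homog ψ)
    (hψ2 : ContDiffOn ℝ 2 ψ (Cone n)) (hi : Inv Γ ψ) (hpos : ∀ v ∈ Cone n, 0 ≤ ψ v)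
    (hg : Pol ψ) (hL : ∀ g : SUGroup n, 0 ≤ Lap ψ (act g (base n)))
    (h : ∀ g : SUGroup n, gsq ψ g ≤ ψ (act g (base n)) * Lap ψ (act g (base n))) :
    ∀ v ∈ Cone n, ψ v = ψ (base n) := by
  have h1 := hΓ.const (ψ := fun v => 1 + ψ v)
    (fun c hc v hv => by
      show 1 + ψ (c • v) = 1 + ψ v
      rw [hψ c hc v hv])
    (contDiffOn_const.add hψ2)
    (fun γ hγ v hv => by
      show 1 + ψ (act γ v) = 1 + ψ v
      rw [hi γ hγ v hv])
    (fun v hv => by
      have := hpos v hv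
      show 0 < 1 + ψ v
      linarith)
    (by
      obtain ⟨N, C, hC, hN⟩ := hg
      refine ⟨N, 1 + C, by positivity, fun g => ?_⟩
      have h2 := hN g
      have h4 : 1 ≤ ch g ^ N := one_le_pow₀ (one_le_ch g)
      calc ‖1 + ψ (act g (base n))‖ ≤ ‖(1 : ℝ)‖ + ‖ψ (act g (base n))‖ := norm_add_le _ _
        _ ≤ 1 * ch g ^ N + C * ch g ^ N := by
            rw [norm_one, one_mul]
            exact add_le_add h4 h2
        _ = (1 + C) * ch g ^ N := by ring)
    (fun g => by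
      rw [gsq_one_add, lap_one_add]
      have h2 := h g
      have h3 := hL g
      show gsq ψ g ≤ (1 + ψ (act g (base n))) * Lap ψ (act g (base n))
      linarith)
  intro v hv
  have h2 := h1 v hv
  linarith

/-! ### Uniqueness -/

theorem quad_le {a b c : ℝ} (h : ∀ t : ℝ, 0 ≤ c - 2 * t * a + t ^ 2 * b) : a ^ 2 ≤ b * c := by
  have h1 : ∀ t : ℝ, 0 ≤ b * (t * t) + (-(2 * a)) * t + c := fun t => by
    have := h t
    linarith
  have h2 := discrim_le_zero h1
  rw [discrim] at h2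
  nlinarith

/-- The Cauchy - Schwarz inequality for the form `tr (X^* B⁻¹ Y A⁻¹)`, `Y = B A`. -/
theorem cs_trace {A B X : Mat m} (hA : A.PosDef) (hB : B.PosDef) :
    X.trace.re ^ 2 ≤ (B * A).trace.re * (Xᴴ * B⁻¹ * X * A⁻¹).trace.re := by
  have huA : IsUnit A.det := (isUnit_iff_isUnit_det A).1 hA.isUnit
  have huB : IsUnit B.det := (isUnit_iff_isUnit_det B).1 hB.isUnit
  refine quad_le fun t => ?_
  have h1 := trace_square_nonneg (X := X - (t : ℂ) • (B * A)) hA hB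
  have e1 : (X - (t : ℂ) • (B * A))ᴴ * B⁻¹ * (X - (t : ℂ) • (B * A)) * A⁻¹ =
      Xᴴ * B⁻¹ * X * A⁻¹ - (t : ℂ) • Xᴴ - (t : ℂ) • (A * X * A⁻¹) +
        (t : ℂ) • ((t : ℂ) • (A * B)) := by
    rw [conjTranspose_sub, conjTranspose_smul, conjTranspose_mul, hA.isHermitian.eq,
      hB.isHermitian.eq, Complex.star_def, Complex.conj_ofReal]
    have e2 : (Xᴴ - (t : ℂ) • (A * B)) * B⁻¹ = Xᴴ * B⁻¹ - (t : ℂ) • A := by
      rw [sub_mul, smul_mul_assoc, mul_assoc A, mul_nonsing_inv B huB, mul_one]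
    have e3 : (X - (t : ℂ) • (B * A)) * A⁻¹ = X * A⁻¹ - (t : ℂ) • B := by
      rw [sub_mul, smul_mul_assoc, mul_assoc B, mul_nonsing_inv A huA, mul_one]
    rw [e2, mul_assoc, e3, sub_mul, mul_sub, mul_sub, mul_smul_comm, smul_mul_assoc,
      smul_mul_assoc, mul_smul_comm]
    have e4 : Xᴴ * B⁻¹ * B = Xᴴ := by rw [mul_assoc, nonsing_inv_mul B huB, mul_one]
    rw [e4]
    simp only [mul_assoc, smul_sub]
    abel
  rw [e1, trace_add, trace_sub, trace_sub, trace_smul, trace_smul, trace_smul, trace_smul] at h1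
  have e5 : (A * X * A⁻¹).trace = X.trace := by
    rw [trace_mul_comm, ← mul_assoc, nonsing_inv_mul A huA, one_mul]
  have e6 : (A * B).trace = (B * A).trace := trace_mul_comm _ _
  rw [e5, e6, trace_conjTranspose] at h1
  simp only [smul_eq_mul, Complex.add_re, Complex.sub_re, Complex.re_ofReal_mul, Complex.star_def,
    Complex.conj_re] at h1
  calc (0 : ℝ) ≤ _ := h1
    _ = _ := by ring

/-- The square of the gradient of `tr (B A)`. -/
theorem gsq_trace_le {A B : Vec n → Mat m} (hA2 : ContDiffOn ℝ 2 A (Cone n))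
    (hB2 : ContDiffOn ℝ 2 B (Cone n)) (hAp : ∀ v ∈ Cone n, (A v).PosDef)
    (hBp : ∀ v ∈ Cone n, (B v).PosDef) (g : SUGroup n) :
    gsq (fun v => (B v * A v).trace.re) g ≤
      (B (act g (base n)) * A (act g (base n))).trace.re * (1 / 4 * sqs B A g) := by
  have hv := orbit_mem g
  have h1 : ∀ ξ : Vec n, fderiv ℝ (fun v => (B v * A v).trace.re) (act g (base n)) ξ =
      (fderiv ℝ (fun w => B w * A w) (act g (base n)) ξ).trace.re := by
    intro ξ
    have hd : DifferentiableAt ℝ (fun w => B w * A w) (act g (base n)) :=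
      ((contDiffAt_cone hB2 hv).mul (contDiffAt_cone hA2 hv)).differentiableAt (by norm_num)
    have h2 := ((trL m).hasFDerivAt.comp (act g (base n)) hd.hasFDerivAt).fderiv
    have h3 : fderiv ℝ (fun v => (B v * A v).trace.re) (act g (base n)) =
      (trL m).comp (fderiv ℝ (fun w => B w * A w) (act g (base n))) := h2
    rw [h3]
    rfl
  have h2 : ∀ ξ : Vec n, fderiv ℝ (fun v => (B v * A v).trace.re) (act g (base n)) ξ ^ 2 ≤
      (B (act g (base n)) * A (act g (base n))).trace.re * sqd B A (act g (base n)) ξ := by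
    intro ξ
    rw [h1 ξ, sqd]
    exact cs_trace (hAp _ hv) (hBp _ hv)
  rw [gsq, sqs, mul_left_comm]
  refine mul_le_mul_of_nonneg_left ?_ (by norm_num)
  rw [Finset.mul_sum]
  refine Finset.sum_le_sum fun j _ => ?_
  rw [mul_add]
  exact add_le_add (h2 _) (h2 _)

end Pool.Agent.Lib.MP_5d4057_al.RC
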