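import Pool.Agent.Lib.MP_5d4057_al.RC.Liou
import Pool.Agent.Lib.MP_5d4057_al.HM.AppVan

/-! The Laplacian of `log (1 + ψ)`. -/

set_option autoImplicit false

namespace Pool.Agent.Lib.MP_5d4057_al.RC

open Matrix MeasureTheory Filter Topology Pool.Agent.Lib.MP_5d4057_al
  Pool.Agent.Lib.MP_5d4057_al.Hyb Pool.Agent.Lib.MP_5d4057_al.HM

open scoped ComplexOrder MatrixOrder Matrix.Norms.L2Operator

variable {n : ℕ}

/-- A real function as a complex function. -/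
noncomputable def cx (ψ : Vec n → ℝ) (v : Vec n) : ℂ := (ψ v : ℂ)

theorem fderiv_cx {ψ : Vec n → ℝ} {v : Vec n} (h : DifferentiableAt ℝ ψ v) :
    fderiv ℝ (cx ψ) v = Complex.ofRealCLM.comp (fderiv ℝ ψ v) := by
  have h1 : HasFDerivAt (cx ψ) (Complex.ofRealCLM.comp (fderiv ℝ ψ v)) v :=
    Complex.ofRealCLM.hasFDerivAt.comp v h.hasFDerivAt
  exact h1.fderiv

theorem cd_cx {ψ : Vec n → ℝ} {v : Vec n} (h : ContDiffAt ℝ 2 ψ v) : ContDiffAt ℝ 2 (cx ψ) v :=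
  Complex.ofRealCLM.contDiff.contDiffAt.comp v h

theorem fderiv2_cx {ψ : Vec n → ℝ} {v : Vec n} (h : ContDiffAt ℝ 2 ψ v) (a b : Vec n) :
    fderiv ℝ (fderiv ℝ (cx ψ)) v a b = ((fderiv ℝ (fderiv ℝ ψ) v a b : ℝ) : ℂ) := by
  have hD : DifferentiableAt ℝ (fderiv ℝ ψ) v :=
    (h.fderiv_right (m := 1) (by norm_num)).differentiableAt (by norm_num)
  have h1 : HasFDerivAt (fun w => (ContinuousLinearMap.compL ℝ (Vec n) ℝ ℂ Complex.ofRealCLM)
      (fderiv ℝ ψ w)) ((ContinuousLinearMap.compL ℝ (Vec n) ℝ ℂ Complex.ofRealCLM).comp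
        (fderiv ℝ (fderiv ℝ ψ) v)) v :=
    (ContinuousLinearMap.compL ℝ (Vec n) ℝ ℂ Complex.ofRealCLM).hasFDerivAt.comp v hD.hasFDerivAt
  have h2 : fderiv ℝ (cx ψ) =ᶠ[𝓝 v] fun w =>
      (ContinuousLinearMap.compL ℝ (Vec n) ℝ ℂ Complex.ofRealCLM) (fderiv ℝ ψ w) := by
    filter_upwards [h.eventually (by simp)] with w hw
    exact fderiv_cx (hw.differentiableAt (by norm_num))
  rw [h2.fderiv_eq, h1.fderiv]
  rfl

/-- The mixed derivative of a real function. -/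
theorem pb_pz_cx {ψ : Vec n → ℝ} {v : Vec n} (h : ContDiffAt ℝ 2 ψ v) (ξ : Vec n) :
    pb (fun w => pz (cx ψ) w ξ) v ξ = (((1 / 4 : ℝ) * (fderiv ℝ (fderiv ℝ ψ) v ξ ξ +
      fderiv ℝ (fderiv ℝ ψ) v (Complex.I • ξ) (Complex.I • ξ)) : ℝ) : ℂ) := by
  have hs : ∀ a b : Vec n, fderiv ℝ (fderiv ℝ ψ) v a b = fderiv ℝ (fderiv ℝ ψ) v b a :=
    fun a b => (h.isSymmSndFDerivAt (by simp)).eq a b
  have e2 : ∀ a : Vec n, fderiv ℝ (fun w => pz (cx ψ) w ξ) v a = (1 / 2 : ℂ) •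
      (fderiv ℝ (fderiv ℝ (cx ψ)) v a ξ -
        Complex.I • fderiv ℝ (fderiv ℝ (cx ψ)) v a (Complex.I • ξ)) := by
    intro a
    rw [(hasFDerivAt_pz (cd_cx h) ξ).fderiv]
    rfl
  rw [pb, e2, e2, fderiv2_cx h, fderiv2_cx h, fderiv2_cx h, fderiv2_cx h, hs (Complex.I • ξ) ξ]
  simp only [smul_eq_mul]
  push_cast
  linear_combination (-(1 / 4 : ℂ)) * ((fderiv ℝ (fderiv ℝ ψ) v (Complex.I • ξ) (Complex.I • ξ) : ℝ) : ℂ) *
    Complex.I_mul_I

/-- The frame at `g`. -/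
def fr (g : SUGroup n) (j : Fin n) : Vec n := act g (Pi.single j.castSucc 1)

theorem fr_I (g : SUGroup n) (j : Fin n) :
    act g (Pi.single j.castSucc Complex.I) = Complex.I • fr g j := by
  rw [fr, ← act_smul, ← Pi.single_smul, smul_eq_mul, mul_one]

theorem lap_wirt {ψ : Vec n → ℝ} (hf : Homog ψ) (g : SUGroup n)
    (hd : ContDiffAt ℝ 2 ψ (act g (base n))) :
    Lap ψ (act g (base n)) = ∑ j : Fin n,
      (pb (fun w => pz (cx ψ) w (fr g j)) (act g (base n)) (fr g j)).re := by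
  rw [lap_frame hf g hd, smul_eq_mul, Finset.mul_sum]
  refine Finset.sum_congr rfl fun j _ => ?_
  rw [pb_pz_cx hd, Complex.ofReal_re, fr_I]
  rfl

theorem pz_cx {ψ : Vec n → ℝ} {v : Vec n} (h : DifferentiableAt ℝ ψ v) (ξ : Vec n) :
    HasZ (cx ψ) v ξ (pz (cx ψ) v ξ) (star (pz (cx ψ) v ξ)) := by
  have h1 : DifferentiableAt ℝ (cx ψ) v := by
    have : HasFDerivAt (cx ψ) (Complex.ofRealCLM.comp (fderiv ℝ ψ v)) v :=
      Complex.ofRealCLM.hasFDerivAt.comp v h.hasFDerivAt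
    exact this.differentiableAt
  refine HasZ.of_eq (hasZ h1 ξ) rfl ?_
  rw [pz, pb, fderiv_cx h]
  simp only [ContinuousLinearMap.comp_apply, Complex.ofRealCLM_apply, smul_eq_mul, star_mul',
    star_sub]
  have e1 : star (1 / 2 : ℂ) = 1 / 2 := by
    rw [star_div₀, star_one, star_ofNat]
  have e2 : ∀ r : ℝ, star (r : ℂ) = (r : ℂ) := fun r => Complex.conj_ofReal r
  have e3 : star Complex.I = -Complex.I := Complex.conj_I
  rw [e1, e2, e2, e3]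
  ring

section
variable {ψ : Vec n → ℝ}

/-- The first derivative of `log (1 + ψ)`. -/
theorem pz_log {v : Vec n} (h : DifferentiableAt ℝ ψ v) (h0 : 0 ≤ ψ v) (ξ : Vec n) :
    pz (cx fun w => Real.log (1 + ψ w)) v ξ = (1 + cx ψ v)⁻¹ * pz (cx ψ) v ξ := by
  have h1 : (1 + ψ v) ≠ 0 := by positivity
  have h2 : HasFDerivAt (fun w => Real.log (1 + ψ w)) ((1 + ψ v)⁻¹ • fderiv ℝ ψ v) v :=
    (h.hasFDerivAt.const_add 1).log h1
  have h3 : DifferentiableAt ℝ (fun w => Real.log (1 + ψ w)) v := h2.differentiableAt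
  rw [pz, pz, fderiv_cx h3, fderiv_cx h, h2.fderiv]
  simp only [ContinuousLinearMap.comp_apply, Complex.ofRealCLM_apply, smul_eq_mul,
    FunLike.coe_smul, Pi.smul_apply]
  rw [cx]
  push_cast
  ring

theorem lap_log (hh : Homog ψ) (hc : ContDiffOn ℝ 2 ψ (Cone n)) (h0 : ∀ v ∈ Cone n, 0 ≤ ψ v)
    (g : SUGroup n) :
    Lap (fun v => Real.log (1 + ψ v)) (act g (base n)) = ∑ j : Fin n,
      ((pb (fun w => pz (cx ψ) w (fr g j)) (act g (base n)) (fr g j)).re /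
        (1 + ψ (act g (base n))) -
        ‖pz (cx ψ) (act g (base n)) (fr g j)‖ ^ 2 / (1 + ψ (act g (base n))) ^ 2) := by
  set v := act g (base n) with hv
  have hvc : v ∈ Cone n := orbit_mem g
  have hcv : ContDiffAt ℝ 2 ψ v := hc.contDiffAt (mem_nhds_cone hvc)
  have hh' : Homog fun v => Real.log (1 + ψ v) := fun c hc0 w hw => by
    show Real.log (1 + ψ (c • w)) = _
    rw [hh c hc0 w hw]
  have hpos : 0 < 1 + ψ v := by
    have := h0 v hvc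
    linarith
  have hd : ContDiffAt ℝ 2 (fun v => Real.log (1 + ψ v)) v :=
    (contDiffAt_const.add hcv).log hpos.ne'
  rw [lap_wirt hh' g hd]
  refine Finset.sum_congr rfl fun j _ => ?_
  rw [← hv]
  set ξ := fr g j with hξ
  have e1 : (fun w => pz (cx fun w => Real.log (1 + ψ w)) w ξ) =ᶠ[𝓝 v]
      fun w => (1 + cx ψ w)⁻¹ * pz (cx ψ) w ξ := by
    filter_upwards [mem_nhds_cone hvc] with w hw
    exact pz_log ((hc.contDiffAt (mem_nhds_cone hw)).differentiableAt (by norm_num)) (h0 w hw) ξ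
  rw [pb_congr e1]
  have hne : (1 + cx ψ v) ≠ 0 := by
    rw [cx]
    exact_mod_cast hpos.ne'
  have z1 := pz_cx (hcv.differentiableAt (by norm_num)) ξ
  have z2 : HasZ (fun w => pz (cx ψ) w ξ) v ξ _ _ :=
    hasZ (hasFDerivAt_pz (cd_cx hcv) ξ).differentiableAt ξ
  have z3 := (((hasZ_const (1 : ℂ) v ξ).add z1).inv hne).mul' z2
  have z4 : HasZ (fun w => (1 + cx ψ w)⁻¹ * pz (cx ψ) w ξ) v ξ _ _ := z3
  rw [z4.pb]
  have e2 : pz (cx ψ) v ξ * star (pz (cx ψ) v ξ) = ((‖pz (cx ψ) v ξ‖ ^ 2 : ℝ) : ℂ) := by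
    rw [RCLike.star_def, Complex.mul_conj, Complex.normSq_eq_norm_sq]
  obtain ⟨r, e3⟩ : ∃ r : ℝ, pb (fun w => pz (cx ψ) w ξ) v ξ = (r : ℂ) := ⟨_, pb_pz_cx hcv ξ⟩
  rw [e3, Complex.ofReal_re]
  have e4 : (1 + cx ψ v)⁻¹ * (r : ℂ) +
      -(0 + star (pz (cx ψ) v ξ)) / (1 + cx ψ v) ^ 2 * pz (cx ψ) v ξ =
      ((r / (1 + ψ v) - ‖pz (cx ψ) v ξ‖ ^ 2 / (1 + ψ v) ^ 2 : ℝ) : ℂ) := by
    push_cast at e2 ⊢
    rw [← e2]
    unfold cx at hne ⊢
    field_simp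
    ring
  rw [e4, Complex.ofReal_re]

/-- If `|∂ψ|² ≤ ψ D` and `∂∂̄ψ ≥ D + s` then `Lap log (1 + ψ) ≥ s/(1 + ψ)`. -/
theorem lap_log_ge (hh : Homog ψ) (hc : ContDiffOn ℝ 2 ψ (Cone n)) (h0 : ∀ v ∈ Cone n, 0 ≤ ψ v)
    (g : SUGroup n) (D s : Fin n → ℝ) (hD : ∀ j, 0 ≤ D j)
    (h1 : ∀ j, ‖pz (cx ψ) (act g (base n)) (fr g j)‖ ^ 2 ≤ ψ (act g (base n)) * D j)
    (h2 : ∀ j, D j + s j ≤
      (pb (fun w => pz (cx ψ) w (fr g j)) (act g (base n)) (fr g j)).re) :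
    (∑ j, s j) / (1 + ψ (act g (base n))) ≤
      Lap (fun v => Real.log (1 + ψ v)) (act g (base n)) := by
  rw [lap_log hh hc h0 g, Finset.sum_div]
  refine Finset.sum_le_sum fun j _ => ?_
  have hp := h0 _ (orbit_mem g)
  set p := ψ (act g (base n)) with hpd
  have hpos : 0 < 1 + p := by linarith
  have e1 := h1 j
  have e2 := h2 j
  have e3 := hD j
  set L := (pb (fun w => pz (cx ψ) w (fr g j)) (act g (base n)) (fr g j)).re
  set N := ‖pz (cx ψ) (act g (base n)) (fr g j)‖ ^ 2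
  have h3 : (D j + s j) / (1 + p) ≤ L / (1 + p) := by gcongr
  have h4 : N / (1 + p) ^ 2 ≤ (p * D j) / (1 + p) ^ 2 := by gcongr
  have h5 : (p * D j) / (1 + p) ^ 2 ≤ D j / (1 + p) := by
    rw [div_le_div_iff₀ (by positivity) hpos]
    nlinarith [mul_nonneg hp e3, mul_nonneg (mul_nonneg hp e3) hp]
  have h6 : (D j + s j) / (1 + p) = D j / (1 + p) + s j / (1 + p) := by ring
  linarith

end

/-- Logarithmic growth. -/
theorem logGr_log {ψ : Vec n → ℝ} (h0 : ∀ v ∈ Cone n, 0 ≤ ψ v) (hp : Pol ψ) :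
    LogGr fun v => Real.log (1 + ψ v) := by
  obtain ⟨N, C, hC, h⟩ := hp
  refine ⟨N, Real.log (1 + C), by positivity, fun g => ?_⟩
  have h1 := h g
  have h2 := one_le_ch g
  have h3 := h0 _ (orbit_mem g)
  rw [Real.norm_of_nonneg h3] at h1
  have h4 : 1 + ψ (act g (base n)) ≤ (1 + C) * ch g ^ N := by
    have h5 : (1 : ℝ) ≤ ch g ^ N := one_le_pow₀ h2
    nlinarith
  have h5 : Real.log (1 + ψ (act g (base n))) ≤ Real.log ((1 + C) * ch g ^ N) :=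
    Real.log_le_log (by linarith) h4
  rw [Real.log_mul (by positivity) (by positivity), Real.log_pow] at h5
  exact h5

end Pool.Agent.Lib.MP_5d4057_al.RC
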