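import Pool.Agent.Lib.MP_5d4057_al.RC.Log
import Pool.Agent.Lib.MP_5d4057_al.HM.AppPlur

/-! Uniqueness of harmonic metrics of polynomial growth. -/

namespace Pool.Agent.Lib.MP_5d4057_al.RC

open Matrix MeasureTheory Filter Topology Pool.Agent.Lib.MP_5d4057_al
  Pool.Agent.Lib.MP_5d4057_al.Hyb Pool.Agent.Lib.MP_5d4057_al.HM
  Pool.Agent.Lib.MP_5d4057_al.HM.TrSub

open scoped ComplexOrder MatrixOrder Matrix.Norms.L2Operator

variable {n m : ℕ} {Γ : Subgroup (SUGroup n)}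

theorem Pol.mul {R : Type} [NormedRing R] {f g : Vec n → R} (hf : Pol f) (hg : Pol g) :
    Pol fun v => f v * g v := by
  obtain ⟨N, C, hC, h1⟩ := hf
  obtain ⟨N', C', hC', h2⟩ := hg
  refine ⟨N + N', C * C', by positivity, fun a => ?_⟩
  calc ‖f (act a (base n)) * g (act a (base n))‖ ≤ ‖f (act a (base n))‖ * ‖g (act a (base n))‖ :=
        norm_mul_le _ _
    _ ≤ (C * ch a ^ N) * (C' * ch a ^ N') := by
        refine mul_le_mul (h1 a) (h2 a) (norm_nonneg _) ?_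
        have := one_le_ch a
        positivity
    _ = C * C' * ch a ^ (N + N') := by rw [pow_add]; ring

theorem Pol.add {E : Type} [NormedAddCommGroup E] {f g : Vec n → E} (hf : Pol f) (hg : Pol g) :
    Pol fun v => f v + g v := by
  obtain ⟨N, C, hC, h1⟩ := hf
  obtain ⟨N', C', hC', h2⟩ := hg
  refine ⟨N + N', C + C', by positivity, fun a => ?_⟩
  have h0 := one_le_ch a
  have h3 : ch a ^ N ≤ ch a ^ (N + N') := pow_le_pow_right₀ h0 (by omega)
  have h4 : ch a ^ N' ≤ ch a ^ (N + N') := pow_le_pow_right₀ h0 (by omega)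
  calc ‖f (act a (base n)) + g (act a (base n))‖ ≤ ‖f (act a (base n))‖ + ‖g (act a (base n))‖ :=
        norm_add_le _ _
    _ ≤ C * ch a ^ N + C' * ch a ^ N' := add_le_add (h1 a) (h2 a)
    _ ≤ C * ch a ^ (N + N') + C' * ch a ^ (N + N') := by gcongr
    _ = (C + C') * ch a ^ (N + N') := by ring

/-- A linear image of a function of polynomial growth. -/
theorem Pol.clm {E E' : Type} [NormedAddCommGroup E] [NormedSpace ℝ E] [NormedAddCommGroup E']
    [NormedSpace ℝ E'] (L : E →L[ℝ] E') {f : Vec n → E} (hf : Pol f) : Pol fun v => L (f v) := by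
  obtain ⟨N, C, hC, h1⟩ := hf
  refine ⟨N, ‖L‖ * C, by positivity, fun a => ?_⟩
  calc ‖L (f (act a (base n)))‖ ≤ ‖L‖ * ‖f (act a (base n))‖ := L.le_opNorm _
    _ ≤ ‖L‖ * (C * ch a ^ N) := mul_le_mul_of_nonneg_left (h1 a) (norm_nonneg _)
    _ = ‖L‖ * C * ch a ^ N := by ring

/-- the inverse of a `C²` metric is `C²` -/
private theorem uq_inv {A : Vec n → Mat m} (hA : ContDiffOn ℝ 2 A (Cone n))
    (hp : ∀ v ∈ Cone n, (A v).PosDef) : ContDiffOn ℝ 2 (fun v => (A v)⁻¹) (Cone n) :=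
  fun _ hv => (contDiffAt_inv hA hp hv).contDiffWithinAt

private noncomputable def reL (i j : Fin m) : Mat m →L[ℝ] ℝ :=
  LinearMap.toContinuousLinearMap
    { toFun := fun A : Mat m => (A i j).re
      map_add' := fun A B => by simp [Matrix.add_apply]
      map_smul' := fun c A => by simp [Matrix.smul_apply] }

private noncomputable def imL (i j : Fin m) : Mat m →L[ℝ] ℝ :=
  LinearMap.toContinuousLinearMap
    { toFun := fun A : Mat m => (A i j).im
      map_add' := fun A B => by simp [Matrix.add_apply]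
      map_smul' := fun c A => by simp [Matrix.smul_apply] }

/-- a real functional of a homogeneous function with vanishing derivative is constant -/
private theorem uq_const (hn : 1 ≤ n) {C : Vec n → Mat m} (hC : Homog C)
    (hC2 : ContDiffOn ℝ 2 C (Cone n))
    (h : ∀ g : SUGroup n, fderiv ℝ C (act g (base n)) = 0) (L : Mat m →L[ℝ] ℝ) {v : Vec n}
    (hv : v ∈ Cone n) : L (C v) = L (C (base n)) := by
  have hh : Homog fun w => L (C w) := fun c hc w hw => by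
    show L (C (c • w)) = L (C w)
    rw [hC c hc w hw]
  have hd : ∀ g : SUGroup n, fderiv ℝ (fun w => L (C w)) (act g (base n)) = 0 := by
    intro g
    have h1 : DifferentiableAt ℝ C (act g (base n)) :=
      (hC2.contDiffAt ((isOpen_cone n).mem_nhds (orbit_mem g))).differentiableAt (by norm_num)
    have h2 : HasFDerivAt (fun w => L (C w)) (L.comp (fderiv ℝ C (act g (base n))))
        (act g (base n)) := L.hasFDerivAt.comp _ h1.hasFDerivAt
    rw [h2.fderiv, h g, ContinuousLinearMap.comp_zero]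
  exact const_of_frame hn hh (L.contDiff.comp_contDiffOn hC2)
    (fun g j => by rw [hd g]; exact ⟨rfl, rfl⟩) hv

private theorem lap_const (c : ℝ) (v : Vec n) : Lap (fun _ : Vec n => c) v = 0 := by
  unfold Lap
  have h1 : fderiv ℝ (fun _ : Vec n => c) = 0 := by
    funext w
    exact fderiv_const_apply c
  have h2 : fderiv ℝ (0 : Vec n → (Vec n →L[ℝ] ℝ)) v = 0 := fderiv_const_apply 0
  rw [h1, h2]
  simp

/-- Theorem U for groups with the Liouville property. -/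
theorem unique_rec (hn : 1 ≤ n) (hΓ : Rec Γ) {ρ : Γ →* Mat m} {F₁ F₂ : Vec n → Mat m}
    (h₁ : Met ρ F₁) (h₂ : Met ρ F₂) (c₁ : ContDiffOn ℝ 2 F₁ (Cone n))
    (c₂ : ContDiffOn ℝ 2 F₂ (Cone n)) (e₁ : ∀ v ∈ Cone n, Lap F₁ v = en F₁ v)
    (e₂ : ∀ v ∈ Cone n, Lap F₂ v = en F₂ v) (g₁ : Pol fun v => (F₁ v)⁻¹) (g₂ : Pol F₂) :
    ∀ v ∈ Cone n, (F₁ v)⁻¹ * F₂ v = (F₁ (base n))⁻¹ * F₂ (base n) := by
  set B : Vec n → Mat m := fun v => (F₁ v)⁻¹ with hB
  have hBh : Homog B := fun c hc w hw => by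
    show (F₁ (c • w))⁻¹ = (F₁ w)⁻¹
    rw [h₁.hom c hc w hw]
  have hB2 : ContDiffOn ℝ 2 B (Cone n) := uq_inv c₁ h₁.pos
  have hBp : ∀ v ∈ Cone n, (B v).PosDef := fun v hv => (h₁.pos v hv).inv
  have hBe : ∀ v ∈ Cone n, Lap B v = en B v := lap_inv h₁.hom c₁ h₁.pos e₁
  set C : Vec n → Mat m := fun v => B v * F₂ v with hCdef
  have hCh : Homog C := fun c hc w hw => by
    show B (c • w) * F₂ (c • w) = B w * F₂ w
    rw [hBh c hc w hw, h₂.hom c hc w hw]
  have hC2 : ContDiffOn ℝ 2 C (Cone n) := hB2.mul c₂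
  set u : Vec n → ℝ := fun v => (B v * F₂ v).trace.re with hu
  have huh : Homog u := fun c hc w hw => by
    show (C (c • w)).trace.re = (C w).trace.re
    rw [hCh c hc w hw]
  have hu2 : ContDiffOn ℝ 2 u (Cone n) := (trL m).contDiff.comp_contDiffOn hC2
  have hui : HM.Inv Γ u := by
    intro γ hγ v hv
    show ((F₁ (act γ v))⁻¹ * F₂ (act γ v)).trace.re = ((F₁ v)⁻¹ * F₂ v).trace.re
    have q₁ := h₁.equi ⟨γ, hγ⟩ v hv
    have q₂ := h₂.equi ⟨γ, hγ⟩ v hv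
    have r1 : ρ ⟨γ, hγ⟩ * ρ ⟨γ, hγ⟩⁻¹ = 1 := by rw [← map_mul, mul_inv_cancel, map_one]
    have r2 : ρ ⟨γ, hγ⟩⁻¹ * ρ ⟨γ, hγ⟩ = 1 := by rw [← map_mul, inv_mul_cancel, map_one]
    set R := ρ ⟨γ, hγ⟩ with hR
    set S := ρ ⟨γ, hγ⟩⁻¹ with hS
    have r3 : Rᴴ * Sᴴ = 1 := by rw [← conjTranspose_mul, r2, conjTranspose_one]
    have r4 : Sᴴ * Rᴴ = 1 := by rw [← conjTranspose_mul, r1, conjTranspose_one]
    have f1 : F₁ v * (F₁ v)⁻¹ = 1 :=
      Matrix.mul_nonsing_inv _ ((Matrix.isUnit_iff_isUnit_det _).1 (h₁.pos v hv).isUnit)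
    have hinv : (R * F₁ v * Rᴴ)⁻¹ = Sᴴ * (F₁ v)⁻¹ * S := by
      refine Matrix.inv_eq_right_inv ?_
      calc R * F₁ v * Rᴴ * (Sᴴ * (F₁ v)⁻¹ * S)
          = R * (F₁ v * (Rᴴ * Sᴴ) * (F₁ v)⁻¹) * S := by simp only [mul_assoc]
        _ = 1 := by rw [r3, mul_one, f1, mul_one, r1]
    have q₁' : F₁ (act γ v) = R * F₁ v * Rᴴ := q₁
    have q₂' : F₂ (act γ v) = R * F₂ v * Rᴴ := q₂
    rw [q₁', q₂', hinv]
    have e : Sᴴ * (F₁ v)⁻¹ * S * (R * F₂ v * Rᴴ) = Sᴴ * ((F₁ v)⁻¹ * F₂ v) * Rᴴ := by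
      calc Sᴴ * (F₁ v)⁻¹ * S * (R * F₂ v * Rᴴ)
          = Sᴴ * (F₁ v)⁻¹ * (S * R) * F₂ v * Rᴴ := by simp only [mul_assoc]
        _ = _ := by rw [r2, mul_one]; simp only [mul_assoc]
    rw [e, Matrix.trace_mul_comm, ← mul_assoc, r3, one_mul]
  have hlap : ∀ g : SUGroup n, Lap u (act g (base n)) = 1 / 4 * sqs B F₂ g := by
    intro g
    rw [hu, lap_trace h₂.hom hBh c₂ hB2 h₂.pos hBp g, hBe _ (orbit_mem g), e₂ _ (orbit_mem g),
      sub_self, sub_self, zero_mul, mul_zero]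
    simp
  have hu0 : ∀ v ∈ Cone n, 0 ≤ u v := fun v hv =>
    trace_mul_nonneg (hBp v hv).posSemidef (h₂.pos v hv).posSemidef
  have hconst := hΓ.const' huh hu2 hui hu0 ((g₁.mul g₂).clm (trL m))
    (fun g => by
      rw [hlap g]
      exact mul_nonneg (by norm_num) (sqs_nonneg h₂.pos hBp g))
    (fun g => by
      rw [hlap g]
      exact gsq_trace_le c₂ hB2 h₂.pos hBp g)
  have hzero : ∀ v ∈ Cone n, Lap u v = 0 := by
    intro v hv
    have h1 : u =ᶠ[𝓝 v] fun _ => u (base n) := by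
      filter_upwards [(isOpen_cone n).mem_nhds hv] with w hw
      exact hconst w hw
    rw [lap_congr h1, lap_const]
  have hd : ∀ g : SUGroup n, fderiv ℝ C (act g (base n)) = 0 := by
    intro g
    refine fderiv_eq_zero_of_sqs h₂.hom hBh c₂ hB2 h₂.pos hBp g ?_
    have h1 := hlap g
    rw [hzero _ (orbit_mem g)] at h1
    linarith
  intro v hv
  ext i j
  refine Complex.ext ?_ ?_
  · exact uq_const hn hCh hC2 hd (reL i j) hv
  · exact uq_const hn hCh hC2 hd (imL i j) hv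

theorem thmU_rec (hn : 1 ≤ n) (hΓ : Rec Γ) {ρ : Γ →* Mat m} {F₁ F₂ : Vec n → Mat m}
    (h₁ : HarmG F₁) (h₂ : HarmG F₂) (e₁ : Equi ρ F₁) (e₂ : Equi ρ F₂) :
    ∃ S : Mat m, ∀ v ∈ Cone n, F₂ v = F₁ v * S := by
  have h := unique_rec hn hΓ (h₁.met e₁) (h₂.met e₂) h₁.cd h₂.cd (fun v hv => h₁.lap hv)
    (fun v hv => h₂.lap hv) h₁.grInv h₂.gr
  refine ⟨(F₁ (base n))⁻¹ * F₂ (base n), fun v hv => ?_⟩
  rw [← h v hv, ← Matrix.mul_assoc, mul_nonsing_inv _ ((isUnit_iff_isUnit_det _).1 (h₁.unit hv)),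
    Matrix.one_mul]

end Pool.Agent.Lib.MP_5d4057_al.RC
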