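import Pool.Agent.Lib.MP_5d4057_al.RC.WideD
import Pool.Agent.Lib.MP_5d4057_al.RC.Lat
import Pool.Agent.Lib.MP_5d4057_al.RC.Fgg
import Pool.Agent.Lib.MP_5d4057_al.RC.Van
import Pool.Agent.Lib.MP_5d4057_al.RC.Orth
import Pool.Agent.Lib.MP_5d4057_al.Hyb.ArithA

/-! Hybrids of arbitrary arithmetic lattices: the pieces are contained in `SU(H, K)`. -/

set_option autoImplicit false

namespace Pool.Agent.Lib.MP_5d4057_al.RC

open Matrix Pool.Agent.Lib.MP_5d4057_al Pool.Agent.Lib.MP_5d4057_al.Hyb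
  Pool.Agent.Lib.MP_5d4057_al.HM Pool.Agent.Lib.MP_5d4057_al.NU

variable {k : ℕ}

/-- The pieces of a hybrid lattice are contained in `SU(H, K)`, and the trace fields are equal. -/
theorem narrow_of_arith_rec (hk : 1 ≤ k) (Γ₃ : Subgroup (SUGroup k))
    (Γ : Fin 2 → Subgroup (SUGroup (k + 1))) (g : Fin 2 → SUGroup (k + 2))
    (h₃ : IsLattice Γ₃) (hL : ∀ b, IsLattice (Γ b)) (hA : ∀ b, IsArith (k + 1) (Γ b))
    (hsub : ∀ b, ∀ γ ∈ Γ₃, extend k γ ∈ Γ b)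
    (hagree : ∀ γ ∈ Γ₃, g 0 * extend (k + 1) (extend k γ) * (g 0)⁻¹ =
      g 1 * extend (k + 1) (extend k γ) * (g 1)⁻¹)
    (hlat : IsLattice (hybrid Γ g)) :
    (∀ b, IsArithmetic (k + 1) (Γ b)) ∧ traceField (Γ 0) = traceField (Γ 1) := by
  have hfg : ∀ b, FGG (Γ b) := fun b => fgg_of_isArith (hA b)
  have hfgh : FGG (hybrid Γ g) := fgg_hybrid hfg g
  have h3 := fun b => exists_form hk h₃ (hA b) (hsub b)
  choose K HH B hf hc using h3
  obtain ⟨Γ', hΓ'⟩ : ∃ Γ' : Fin 2 → Subgroup (SUGroup (k + 1)),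
    Γ' = fun b => ratPart (Γ b) (K b) (B b) := ⟨_, rfl⟩
  have hle : ∀ b, Γ' b ≤ Γ b := by
    intro b
    rw [hΓ']
    exact ratPart_le _ _ _
  have hfin : ∀ b, (Γ' b).relIndex (Γ b) ≠ 0 := by
    intro b
    rw [hΓ']
    exact ratPart_relIndex (hc b)
  have hL' : ∀ b, IsLattice (Γ' b) := fun b => isLattice_of_relIndex (hL b) (hle b) (hfin b)
  have hA' : ∀ b, IsArithmetic (k + 1) (Γ' b) := by
    intro b
    rw [hΓ']
    exact isArithmetic_ratPart (hf b) (hc b)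
  have htf : ∀ b, traceField (Γ' b) = K b := by
    intro b
    refine traceField_eq (by omega : 2 ≤ k + 1) (Γ' b) (hL' b) (K b) (HH b) (B b)
      (hf b) fun γ hγ => ?_
    rw [hΓ'] at hγ
    exact hγ.2.1
  have h3' : IsLattice (commonPart Γ₃ Γ') :=
    isLattice_of_relIndex h₃ (commonPart_le Γ₃ Γ') (commonPart_relIndex hsub hfin)
  have hfield := fields_wide_rec hk (commonPart Γ₃ Γ') Γ Γ' hle hfin g h3' hL' hA'
    (commonPart_sub Γ₃ Γ') (fun γ hγ => hagree γ (commonPart_le Γ₃ Γ' hγ))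
    (rec_of_lattice (by omega) hlat hfgh)
    (fun b => rec_of_lattice (by omega) (hL' b) ((hfg b).mono (hle b)))
    (fun b => van_of_lattice (by omega) (hL' b) ((hfg b).mono (hle b)))
    (fun t => harm_lat (by omega) hlat hfgh t)
  have hK : ∀ b, K b = K 0 := by
    rw [Fin.forall_fin_two]
    refine ⟨rfl, ?_⟩
    rw [← htf 0, ← htf 1]
    exact hfield.symm
  have h4 : ∀ b, ∃ (H' : Matrix (Fin (k + 1 + 1)) (Fin (k + 1 + 1)) (K 0))
      (B' : Matrix (Fin (k + 1 + 1)) (Fin (k + 1 + 1)) ℂ), IsForm (k + 1) (K 0) H' B' ∧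
        Subgroup.Commensurable (Γ b) (integralPoints (k + 1) (K 0) B') := by
    intro b
    rw [← hK b]
    exact ⟨HH b, B b, hf b, hc b⟩
  choose HH' B' hf' hc' using h4
  have hr := wide_narrow_rec hk Γ₃ Γ g h₃ hL hf' hc' hsub hagree hlat
    (rec_of_lattice (by omega) hlat hfgh) (fun t => harm_lat (by omega) hlat hfgh t)
    (fun b => rec_of_lattice (by omega)
      (isLattice_of_relIndex (hL b) (ratPart_le _ _ _) (ratPart_relIndex (hc' b)))
      ((hfg b).mono (ratPart_le _ _ _)))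
  refine ⟨fun b => ⟨K 0, HH' b, B' b, hf' b, hr b, hc' b⟩, ?_⟩
  rw [traceField_eq (by omega : 2 ≤ k + 1) (Γ 0) (hL 0) (K 0) (HH' 0) (B' 0) (hf' 0) (hr 0),
    traceField_eq (by omega : 2 ≤ k + 1) (Γ 1) (hL 1) (K 0) (HH' 1) (B' 1) (hf' 1) (hr 1)]

end Pool.Agent.Lib.MP_5d4057_al.RC
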